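import Mathlib

/-!
Definitions: reciprocal linear spaces, dual varieties of projective varieties (given by
homogeneous coordinate vectors), rank function, connectedness and beta invariant of the matroid
of a family of linear forms.
-/

set_option autoImplicit false

namespace Pool.Agent.Y214.RDual

open MvPolynomial

/-- The Zariski closure in projective space of a set of nonzero vectors, as a set of nonzero
homogeneous coordinate vectors. -/
def zcl {n : ℕ} (Y : Set (Fin (n + 1) → ℂ)) : Set (Fin (n + 1) → ℂ) :=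
  {p | p ≠ 0 ∧ ∀ (m : ℕ) (F : MvPolynomial (Fin (n + 1)) ℂ), F.IsHomogeneous m →
    (∀ y ∈ Y, eval y F = 0) → eval p F = 0}

/-- The reciprocal linear space: the closure of the points `(1 / ℓ_0(t) : ... : 1 / ℓ_n(t))`
with all `ℓ_i(t)` nonzero. -/
def recip {n d : ℕ} (ℓ : Fin (n + 1) → Module.Dual ℂ (Fin (d + 1) → ℂ)) :
    Set (Fin (n + 1) → ℂ) :=
  zcl {x | ∃ t, (∀ i, ℓ i t ≠ 0) ∧ x = fun i => (ℓ i t)⁻¹}

/-- The tangent space at `p` of the affine cone over the projective variety `X`. -/
def tanSp {n : ℕ} (X : Set (Fin (n + 1) → ℂ)) (p : Fin (n + 1) → ℂ) :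
    Submodule ℂ (Fin (n + 1) → ℂ) where
  carrier := {w | ∀ (m : ℕ) (F : MvPolynomial (Fin (n + 1)) ℂ), F.IsHomogeneous m →
    (∀ y ∈ X, eval y F = 0) → ∑ i, eval p (pderiv i F) * w i = 0}
  add_mem' := by
    intro a b ha hb m F hF hX
    simp only [Pi.add_apply, mul_add, Finset.sum_add_distrib, ha m F hF hX, hb m F hF hX, add_zero]
  zero_mem' := by
    intro m F _ _
    simp
  smul_mem' := by
    intro c a ha m F hF hX
    simp only [Pi.smul_apply, smul_eq_mul, mul_left_comm _ c, ← Finset.mul_sum, ha m F hF hX,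
      mul_zero]

/-- Smooth points of an irreducible projective variety: the points where the dimension of the
tangent space is minimal. -/
def IsSmooth {n : ℕ} (X : Set (Fin (n + 1) → ℂ)) (p : Fin (n + 1) → ℂ) : Prop :=
  p ∈ X ∧ ∀ q ∈ X, Module.finrank ℂ (tanSp X p) ≤ Module.finrank ℂ (tanSp X q)

/-- The dual variety: the closure of the set of hyperplanes `∑ u_i x_i = 0` that contain the
tangent space at some smooth point. -/
def dualVar {n : ℕ} (X : Set (Fin (n + 1) → ℂ)) : Set (Fin (n + 1) → ℂ) :=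
  zcl {u | u ≠ 0 ∧ ∃ p, IsSmooth X p ∧ ∀ w ∈ tanSp X p, ∑ i, u i * w i = 0}

/-- The rank function of the matroid represented by the forms. -/
noncomputable def rk {n d : ℕ} (ℓ : Fin (n + 1) → Module.Dual ℂ (Fin (d + 1) → ℂ))
    (S : Finset (Fin (n + 1))) : ℕ :=
  Module.finrank ℂ (Submodule.span ℂ (ℓ '' (S : Set (Fin (n + 1)))))

/-- The matroid is connected: the rank of no proper nonempty subset and the rank of its complement
add up to the rank of the ground set. -/
def IsConn {n d : ℕ} (ℓ : Fin (n + 1) → Module.Dual ℂ (Fin (d + 1) → ℂ)) : Prop :=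
  ∀ S : Finset (Fin (n + 1)), S.Nonempty → Sᶜ.Nonempty → rk ℓ Finset.univ < rk ℓ S + rk ℓ Sᶜ

/-- The beta invariant of the matroid. -/
noncomputable def betaInv {n d : ℕ} (ℓ : Fin (n + 1) → Module.Dual ℂ (Fin (d + 1) → ℂ)) : ℤ :=
  (-1) ^ rk ℓ Finset.univ * ∑ S : Finset (Fin (n + 1)), (-1) ^ S.card * (rk ℓ S : ℤ)

end Pool.Agent.Y214.RDual
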