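import Mathlib

/-!
An element of a field is integral over a local ring when it lies in every valuation ring
dominating the local ring.
-/

set_option autoImplicit false

namespace Pool.Agent.Y214.RD

open Polynomial Algebra IsLocalRing

theorem isIntegral_of_dominating {A K : Type} [CommRing A] [IsLocalRing A] [Field K] [Algebra A K]
    (x : K) (h : ∀ V : ValuationSubring K, (∀ a : A, algebraMap A K a ∈ V) →
      (∀ a ∈ maximalIdeal A, algebraMap A K a ∈ V.nonunits) → x ∈ V) : IsIntegral A x := by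
  obtain rfl | hx0 := eq_or_ne x 0
  · exact isIntegral_zero
  by_contra hx
  let := invertibleOfNonzero (inv_ne_zero hx0)
  have hI : (maximalIdeal A).map (algebraMap A (Algebra.adjoin A {x⁻¹})) ⊔
      Ideal.span {⟨x⁻¹, Algebra.subset_adjoin rfl⟩} ≠ ⊤ := by
    intro eq
    obtain ⟨p, hp, hpx⟩ := Algebra.exists_aeval_invOf_eq_zero_of_idealMap_adjoin_sup_span_eq_top _ _
      (maximalIdeal.isMaximal A).ne_top eq
    have H : IsUnit p.leadingCoeff := of_not_not fun h ↦ by simpa using sub_mem h hp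
    apply hx
    refine ⟨.C (H.unit⁻¹ : Aˣ).1 * p, by
      rw [Polynomial.Monic, leadingCoeff_C_mul_of_isUnit (H.unit⁻¹).isUnit, H.val_inv_mul], ?_⟩
    have : ⅟ (x⁻¹) = x := by simp
    rw [this] at hpx
    rw [← aeval_def, map_mul, hpx, mul_zero]
  have ⟨V, hV⟩ := Ideal.image_subset_nonunits_valuationSubring
    (A := (Algebra.adjoin A {x⁻¹}).toSubring) _ hI
  have hx1 := h V (fun a => hV.1 ((Algebra.adjoin A {x⁻¹}).algebraMap_mem a)) (fun a ha => hV.2
    ⟨_, le_sup_left (α := Ideal (Algebra.adjoin A {x⁻¹})) (Ideal.mem_map_of_mem _ ha), rfl⟩)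
  have hx2 : x⁻¹ ∈ V.nonunits := hV.2 ⟨_, le_sup_right (α := Ideal (Algebra.adjoin A {x⁻¹}))
    (Ideal.mem_span_singleton_self _), rfl⟩
  exact (V.inv_mem_nonunits_iff.mp hx2).resolve_left hx0 hx1

theorem isIntegral_of_valuationSubring {A K : Type} [CommRing A] [Field K] [Algebra A K]
    (x : K) (h : ∀ V : ValuationSubring K, (∀ a : A, algebraMap A K a ∈ V) → x ∈ V) :
    IsIntegral A x := by
  obtain rfl | hx0 := eq_or_ne x 0
  · exact isIntegral_zero
  by_contra hx
  let := invertibleOfNonzero (inv_ne_zero hx0)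
  have hA : Nontrivial A := (algebraMap A K).domain_nontrivial
  have hI : Ideal.span {(⟨x⁻¹, Algebra.subset_adjoin rfl⟩ : Algebra.adjoin A {x⁻¹})} ≠ ⊤ := by
    intro eq
    obtain ⟨p, hp, hpx⟩ := Algebra.exists_aeval_invOf_eq_zero_of_idealMap_adjoin_sup_span_eq_top
      (x⁻¹) (⊥ : Ideal A) bot_ne_top (top_unique <| eq.ge.trans le_sup_right)
    apply hx
    have : ⅟ (x⁻¹) = x := by simp
    rw [this] at hpx
    exact ⟨p, by simpa [Monic, sub_eq_zero] using hp, by rwa [← aeval_def]⟩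
  have ⟨V, hV⟩ := Ideal.image_subset_nonunits_valuationSubring
    (A := (Algebra.adjoin A {x⁻¹}).toSubring) _ hI
  have hx1 := h V (fun a => hV.1 ((Algebra.adjoin A {x⁻¹}).algebraMap_mem a))
  have hx2 : x⁻¹ ∈ V.nonunits := hV.2 ⟨_, (Ideal.mem_span_singleton_self _), rfl⟩
  exact (V.inv_mem_nonunits_iff.mp hx2).resolve_left hx0 hx1

end Pool.Agent.Y214.RD
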