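import Mathlib

/-!
Linear algebra for linear subspaces of a coordinate space: orthogonal complements for the
standard pairing, extension of scalars of a subspace described by linear relations.
-/

set_option autoImplicit false

namespace Pool.Agent.Y214.RD

open Module

variable {k : Type} [Field k] {E : Type} [Fintype E]

/-- The orthogonal complement of `L` for the standard pairing. -/
def perp (L : Submodule k (E → k)) : Submodule k (E → k) where
  carrier := {a | ∀ y ∈ L, ∑ i, a i * y i = 0}
  add_mem' := by
    intro a b ha hb y hy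
    simp only [Pi.add_apply, add_mul, Finset.sum_add_distrib, ha y hy, hb y hy, add_zero]
  zero_mem' := by
    intro y _
    simp
  smul_mem' := by
    intro c a ha y hy
    simp only [Pi.smul_apply, smul_eq_mul, mul_assoc, ← Finset.mul_sum, ha y hy, mul_zero]

theorem mem_perp {L : Submodule k (E → k)} {a : E → k} :
    a ∈ perp L ↔ ∀ y ∈ L, ∑ i, a i * y i = 0 := Iff.rfl

theorem le_perp_perp (L : Submodule k (E → k)) : L ≤ perp (perp L) := by
  intro y hy a ha
  rw [← ha y hy]
  exact Finset.sum_congr rfl fun i _ => mul_comm _ _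

theorem finrank_perp (L : Submodule k (E → k)) :
    finrank k L + finrank k (perp L) = Fintype.card E := by
  classical
  have h1 := Subspace.finrank_add_finrank_dualAnnihilator_eq L
  rw [Module.finrank_fintype_fun_eq_card] at h1
  have h2 : L.dualAnnihilator = (perp L).map (dotProductEquiv k E).toLinearMap := by
    ext f
    constructor
    · intro hf
      refine ⟨(dotProductEquiv k E).symm f, ?_, by simp⟩
      intro y hy
      have h3 := (Submodule.mem_dualAnnihilator f).1 hf y hy
      have h4 : f = dotProductEquiv k E ((dotProductEquiv k E).symm f) := by simp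
      rw [h4] at h3
      simpa [dotProductEquiv, dotProduct] using h3
    · rintro ⟨a, ha, rfl⟩
      rw [Submodule.mem_dualAnnihilator]
      intro y hy
      simpa [dotProductEquiv, dotProduct] using ha y hy
  rw [h2] at h1
  rw [← h1, LinearEquiv.finrank_map_eq]

theorem perp_perp (L : Submodule k (E → k)) : perp (perp L) = L := by
  symm
  apply Submodule.eq_of_le_of_finrank_eq (le_perp_perp L)
  have h1 := finrank_perp L
  have h2 := finrank_perp (perp L)
  omega

theorem perp_sup (L M : Submodule k (E → k)) : perp (L ⊔ M) = perp L ⊓ perp M := by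
  ext a
  constructor
  · intro h
    exact ⟨fun y hy => h y (Submodule.mem_sup_left hy), fun y hy => h y (Submodule.mem_sup_right hy)⟩
  · rintro ⟨h1, h2⟩ y hy
    obtain ⟨y1, hy1, y2, hy2, rfl⟩ := Submodule.mem_sup.1 hy
    simp only [Pi.add_apply, mul_add, Finset.sum_add_distrib, h1 y1 hy1, h2 y2 hy2, add_zero]

theorem perp_inf (L M : Submodule k (E → k)) : perp (L ⊓ M) = perp L ⊔ perp M := by
  rw [← perp_perp (perp L ⊔ perp M), perp_sup, perp_perp, perp_perp]

/-- The vectors supported on a set. -/
def supp (k : Type) [Field k] {E : Type} [Fintype E] (A : Set E) : Submodule k (E → k) where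
  carrier := {b | ∀ i, i ∉ A → b i = 0}
  add_mem' := by
    intro a b ha hb i hi
    simp [ha i hi, hb i hi]
  zero_mem' := by
    intro i _
    rfl
  smul_mem' := by
    intro c a ha i hi
    simp [ha i hi]

/-- The vectors vanishing on a set. -/
def van (k : Type) [Field k] {E : Type} [Fintype E] (A : Set E) : Submodule k (E → k) where
  carrier := {b | ∀ i ∈ A, b i = 0}
  add_mem' := by
    intro a b ha hb i hi
    simp [ha i hi, hb i hi]
  zero_mem' := by
    intro i _
    rfl
  smul_mem' := by
    intro c a ha i hi
    simp [ha i hi]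

theorem mem_supp {A : Set E} {b : E → k} : b ∈ supp k A ↔ ∀ i, i ∉ A → b i = 0 := Iff.rfl

theorem mem_van {A : Set E} {b : E → k} : b ∈ van k A ↔ ∀ i ∈ A, b i = 0 := Iff.rfl

theorem perp_supp (A : Set E) : perp (supp k A) = van k A := by
  classical
  ext a
  constructor
  · intro h i hi
    have := h (Pi.single i 1) (by
      intro j hj
      rw [Pi.single_apply, if_neg]
      rintro rfl
      exact hj hi)
    simpa [Pi.single_apply] using this
  · intro h y hy
    apply Finset.sum_eq_zero
    intro i _
    by_cases hi : i ∈ A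
    · rw [h i hi, zero_mul]
    · rw [hy i hi, mul_zero]

theorem perp_van (A : Set E) : perp (van k A) = supp k A := by
  rw [← perp_supp, perp_perp]

/-- A functional vanishing on the part of `L` vanishing on `A` comes from `A` modulo `L`. -/
theorem exists_sub_mem_perp (L : Submodule k (E → k)) (A : Set E) (a : E → k)
    (h : ∀ y ∈ L, (∀ i ∈ A, y i = 0) → ∑ i, a i * y i = 0) :
    ∃ b : E → k, (∀ i, i ∉ A → b i = 0) ∧ a - b ∈ perp L := by
  have h1 : a ∈ perp (L ⊓ van k A) := fun y hy => h y hy.1 hy.2
  rw [perp_inf, perp_van] at h1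
  obtain ⟨a', ha', b, hb, rfl⟩ := Submodule.mem_sup.1 h1
  exact ⟨b, hb, by simpa using ha'⟩

/-- The linear relations `N` hold for the vector `x`. -/
def Rel (N : Submodule k (E → k)) {T : Type} [CommRing T] (c : k →+* T) (x : E → T) : Prop :=
  ∀ a ∈ N, ∑ i, c (a i) * x i = 0

theorem Rel.mono {N N' : Submodule k (E → k)} (h : N ≤ N') {T : Type} [CommRing T]
    {c : k →+* T} {x : E → T} (hx : Rel N' c x) : Rel N c x :=
  fun a ha => hx a (h ha)

theorem Rel.map {N : Submodule k (E → k)} {T T' : Type} [CommRing T] [CommRing T']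
    {c : k →+* T} {x : E → T} (hx : Rel N c x) (f : T →+* T') :
    Rel N (f.comp c) (fun i => f (x i)) := by
  intro a ha
  have := congrArg f (hx a ha)
  simpa [map_sum, map_mul] using this

theorem Rel.smul {N : Submodule k (E → k)} {T : Type} [CommRing T]
    {c : k →+* T} {x : E → T} (hx : Rel N c x) (t : T) :
    Rel N c (fun i => t * x i) := by
  intro a ha
  have : ∑ i, c (a i) * (t * x i) = t * ∑ i, c (a i) * x i := by
    rw [Finset.mul_sum]
    exact Finset.sum_congr rfl fun i _ => by ring
  rw [this, hx a ha, mul_zero]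

/-- A basis `b` of `N` together with functionals `p` giving the coordinates. -/
structure Param (N : Submodule k (E → k)) where
  b : Fin (finrank k N) → E → k
  p : Fin (finrank k N) → E → k
  hb : ∀ j, b j ∈ N
  hpb : ∀ j l, ∑ i, p j i * b l i = if j = l then 1 else 0
  hperp : ∀ i, ((fun l => ∑ j, b j i * p j l) - fun l => by classical exact if l = i then 1 else 0)
    ∈ perp N

theorem exists_param (N : Submodule k (E → k)) : Nonempty (Param N) := by
  classical
  obtain ⟨π, hπ⟩ := N.subtype.exists_leftInverse_of_injective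
    (Submodule.ker_subtype N)
  let B := finBasis k N
  have hsum : ∀ (y : E → k) (j : Fin (finrank k N)),
      ∑ i, (B.repr (π (Pi.single i 1)) j) * y i = B.repr (π y) j := by
    intro y j
    have h1 : y = ∑ i, y i • (Pi.single i 1 : E → k) := by
      ext l
      simp [Finset.sum_apply, Pi.single_apply]
    conv_rhs => rw [h1]
    simp only [map_sum, map_smul, Finsupp.coe_finsetSum, Finset.sum_apply, Finsupp.smul_apply,
      smul_eq_mul]
    exact Finset.sum_congr rfl fun i _ => mul_comm _ _
  have hid : ∀ y : N, π (y : E → k) = y := fun y => by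
    have := LinearMap.congr_fun hπ y
    simpa using this
  refine ⟨⟨fun j => (B j : E → k), fun j i => B.repr (π (Pi.single i 1)) j, fun j => (B j).2, ?_,
    ?_⟩⟩
  · intro j l
    rw [hsum, hid, Basis.repr_self, Finsupp.single_apply]
    simp [eq_comm]
  · intro i y hy
    have h2 : ∑ j, B.repr ⟨y, hy⟩ j • (B j : E → k) = y := by
      have h := congrArg N.subtype (B.sum_repr ⟨y, hy⟩)
      simp only [map_sum, map_smul, Submodule.subtype_apply] at h
      exact h
    have h3 : ∑ l, (∑ j, (B j : E → k) i * (B.repr (π (Pi.single l 1))) j) * y l = y i := by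
      have h4 : ∀ l, (∑ j, (B j : E → k) i * (B.repr (π (Pi.single l 1))) j) * y l =
          ∑ j, (B j : E → k) i * ((B.repr (π (Pi.single l 1))) j * y l) := by
        intro l
        rw [Finset.sum_mul]
        exact Finset.sum_congr rfl fun j _ => by ring
      rw [Finset.sum_congr rfl fun l _ => h4 l, Finset.sum_comm]
      simp only [← Finset.mul_sum, hsum]
      have h5 : π y = ⟨y, hy⟩ := hid ⟨y, hy⟩
      rw [h5]
      conv_rhs => rw [← h2]
      simp [Finset.sum_apply, mul_comm]
    simp only [Pi.sub_apply, sub_mul, Finset.sum_sub_distrib, h3]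
    simp

namespace Param

variable {N : Submodule k (E → k)} (P : Param N)

theorem eq_of_rel {T : Type} [CommRing T] {c : k →+* T} {x : E → T} (hx : Rel (perp N) c x)
    (i : E) : x i = ∑ j, c (P.b j i) * ∑ l, c (P.p j l) * x l := by
  classical
  have h := hx _ (P.hperp i)
  simp only [Pi.sub_apply, map_sub, sub_mul, Finset.sum_sub_distrib, map_sum, map_mul] at h
  have h2 : ∑ l, c (if l = i then 1 else 0) * x l = x i := by
    rw [Finset.sum_eq_single i]
    · simp
    · intro l _ hl
      simp [hl]
    · simp
  rw [h2, sub_eq_zero] at h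
  rw [← h]
  simp only [Finset.sum_mul, Finset.mul_sum]
  rw [Finset.sum_comm]
  exact Finset.sum_congr rfl fun j _ => Finset.sum_congr rfl fun l _ => by ring

theorem rel {T : Type} [CommRing T] (c : k →+* T) (z : Fin (finrank k N) → T) :
    Rel (perp N) c (fun i => ∑ j, c (P.b j i) * z j) := by
  intro a ha
  have : ∑ i, c (a i) * ∑ j, c (P.b j i) * z j = ∑ j, c (∑ i, a i * P.b j i) * z j := by
    simp only [Finset.mul_sum, map_sum, Finset.sum_mul, map_mul]
    rw [Finset.sum_comm]
    exact Finset.sum_congr rfl fun j _ => Finset.sum_congr rfl fun l _ => by ring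
  rw [this]
  apply Finset.sum_eq_zero
  intro j _
  rw [ha _ (P.hb j), map_zero, zero_mul]

theorem coord {T : Type} [CommRing T] (c : k →+* T) (z : Fin (finrank k N) → T)
    (j : Fin (finrank k N)) :
    ∑ i, c (P.p j i) * (∑ l, c (P.b l i) * z l) = z j := by
  have : ∑ i, c (P.p j i) * (∑ l, c (P.b l i) * z l) = ∑ l, c (∑ i, P.p j i * P.b l i) * z l := by
    simp only [Finset.mul_sum, map_sum, Finset.sum_mul, map_mul]
    rw [Finset.sum_comm]
    exact Finset.sum_congr rfl fun j _ => Finset.sum_congr rfl fun l _ => by ring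
  rw [this, Finset.sum_eq_single j]
  · rw [P.hpb]
    simp
  · intro l _ hl
    rw [P.hpb, if_neg (Ne.symm hl), map_zero, zero_mul]
  · simp

end Param

/-- Extension of scalars preserves the pairing. -/
theorem pairing {L : Submodule k (E → k)} {T : Type} [CommRing T] {c : k →+* T} {x v : E → T}
    (hx : Rel (perp L) c x) (hv : Rel L c v) : ∑ i, v i * x i = 0 := by
  obtain ⟨P⟩ := exists_param L
  have h1 : ∑ i, v i * x i = ∑ j, (∑ i, c (P.b j i) * v i) * (∑ l, c (P.p j l) * x l) := by
    have : ∀ i, v i * x i = ∑ j, (c (P.b j i) * v i) * (∑ l, c (P.p j l) * x l) := by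
      intro i
      conv_lhs => rw [P.eq_of_rel hx i]
      rw [Finset.mul_sum]
      exact Finset.sum_congr rfl fun j _ => by ring
    rw [Finset.sum_congr rfl fun i _ => this i, Finset.sum_comm]
    exact Finset.sum_congr rfl fun j _ => by rw [Finset.sum_mul]
  rw [h1]
  apply Finset.sum_eq_zero
  intro j _
  rw [hv _ (P.hb j), zero_mul]

end Pool.Agent.Y214.RD
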