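import Mathlib
import Pool.Agent.Y214.RD.Lin

/-!
The universal algebra of the system `x ∈ L`, `v ∈ L^⊥`, `x_e = τ_e`, `x_i^2 v_i = τ_i`.
-/

set_option autoImplicit false

namespace Pool.Agent.Y214.RD

open Module

variable {k : Type} [Field k] {E : Type} [Fintype E] [DecidableEq E]

/-- Solutions of the system. -/
structure Sol (L : Submodule k (E → k)) (e : E) {T : Type} [CommRing T] (c : k →+* T)
    (τ x v : E → T) : Prop where
  rx : Rel (perp L) c x
  rv : Rel L c v
  he : x e = τ e
  hu : ∀ i, i ≠ e → x i ^ 2 * v i = τ i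

theorem Sol.map {L : Submodule k (E → k)} {e : E} {T T' : Type} [CommRing T] [CommRing T']
    {c : k →+* T} {τ x v : E → T} (h : Sol L e c τ x v) (g : T →+* T') :
    Sol L e (g.comp c) (fun i => g (τ i)) (fun i => g (x i)) (fun i => g (v i)) where
  rx := h.rx.map g
  rv := h.rv.map g
  he := by rw [h.he]
  hu i hi := by rw [← h.hu i hi, map_mul, map_pow]

/-- A universal solution over the base ring `R`. -/
structure IsU (L : Submodule k (E → k)) (e : E) {R T : Type} [CommRing R] [CommRing T]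
    (c : k →+* R) (τ : E → R) (ρ : R →+* T) (x v : E → T) : Prop where
  sol : Sol L e (ρ.comp c) (fun i => ρ (τ i)) x v
  ex : ∀ (T' : Type) [CommRing T'] (ρ' : R →+* T') (x' v' : E → T'),
    Sol L e (ρ'.comp c) (fun i => ρ' (τ i)) x' v' →
    ∃ φ : T →+* T', φ.comp ρ = ρ' ∧ (∀ i, φ (x i) = x' i) ∧ ∀ i, φ (v i) = v' i
  uniq : ∀ (T' : Type) [CommRing T'] (φ ψ : T →+* T'), φ.comp ρ = ψ.comp ρ →
    (∀ i, φ (x i) = ψ (x i)) → (∀ i, φ (v i) = ψ (v i)) → φ = ψ

theorem IsU.equiv {L : Submodule k (E → k)} {e : E} {R T T' : Type} [CommRing R] [CommRing T]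
    [CommRing T'] {c : k →+* R} {τ : E → R} {ρ : R →+* T} {ρ' : R →+* T'} {x v : E → T}
    {x' v' : E → T'} (h : IsU L e c τ ρ x v) (h' : IsU L e c τ ρ' x' v') :
    ∃ ε : T ≃+* T', (ε : T →+* T').comp ρ = ρ' := by
  obtain ⟨φ, hφ, hφx, hφv⟩ := h.ex T' ρ' x' v' h'.sol
  obtain ⟨ψ, hψ, hψx, hψv⟩ := h'.ex T ρ x v h.sol
  have h1 : ψ.comp φ = RingHom.id T := by
    apply h.uniq
    · rw [RingHom.comp_assoc, hφ, hψ, RingHom.id_comp]
    · intro i
      simp [hφx, hψx]
    · intro i
      simp [hφv, hψv]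
  have h2 : φ.comp ψ = RingHom.id T' := by
    apply h'.uniq
    · rw [RingHom.comp_assoc, hψ, hφ, RingHom.id_comp]
    · intro i
      simp [hφx, hψx]
    · intro i
      simp [hφv, hψv]
  exact ⟨RingEquiv.ofRingHom φ ψ h2 h1, hφ⟩

theorem IsU.finrank_eq {L : Submodule k (E → k)} {e : E} {R T T' : Type} [CommRing R] [CommRing T]
    [CommRing T'] [Algebra R T] [Algebra R T'] {c : k →+* R} {τ : E → R} {x v : E → T}
    {x' v' : E → T'} (h : IsU L e c τ (algebraMap R T) x v)
    (h' : IsU L e c τ (algebraMap R T') x' v') :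
    finrank R T = finrank R T' ∧ (Module.Finite R T → Module.Finite R T') := by
  obtain ⟨ε, hε⟩ := h.equiv h'
  let ε' : T ≃ₐ[R] T' := AlgEquiv.ofRingEquiv (f := ε) (fun r => by
    exact RingHom.congr_fun hε r)
  exact ⟨ε'.toLinearEquiv.finrank_eq, fun _ => Module.Finite.equiv ε'.toLinearEquiv⟩

open TensorProduct in
theorem IsU.baseChange {L : Submodule k (E → k)} {e : E} {R T R' : Type} [CommRing R] [CommRing T]
    [CommRing R'] [Algebra R T] [Algebra R R'] {c : k →+* R} {τ : E → R} {x v : E → T}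
    (h : IsU L e c τ (algebraMap R T) x v) :
    IsU L e ((algebraMap R R').comp c) (fun i => algebraMap R R' (τ i))
      (algebraMap R' (R' ⊗[R] T)) (fun i => (1 : R') ⊗ₜ[R] x i) (fun i => (1 : R') ⊗ₜ[R] v i) := by
  let iT : T →+* R' ⊗[R] T :=
    (Algebra.TensorProduct.includeRight : T →ₐ[R] R' ⊗[R] T).toRingHom
  have hiT : iT.comp (algebraMap R T) = (algebraMap R' (R' ⊗[R] T)).comp (algebraMap R R') := by
    ext r
    have h1 : iT (algebraMap R T r) = algebraMap R (R' ⊗[R] T) r :=
      (Algebra.TensorProduct.includeRight : T →ₐ[R] R' ⊗[R] T).commutes r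
    have h2 : algebraMap R' (R' ⊗[R] T) (algebraMap R R' r) = algebraMap R (R' ⊗[R] T) r :=
      (IsScalarTower.algebraMap_apply R R' (R' ⊗[R] T) r).symm
    simp only [RingHom.comp_apply, h1, h2]
  refine ⟨?_, ?_, ?_⟩
  · have h1 := h.sol.map iT
    rw [← RingHom.comp_assoc, hiT] at h1
    have h2 : (fun i => iT (algebraMap R T (τ i))) =
        fun i => algebraMap R' (R' ⊗[R] T) (algebraMap R R' (τ i)) :=
      funext fun i => RingHom.congr_fun hiT (τ i)
    rw [h2] at h1
    exact h1
  · intro T' _ ρ' x' v' h'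
    obtain ⟨φ0, hφ0, hφx, hφv⟩ := h.ex T' (ρ'.comp (algebraMap R R')) x' v' h'
    let _ : Algebra R' T' := ρ'.toAlgebra
    let _ : Algebra R T' := (ρ'.comp (algebraMap R R')).toAlgebra
    have : IsScalarTower R R' T' := IsScalarTower.of_algebraMap_eq fun r => rfl
    let φ1 : T →ₐ[R] T' := { φ0 with commutes' := fun r => RingHom.congr_fun hφ0 r }
    let φ : R' ⊗[R] T →ₐ[R'] T' :=
      Algebra.TensorProduct.lift (Algebra.ofId R' T') φ1 fun _ _ => Commute.all _ _
    refine ⟨φ.toRingHom, ?_, ?_, ?_⟩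
    · ext r
      exact φ.commutes r
    · intro i
      show φ ((1 : R') ⊗ₜ[R] x i) = x' i
      rw [Algebra.TensorProduct.lift_tmul, map_one, one_mul]
      exact hφx i
    · intro i
      show φ ((1 : R') ⊗ₜ[R] v i) = v' i
      rw [Algebra.TensorProduct.lift_tmul, map_one, one_mul]
      exact hφv i
  · intro T' _ φ ψ hρ hx hv
    have h1 : φ.comp iT = ψ.comp iT := by
      apply h.uniq
      · rw [RingHom.comp_assoc, RingHom.comp_assoc, hiT, ← RingHom.comp_assoc, hρ,
          RingHom.comp_assoc]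
      · exact hx
      · exact hv
    refine RingHom.ext fun z => ?_
    induction z using TensorProduct.induction_on with
    | zero => rw [map_zero, map_zero]
    | add a b ha hb => rw [map_add, map_add, ha, hb]
    | tmul a t =>
      have h2 : a ⊗ₜ[R] t = algebraMap R' (R' ⊗[R] T) a * iT t := by
        show a ⊗ₜ[R] t = (a ⊗ₜ[R] (1 : T)) * ((1 : R') ⊗ₜ[R] t)
        rw [Algebra.TensorProduct.tmul_mul_tmul, mul_one, one_mul]
      rw [h2, map_mul, map_mul]
      have h3 := RingHom.congr_fun hρ a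
      have h4 := RingHom.congr_fun h1 t
      simp only [RingHom.comp_apply] at h3 h4
      rw [h3, h4]

/-- Deletion of an element. -/
def del (L : Submodule k (E → k)) (f : E) : Submodule k ({i // i ≠ f} → k) :=
  L.map (LinearMap.funLeft k k (Subtype.val : {i // i ≠ f} → E))

/-- Contraction of an element. -/
def con (L : Submodule k (E → k)) (f : E) : Submodule k ({i // i ≠ f} → k) :=
  (L ⊓ van k {f}).map (LinearMap.funLeft k k (Subtype.val : {i // i ≠ f} → E))

theorem mem_perp_del {L : Submodule k (E → k)} {f : E} {a : E → k} (ha : a ∈ perp L)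
    (haf : a f = 0) : (fun i : {i // i ≠ f} => a i) ∈ perp (del L f) := by
  rintro _ ⟨y, hy, rfl⟩
  have h := ha y hy
  rw [Fintype.sum_eq_add_sum_subtype_ne _ f, haf, zero_mul, zero_add] at h
  exact h

theorem mem_perp_con {L : Submodule k (E → k)} {f : E} {a : E → k} (ha : a ∈ perp L) :
    (fun i : {i // i ≠ f} => a i) ∈ perp (con L f) := by
  rintro _ ⟨y, ⟨hy, hyf⟩, rfl⟩
  have h := ha y hy
  rw [Fintype.sum_eq_add_sum_subtype_ne _ f, hyf f rfl, mul_zero, zero_add] at h
  exact h

/-- Extension by zero. -/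
def ext0 (f : E) (a : {i // i ≠ f} → k) : E → k := fun i => if h : i ≠ f then a ⟨i, h⟩ else 0

theorem ext0_self (f : E) (a : {i // i ≠ f} → k) : ext0 f a f = 0 := by simp [ext0]

theorem ext0_coe (f : E) (a : {i // i ≠ f} → k) (i : {i // i ≠ f}) : ext0 f a i = a i := by
  simp [ext0, i.2]

theorem ext0_mem_perp {L : Submodule k (E → k)} {f : E} {a : {i // i ≠ f} → k}
    (ha : a ∈ perp (del L f)) : ext0 f a ∈ perp L := by
  intro y hy
  rw [Fintype.sum_eq_add_sum_subtype_ne _ f, ext0_self, zero_mul, zero_add]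
  have := ha _ ⟨y, hy, rfl⟩
  simpa [ext0_coe] using this

theorem IsU.del {L : Submodule k (E → k)} {e f : E} (hef : e ≠ f) {R T : Type} [CommRing R]
    [CommRing T] {c : k →+* R} {τ : E → R} {ρ : R →+* T} {x v : E → T}
    (h : IsU L e c τ ρ x v) (hnc : ∃ a ∈ perp L, a f ≠ 0) (I : Ideal R)
    (hI : I = Ideal.span {τ f}) (ρC : R ⧸ I →+* T ⧸ Ideal.span {v f})
    (hρC : ρC.comp (Ideal.Quotient.mk I) = (Ideal.Quotient.mk _).comp ρ) :
    IsU (del L f) ⟨e, hef⟩ ((Ideal.Quotient.mk I).comp c)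
      (fun i => Ideal.Quotient.mk I (τ i)) ρC
      (fun i => Ideal.Quotient.mk _ (x i)) (fun i => Ideal.Quotient.mk _ (v i)) := by
  obtain ⟨a, ha, haf⟩ := hnc
  have hmk : ∀ r, ρC (Ideal.Quotient.mk I r) = Ideal.Quotient.mk (Ideal.span {v f}) (ρ r) :=
    fun r => RingHom.congr_fun hρC r
  have hvf : Ideal.Quotient.mk (Ideal.span {v f}) (v f) = 0 :=
    Ideal.Quotient.eq_zero_iff_mem.2 (Ideal.mem_span_singleton_self _)
  have hτf : Ideal.Quotient.mk I (τ f) = 0 :=
    Ideal.Quotient.eq_zero_iff_mem.2 (hI ▸ Ideal.mem_span_singleton_self _)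
  refine ⟨⟨?_, ?_, ?_, ?_⟩, ?_, ?_⟩
  · intro b hb
    have h1 := h.sol.rx _ (ext0_mem_perp hb)
    rw [Fintype.sum_eq_add_sum_subtype_ne _ f, ext0_self, map_zero, zero_mul, zero_add] at h1
    have h2 := congrArg (Ideal.Quotient.mk (Ideal.span {v f})) h1
    simpa [map_sum, ext0_coe, hmk] using h2
  · rintro _ ⟨y, hy, rfl⟩
    have h1 := congrArg (Ideal.Quotient.mk (Ideal.span {v f})) (h.sol.rv y hy)
    rw [Fintype.sum_eq_add_sum_subtype_ne _ f, map_add, map_mul, hvf, mul_zero, zero_add] at h1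
    simpa [map_sum, hmk] using h1
  · show Ideal.Quotient.mk _ (x e) = ρC (Ideal.Quotient.mk I (τ e))
    rw [hmk, h.sol.he]
  · intro i hi
    rw [hmk, ← map_pow, ← map_mul, h.sol.hu i (fun h' => hi (Subtype.ext h'))]
  · intro T' _ ρ' x' v' h'
    let X : E → T' := fun i => if hi : i ≠ f then x' ⟨i, hi⟩ else
      - ∑ j : {i // i ≠ f}, ρ' (Ideal.Quotient.mk I (c (a j / a f))) * x' j
    let W : E → T' := fun i => if hi : i ≠ f then v' ⟨i, hi⟩ else 0
    have hXf : X f = - ∑ j : {i // i ≠ f}, ρ' (Ideal.Quotient.mk I (c (a j / a f))) * x' j := by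
      simp [X]
    have hWf : W f = 0 := by simp [W]
    have hX : ∀ i : {i // i ≠ f}, X i = x' i := fun i => by simp [X, i.2]
    have hW : ∀ i : {i // i ≠ f}, W i = v' i := fun i => by simp [W, i.2]
    have hsol : Sol L e ((ρ'.comp (Ideal.Quotient.mk I)).comp c)
        (fun i => (ρ'.comp (Ideal.Quotient.mk I)) (τ i)) X W := by
      refine ⟨?_, ?_, ?_, ?_⟩
      · intro b hb
        have h1 : b - (b f / a f) • a ∈ perp L :=
          Submodule.sub_mem _ hb (Submodule.smul_mem _ _ ha)
        have h2 := h'.rx _ (mem_perp_del h1 (by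
          simp only [Pi.sub_apply, Pi.smul_apply, smul_eq_mul]
          field_simp
          ring))
        rw [Fintype.sum_eq_add_sum_subtype_ne _ f, hXf]
        rw [← h2, mul_neg, Finset.mul_sum, ← Finset.sum_neg_distrib, ← Finset.sum_add_distrib]
        apply Finset.sum_congr rfl
        intro i _
        rw [hX]
        simp only [RingHom.comp_apply, Pi.sub_apply, Pi.smul_apply, smul_eq_mul, map_sub, map_mul,
          div_eq_mul_inv]
        ring
      · intro y hy
        have h2 := h'.rv _ ⟨y, hy, rfl⟩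
        rw [Fintype.sum_eq_add_sum_subtype_ne _ f, hWf, mul_zero, zero_add, ← h2]
        apply Finset.sum_congr rfl
        intro i _
        rw [hW]
        rfl
      · have := h'.he
        rw [← hX] at this
        exact this
      · intro i hi
        by_cases hif : i = f
        · subst hif
          rw [hWf, mul_zero, RingHom.comp_apply, hτf, map_zero]
        · have := h'.hu ⟨i, hif⟩ (fun h'' => hi (congrArg (fun z : {i // i ≠ f} => (z : E)) h''))
          rw [← hX, ← hW] at this
          exact this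
    obtain ⟨φ, hφ, hφx, hφv⟩ := h.ex T' _ X W hsol
    let φ' : T ⧸ Ideal.span {v f} →+* T' := Ideal.Quotient.lift _ φ (by
      intro t ht
      obtain ⟨s, rfl⟩ := Ideal.mem_span_singleton'.1 ht
      rw [map_mul, hφv, hWf, mul_zero])
    refine ⟨φ', ?_, ?_, ?_⟩
    · apply Ideal.Quotient.ringHom_ext
      rw [RingHom.comp_assoc, hρC, ← hφ]
      rfl
    · intro i
      show φ (x i) = x' i
      rw [hφx, hX]
    · intro i
      show φ (v i) = v' i
      rw [hφv, hW]
  · intro T' _ φ ψ hρ hx hv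
    apply Ideal.Quotient.ringHom_ext
    have hρ' : ∀ r, φ (Ideal.Quotient.mk _ (ρ r)) = ψ (Ideal.Quotient.mk _ (ρ r)) := by
      intro r
      rw [← hmk]
      exact RingHom.congr_fun hρ _
    apply h.uniq
    · ext r
      exact hρ' r
    · intro i
      by_cases hif : i = f
      · subst hif
        have h1 := h.sol.rx a ha
        rw [Fintype.sum_eq_add_sum_subtype_ne _ i] at h1
        have h2 := congrArg (fun z => φ (Ideal.Quotient.mk _ z)) h1
        have h3 := congrArg (fun z => ψ (Ideal.Quotient.mk _ z)) h1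
        simp only [map_add, map_mul, map_sum, map_zero, RingHom.comp_apply, hρ', hx] at h2 h3
        have h4 : ψ (Ideal.Quotient.mk _ (ρ (c (a i)))) *
            ((φ (Ideal.Quotient.mk _ (x i)) - ψ (Ideal.Quotient.mk _ (x i)))) = 0 := by
          rw [mul_sub]
          linear_combination h2 - h3
        have h5 : ψ (Ideal.Quotient.mk (Ideal.span {v i}) (ρ (c (a i)⁻¹))) *
            ψ (Ideal.Quotient.mk _ (ρ (c (a i)))) = 1 := by
          rw [← map_mul, ← map_mul, ← map_mul, ← map_mul, inv_mul_cancel₀ haf, map_one, map_one,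
            map_one, map_one]
        have h6 : φ (Ideal.Quotient.mk _ (x i)) - ψ (Ideal.Quotient.mk _ (x i)) = 0 := by
          linear_combination ψ (Ideal.Quotient.mk (Ideal.span {v i}) (ρ (c (a i)⁻¹))) * h4 -
            (φ (Ideal.Quotient.mk _ (x i)) - ψ (Ideal.Quotient.mk _ (x i))) * h5
        exact sub_eq_zero.1 h6
      · exact hx ⟨i, hif⟩
    · intro i
      by_cases hif : i = f
      · subst hif
        rw [RingHom.comp_apply, RingHom.comp_apply, hvf, map_zero, map_zero]
      · exact hv ⟨i, hif⟩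

theorem IsU.con {L : Submodule k (E → k)} {e f : E} (hef : e ≠ f) {R T : Type} [CommRing R]
    [CommRing T] {c : k →+* R} {τ : E → R} {ρ : R →+* T} {x v : E → T}
    (h : IsU L e c τ ρ x v) (hnl : ∃ a ∈ L, a f ≠ 0) (I : Ideal R)
    (hI : I = Ideal.span {τ f}) (ρC : R ⧸ I →+* T ⧸ Ideal.span {x f})
    (hρC : ρC.comp (Ideal.Quotient.mk I) = (Ideal.Quotient.mk _).comp ρ) :
    IsU (con L f) ⟨e, hef⟩ ((Ideal.Quotient.mk I).comp c)
      (fun i => Ideal.Quotient.mk I (τ i)) ρC
      (fun i => Ideal.Quotient.mk _ (x i)) (fun i => Ideal.Quotient.mk _ (v i)) := by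
  obtain ⟨a, ha, haf⟩ := hnl
  have hmk : ∀ r, ρC (Ideal.Quotient.mk I r) = Ideal.Quotient.mk (Ideal.span {x f}) (ρ r) :=
    fun r => RingHom.congr_fun hρC r
  have hxf : Ideal.Quotient.mk (Ideal.span {x f}) (x f) = 0 :=
    Ideal.Quotient.eq_zero_iff_mem.2 (Ideal.mem_span_singleton_self _)
  have hτf : Ideal.Quotient.mk I (τ f) = 0 :=
    Ideal.Quotient.eq_zero_iff_mem.2 (hI ▸ Ideal.mem_span_singleton_self _)
  refine ⟨⟨?_, ?_, ?_, ?_⟩, ?_, ?_⟩
  · intro b hb
    obtain ⟨d, hd, hbd⟩ := exists_sub_mem_perp L {f} (ext0 f b) (by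
      intro y hy hyf
      rw [Fintype.sum_eq_add_sum_subtype_ne _ f, ext0_self, zero_mul, zero_add]
      have := hb _ ⟨y, ⟨hy, hyf⟩, rfl⟩
      simpa [ext0_coe] using this)
    have h1 := congrArg (Ideal.Quotient.mk (Ideal.span {x f})) (h.sol.rx _ hbd)
    rw [Fintype.sum_eq_add_sum_subtype_ne _ f, map_add, map_mul, hxf, mul_zero, zero_add,
      map_sum, map_zero] at h1
    rw [← h1]
    apply Finset.sum_congr rfl
    intro i _
    rw [Pi.sub_apply, ext0_coe, hd i (by simpa using i.2), sub_zero, map_mul]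
    congr 1
    exact hmk _
  · rintro _ ⟨y, ⟨hy, hyf⟩, rfl⟩
    have h1 := congrArg (Ideal.Quotient.mk (Ideal.span {x f})) (h.sol.rv y hy)
    rw [Fintype.sum_eq_add_sum_subtype_ne _ f, hyf f rfl, map_zero, zero_mul, zero_add] at h1
    simpa [map_sum, hmk] using h1
  · show Ideal.Quotient.mk _ (x e) = ρC (Ideal.Quotient.mk I (τ e))
    rw [hmk, h.sol.he]
  · intro i hi
    rw [hmk, ← map_pow, ← map_mul, h.sol.hu i (fun h' => hi (Subtype.ext h'))]
  · intro T' _ ρ' x' v' h'
    let X : E → T' := fun i => if hi : i ≠ f then x' ⟨i, hi⟩ else 0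
    let W : E → T' := fun i => if hi : i ≠ f then v' ⟨i, hi⟩ else
      - ∑ j : {i // i ≠ f}, ρ' (Ideal.Quotient.mk I (c (a j / a f))) * v' j
    have hWf : W f = - ∑ j : {i // i ≠ f}, ρ' (Ideal.Quotient.mk I (c (a j / a f))) * v' j := by
      simp [W]
    have hXf : X f = 0 := by simp [X]
    have hX : ∀ i : {i // i ≠ f}, X i = x' i := fun i => by simp [X, i.2]
    have hW : ∀ i : {i // i ≠ f}, W i = v' i := fun i => by simp [W, i.2]
    have hsol : Sol L e ((ρ'.comp (Ideal.Quotient.mk I)).comp c)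
        (fun i => (ρ'.comp (Ideal.Quotient.mk I)) (τ i)) X W := by
      refine ⟨?_, ?_, ?_, ?_⟩
      · intro b hb
        have h2 := h'.rx _ (mem_perp_con hb)
        rw [Fintype.sum_eq_add_sum_subtype_ne _ f, hXf, mul_zero, zero_add, ← h2]
        apply Finset.sum_congr rfl
        intro i _
        rw [hX]
        rfl
      · intro b hb
        have h1 : b - (b f / a f) • a ∈ L :=
          Submodule.sub_mem _ hb (Submodule.smul_mem _ _ ha)
        have h2 := h'.rv _ ⟨_, ⟨h1, by
          rintro _ rfl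
          simp only [Pi.sub_apply, Pi.smul_apply, smul_eq_mul]
          field_simp
          ring⟩, rfl⟩
        rw [Fintype.sum_eq_add_sum_subtype_ne _ f, hWf]
        rw [← h2, mul_neg, Finset.mul_sum, ← Finset.sum_neg_distrib, ← Finset.sum_add_distrib]
        apply Finset.sum_congr rfl
        intro i _
        rw [hW]
        simp only [RingHom.comp_apply, LinearMap.funLeft_apply, Pi.sub_apply, Pi.smul_apply,
          smul_eq_mul, map_sub, map_mul, div_eq_mul_inv]
        ring
      · have := h'.he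
        rw [← hX] at this
        exact this
      · intro i hi
        by_cases hif : i = f
        · subst hif
          rw [hXf, zero_pow two_ne_zero, zero_mul, RingHom.comp_apply, hτf, map_zero]
        · have := h'.hu ⟨i, hif⟩ (fun h'' => hi (congrArg (fun z : {i // i ≠ f} => (z : E)) h''))
          rw [← hX, ← hW] at this
          exact this
    obtain ⟨φ, hφ, hφx, hφv⟩ := h.ex T' _ X W hsol
    let φ' : T ⧸ Ideal.span {x f} →+* T' := Ideal.Quotient.lift _ φ (by
      intro t ht
      obtain ⟨s, rfl⟩ := Ideal.mem_span_singleton'.1 ht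
      rw [map_mul, hφx, hXf, mul_zero])
    refine ⟨φ', ?_, ?_, ?_⟩
    · apply Ideal.Quotient.ringHom_ext
      rw [RingHom.comp_assoc, hρC, ← hφ]
      rfl
    · intro i
      show φ (x i) = x' i
      rw [hφx, hX]
    · intro i
      show φ (v i) = v' i
      rw [hφv, hW]
  · intro T' _ φ ψ hρ hx hv
    apply Ideal.Quotient.ringHom_ext
    have hρ' : ∀ r, φ (Ideal.Quotient.mk _ (ρ r)) = ψ (Ideal.Quotient.mk _ (ρ r)) := by
      intro r
      rw [← hmk]
      exact RingHom.congr_fun hρ _
    apply h.uniq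
    · ext r
      exact hρ' r
    · intro i
      by_cases hif : i = f
      · subst hif
        rw [RingHom.comp_apply, RingHom.comp_apply, hxf, map_zero, map_zero]
      · exact hx ⟨i, hif⟩
    · intro i
      by_cases hif : i = f
      · subst hif
        have h1 := h.sol.rv a ha
        rw [Fintype.sum_eq_add_sum_subtype_ne _ i] at h1
        have h2 := congrArg (fun z => φ (Ideal.Quotient.mk _ z)) h1
        have h3 := congrArg (fun z => ψ (Ideal.Quotient.mk _ z)) h1
        simp only [map_add, map_mul, map_sum, map_zero, RingHom.comp_apply, hρ', hv] at h2 h3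
        have h4 : ψ (Ideal.Quotient.mk _ (ρ (c (a i)))) *
            ((φ (Ideal.Quotient.mk _ (v i)) - ψ (Ideal.Quotient.mk _ (v i)))) = 0 := by
          rw [mul_sub]
          linear_combination h2 - h3
        have h5 : ψ (Ideal.Quotient.mk (Ideal.span {x i}) (ρ (c (a i)⁻¹))) *
            ψ (Ideal.Quotient.mk _ (ρ (c (a i)))) = 1 := by
          rw [← map_mul, ← map_mul, ← map_mul, ← map_mul, inv_mul_cancel₀ haf, map_one, map_one,
            map_one, map_one]
        have h6 : φ (Ideal.Quotient.mk _ (v i)) - ψ (Ideal.Quotient.mk _ (v i)) = 0 := by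
          linear_combination ψ (Ideal.Quotient.mk (Ideal.span {x i}) (ρ (c (a i)⁻¹))) * h4 -
            (φ (Ideal.Quotient.mk _ (v i)) - ψ (Ideal.Quotient.mk _ (v i))) * h5
        exact sub_eq_zero.1 h6
      · exact hv ⟨i, hif⟩

end Pool.Agent.Y214.RD
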