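import Mathlib
import Pool.Agent.Y214.RD.Univ

/-!
The alternating sum defining the beta invariant: deletion and contraction, loops and coloops,
connected matroids.
-/

set_option autoImplicit false

namespace Pool.Agent.Y214.RD

open Module

variable {k : Type} [Field k] {E : Type} [Fintype E] [DecidableEq E]

/-- The dimension of the part of `L` vanishing on `S`. -/
noncomputable def zr (L : Submodule k (E → k)) (S : Finset E) : ℕ :=
  finrank k ↥(L ⊓ van k (S : Set E))

/-- The alternating sum. -/
noncomputable def bInv (L : Submodule k (E → k)) : ℤ :=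
  ∑ S : Finset E, (-1) ^ S.card * (zr L S : ℤ)

theorem sum_finset_split (f : E) (F : Finset E → ℤ) :
    ∑ S : Finset E, F S = ∑ S : Finset {i // i ≠ f},
      (F (S.map (Function.Embedding.subtype _)) +
        F (insert f (S.map (Function.Embedding.subtype _)))) := by
  have h1 : (Finset.univ : Finset E) = insert f (Finset.univ.erase f) := by
    rw [Finset.insert_erase (Finset.mem_univ f)]
  have h2 : ∀ G : Finset E → ℤ, ∑ S ∈ (Finset.univ.erase f).powerset, G S =
      ∑ S : Finset {i // i ≠ f}, G (S.map (Function.Embedding.subtype _)) := by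
    intro G
    symm
    refine Finset.sum_nbij' (fun S => S.map (Function.Embedding.subtype _))
      (fun S => S.subtype (fun i => i ≠ f)) ?_ ?_ ?_ ?_ ?_
    · intro S _
      rw [Finset.mem_powerset]
      intro i hi
      rw [Finset.mem_map] at hi
      obtain ⟨j, _, rfl⟩ := hi
      exact Finset.mem_erase.2 ⟨j.2, Finset.mem_univ _⟩
    · intro S _
      exact Finset.mem_univ _
    · intro S _
      ext i
      simp [i.2]
    · intro S hS
      ext i
      simp only [Finset.mem_map, Finset.mem_subtype, Function.Embedding.subtype_apply]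
      constructor
      · rintro ⟨j, hj, rfl⟩
        exact hj
      · intro hi
        exact ⟨⟨i, (Finset.mem_erase.1 (Finset.mem_powerset.1 hS hi)).1⟩, hi, rfl⟩
    · intro S _
      rfl
  rw [Finset.sum_add_distrib, ← h2, ← h2 (fun S => F (insert f S))]
  rw [← Finset.sum_powerset_insert (Finset.notMem_erase f Finset.univ), ← h1,
    Finset.powerset_univ]

omit [DecidableEq E] in
theorem finrank_inf_van (U : Submodule k (E → k)) (f : E) (h : ∃ y ∈ U, y f ≠ 0) :
    finrank k ↥(U ⊓ van k {f}) + 1 = finrank k U := by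
  obtain ⟨y, hy, hyf⟩ := h
  let φ : U →ₗ[k] k := (LinearMap.proj f).comp U.subtype
  have hφ : Function.Surjective φ := by
    intro a
    refine ⟨(a / y f) • ⟨y, hy⟩, ?_⟩
    simp [φ, hyf]
  have h1 := LinearMap.finrank_range_add_finrank_ker φ
  rw [LinearMap.range_eq_top.2 hφ, finrank_top, Module.finrank_self] at h1
  have h2 : finrank k (LinearMap.ker φ) = finrank k ↥(U ⊓ van k {f}) := by
    have h3 : (LinearMap.ker φ).map U.subtype = U ⊓ van k {f} := by
      ext z
      constructor
      · rintro ⟨w, hw, rfl⟩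
        refine ⟨w.2, ?_⟩
        rintro i rfl
        exact hw
      · rintro ⟨hz, hz'⟩
        exact ⟨⟨z, hz⟩, hz' f rfl, rfl⟩
    rw [← h3]
    exact (LinearEquiv.finrank_eq (Submodule.equivMapOfInjective U.subtype
      (Submodule.injective_subtype U) (LinearMap.ker φ)))
  omega

omit [DecidableEq E] in
theorem finrank_map_of_inj {V W : Type} [AddCommGroup V] [AddCommGroup W] [Module k V] [Module k W]
    (r : V →ₗ[k] W) (U : Submodule k V) (h : ∀ y ∈ U, r y = 0 → y = 0) :
    finrank k (U.map r) = finrank k U := by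
  have h1 : Function.Injective (r.domRestrict U) := by
    rw [← LinearMap.ker_eq_bot, LinearMap.ker_eq_bot']
    intro y hy
    exact Subtype.ext (h y y.2 hy)
  rw [← LinearMap.finrank_range_of_inj h1, LinearMap.range_domRestrict]

/-- Restriction of the coordinates. -/
def res (k : Type) [Field k] {E : Type} (f : E) : (E → k) →ₗ[k] ({i // i ≠ f} → k) :=
  LinearMap.funLeft k k (Subtype.val : {i // i ≠ f} → E)

omit [Fintype E] [DecidableEq E] in
theorem res_apply (f : E) (y : E → k) (i : {i // i ≠ f}) : res k f y i = y i := rfl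

theorem res_eq_zero {f : E} {y : E → k} (h : res k f y = 0) (i : E) (hi : i ≠ f) : y i = 0 := by
  have h1 : res k f y ⟨i, hi⟩ = 0 := congrFun h ⟨i, hi⟩
  exact h1

theorem van_insert (S : Finset E) (f : E) :
    van k ((insert f S : Finset E) : Set E) = van k (S : Set E) ⊓ van k {f} := by
  ext y
  simp only [mem_van, Submodule.mem_inf, Finset.coe_insert, Set.mem_insert_iff,
    Set.mem_singleton_iff]
  constructor
  · intro h
    exact ⟨fun i hi => h i (Or.inr hi), fun i hi => h i (Or.inl hi)⟩
  · rintro ⟨h1, h2⟩ i (hi | hi)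
    · exact h2 i hi
    · exact h1 i hi

theorem inj_on_noncoloop {L : Submodule k (E → k)} {f : E} (hnc : ∃ a ∈ perp L, a f ≠ 0)
    {y : E → k} (hy : y ∈ L) (h : res k f y = 0) : y = 0 := by
  obtain ⟨a, ha, haf⟩ := hnc
  have h1 := ha y hy
  rw [Finset.sum_eq_single f] at h1
  · funext i
    by_cases hi : i = f
    · rw [hi]
      exact (mul_eq_zero.1 h1).resolve_left haf
    · exact res_eq_zero h i hi
  · intro i _ hi
    rw [res_eq_zero h i hi, mul_zero]
  · simp

theorem zr_del {L : Submodule k (E → k)} {f : E} (hnc : ∃ a ∈ perp L, a f ≠ 0)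
    (S : Finset {i // i ≠ f}) :
    zr (del L f) S = zr L (S.map (Function.Embedding.subtype _)) := by
  have h1 : del L f ⊓ van k (S : Set {i // i ≠ f}) =
      (L ⊓ van k ((S.map (Function.Embedding.subtype _) : Finset E) : Set E)).map (res k f) := by
    ext z
    constructor
    · rintro ⟨⟨y, hy, rfl⟩, hz⟩
      refine ⟨y, ⟨hy, ?_⟩, rfl⟩
      intro i hi
      simp only [Finset.coe_map, Function.Embedding.subtype_apply, Set.mem_image] at hi
      obtain ⟨j, hj, rfl⟩ := hi
      exact hz j hj
    · rintro ⟨y, ⟨hy, hy'⟩, rfl⟩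
      refine ⟨⟨y, hy, rfl⟩, ?_⟩
      intro i hi
      exact hy' i (by simpa using ⟨i.2, hi⟩)
  rw [zr, h1]
  exact finrank_map_of_inj (res k f) _ (fun y hy h => inj_on_noncoloop hnc
    (Submodule.mem_inf.1 hy).1 h)

theorem zr_con (L : Submodule k (E → k)) {f : E} (S : Finset {i // i ≠ f}) :
    zr (con L f) S = zr L (insert f (S.map (Function.Embedding.subtype _))) := by
  have h1 : con L f ⊓ van k (S : Set {i // i ≠ f}) =
      (L ⊓ van k ((insert f (S.map (Function.Embedding.subtype _)) : Finset E) : Set E)).map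
        (res k f) := by
    rw [van_insert]
    ext z
    constructor
    · rintro ⟨⟨y, ⟨hy, hyf⟩, rfl⟩, hz⟩
      refine ⟨y, ⟨hy, ?_, hyf⟩, rfl⟩
      intro i hi
      simp only [Finset.coe_map, Function.Embedding.subtype_apply, Set.mem_image] at hi
      obtain ⟨j, hj, rfl⟩ := hi
      exact hz j hj
    · rintro ⟨y, ⟨hy, hy', hyf⟩, rfl⟩
      refine ⟨⟨y, ⟨hy, hyf⟩, rfl⟩, ?_⟩
      intro i hi
      exact hy' i (by simpa using ⟨i.2, hi⟩)
  rw [zr, h1]
  refine finrank_map_of_inj (res k f) _ (fun y hy h => ?_)
  rw [van_insert] at hy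
  funext i
  by_cases hi : i = f
  · exact hy.2.2 i hi
  · exact res_eq_zero h i hi

theorem bInv_rec {L : Submodule k (E → k)} {f : E} (hnc : ∃ a ∈ perp L, a f ≠ 0) :
    bInv L = bInv (del L f) - bInv (con L f) := by
  rw [bInv, sum_finset_split f, bInv, bInv, ← Finset.sum_sub_distrib]
  apply Finset.sum_congr rfl
  intro S _
  rw [zr_del hnc, zr_con, Finset.card_insert_of_notMem (by simp), Finset.card_map, pow_succ]
  ring

theorem finrank_del {L : Submodule k (E → k)} {f : E} (hnc : ∃ a ∈ perp L, a f ≠ 0) :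
    finrank k (del L f) = finrank k L :=
  finrank_map_of_inj _ _ (fun _ hy h => inj_on_noncoloop hnc hy h)

theorem finrank_con {L : Submodule k (E → k)} {f : E} (hnl : ∃ a ∈ L, a f ≠ 0) :
    finrank k (con L f) + 1 = finrank k L := by
  rw [← finrank_inf_van L f hnl]
  congr 1
  refine finrank_map_of_inj (res k f) _ (fun y hy h => ?_)
  funext i
  by_cases hi : i = f
  · exact hy.2 i hi
  · exact res_eq_zero h i hi

theorem bInv_loop {L : Submodule k (E → k)} {f : E} (hl : ∀ y ∈ L, y f = 0) : bInv L = 0 := by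
  rw [bInv, sum_finset_split f]
  apply Finset.sum_eq_zero
  intro S _
  have h1 : zr L (insert f (S.map (Function.Embedding.subtype _))) =
      zr L (S.map (Function.Embedding.subtype _)) := by
    rw [zr, zr, van_insert, ← inf_assoc]
    have h2 : L ⊓ van k ((S.map (Function.Embedding.subtype _) : Finset E) : Set E) ⊓ van k {f} =
        L ⊓ van k ((S.map (Function.Embedding.subtype _) : Finset E) : Set E) := by
      rw [inf_eq_left]
      intro y hy i hi
      rw [hi]
      exact hl y hy.1
    rw [h2]
  rw [h1, Finset.card_insert_of_notMem (by simp), Finset.card_map, pow_succ]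
  ring

theorem zr_insert_coloop {L : Submodule k (E → k)} {f : E} (hc : Pi.single f 1 ∈ L) (S : Finset E)
    (hS : f ∉ S) : zr L (insert f S) + 1 = zr L S := by
  rw [zr, zr, van_insert, ← inf_assoc]
  apply finrank_inf_van
  refine ⟨Pi.single f 1, ⟨hc, ?_⟩, by simp⟩
  intro i hi
  rw [Pi.single_apply, if_neg]
  rintro rfl
  exact hS hi

theorem sum_neg_one_pow_card (ι : Type) [Fintype ι] [DecidableEq ι] [Nonempty ι] :
    ∑ S : Finset ι, (-1 : ℤ) ^ S.card = 0 := by
  have h := Finset.sum_powerset_neg_one_pow_card_of_nonempty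
    (Finset.univ_nonempty : (Finset.univ : Finset ι).Nonempty)
  rwa [Finset.powerset_univ] at h

theorem bInv_coloop {L : Submodule k (E → k)} {e f : E} (hef : e ≠ f)
    (hc : Pi.single f 1 ∈ L) : bInv L = 0 := by
  have : Nonempty {i // i ≠ f} := ⟨⟨e, hef⟩⟩
  rw [bInv, sum_finset_split f, ← sum_neg_one_pow_card {i // i ≠ f}]
  apply Finset.sum_congr rfl
  intro S _
  have h1 := zr_insert_coloop hc (S.map (Function.Embedding.subtype _)) (by simp)
  rw [← h1, Finset.card_insert_of_notMem (by simp), Finset.card_map, pow_succ]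
  push_cast
  ring

end Pool.Agent.Y214.RD
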