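import Mathlib

/-!
Lengths of quotients of a finite free algebra over a discrete valuation ring.
-/

set_option autoImplicit false

namespace Pool.Agent.Y214.RD

open Module IsLocalRing

theorem length_mul {A B : Type} [CommRing A] [CommRing B] [Algebra A B] (a b : B)
    (ha : ∀ t, a * t = 0 → t = 0) :
    Module.length A (B ⧸ Ideal.span {a * b}) =
      Module.length A (B ⧸ Ideal.span {b}) + Module.length A (B ⧸ Ideal.span {a}) := by
  have h1 : (Ideal.span {b} : Submodule B B) ≤
      Submodule.comap (LinearMap.mulLeft B a) (Ideal.span {a * b} : Submodule B B) := by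
    intro t ht
    obtain ⟨s, rfl⟩ := Ideal.mem_span_singleton'.1 ht
    show a * (s * b) ∈ Ideal.span {a * b}
    exact Ideal.mem_span_singleton'.2 ⟨s, by ring⟩
  have h2 : (Ideal.span {a * b} : Submodule B B) ≤
      Submodule.comap LinearMap.id (Ideal.span {a} : Submodule B B) := by
    intro t ht
    obtain ⟨s, rfl⟩ := Ideal.mem_span_singleton'.1 ht
    show s * (a * b) ∈ Ideal.span {a}
    exact Ideal.mem_span_singleton'.2 ⟨s * b, by ring⟩
  let F : (B ⧸ Ideal.span {b}) →ₗ[B] (B ⧸ Ideal.span {a * b}) :=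
    Submodule.mapQ _ _ (LinearMap.mulLeft B a) h1
  let G : (B ⧸ Ideal.span {a * b}) →ₗ[B] (B ⧸ Ideal.span {a}) :=
    Submodule.mapQ _ _ LinearMap.id h2
  refine Module.length_eq_add_of_exact (F.restrictScalars A) (G.restrictScalars A) ?_ ?_ ?_
  · intro s t hst
    obtain ⟨s, rfl⟩ := Ideal.Quotient.mk_surjective s
    obtain ⟨t, rfl⟩ := Ideal.Quotient.mk_surjective t
    have h3 : Ideal.Quotient.mk (Ideal.span {a * b}) (a * s) =
        Ideal.Quotient.mk (Ideal.span {a * b}) (a * t) := hst
    rw [Ideal.Quotient.eq] at h3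
    obtain ⟨r, hr⟩ := Ideal.mem_span_singleton'.1 h3
    rw [Ideal.Quotient.eq]
    refine Ideal.mem_span_singleton'.2 ⟨r, ?_⟩
    have h4 := ha (r * b - (s - t)) (by linear_combination hr)
    exact sub_eq_zero.1 h4
  · intro s
    obtain ⟨s, rfl⟩ := Ideal.Quotient.mk_surjective s
    exact ⟨Ideal.Quotient.mk _ s, rfl⟩
  · intro s
    obtain ⟨s, rfl⟩ := Ideal.Quotient.mk_surjective s
    constructor
    · intro hs
      have h3 : Ideal.Quotient.mk (Ideal.span {a}) s = 0 := hs
      rw [Ideal.Quotient.eq_zero_iff_mem] at h3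
      obtain ⟨r, rfl⟩ := Ideal.mem_span_singleton'.1 h3
      refine ⟨Ideal.Quotient.mk _ r, ?_⟩
      show Ideal.Quotient.mk (Ideal.span {a * b}) (a * r) = _
      rw [mul_comm a r]
    · rintro ⟨r, hr⟩
      obtain ⟨r, rfl⟩ := Ideal.Quotient.mk_surjective r
      have h3 : Ideal.Quotient.mk (Ideal.span {a * b}) (a * r) =
        Ideal.Quotient.mk (Ideal.span {a * b}) s := hr
      rw [← h3]
      show Ideal.Quotient.mk (Ideal.span {a}) (a * r) = 0
      rw [Ideal.Quotient.eq_zero_iff_mem]
      exact Ideal.mem_span_singleton'.2 ⟨r, by ring⟩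

attribute [local instance] Ideal.Quotient.field

theorem length_eq_finrank_residue {A M : Type} [CommRing A] [IsLocalRing A] [AddCommGroup M]
    [Module A M] [Module (A ⧸ maximalIdeal A) M] [IsScalarTower A (A ⧸ maximalIdeal A) M]
    [Module.Finite A M] :
    Module.length A M = finrank (A ⧸ maximalIdeal A) M := by
  have : Module.Finite (A ⧸ maximalIdeal A) M := Module.Finite.of_restrictScalars_finite A _ _
  rw [Module.length_eq_of_surjective (S := A) (R := A ⧸ maximalIdeal A)
    (by exact Ideal.Quotient.mk_surjective), Module.length_eq_finrank]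

theorem finrank_formula {A B : Type} [CommRing A] [IsLocalRing A] [CommRing B] [Algebra A B]
    [Module.Finite A B] [Module.Free A B] (t : A) (hm : maximalIdeal A = Ideal.span {t})
    (x v : B) (htx : algebraMap A B t = x ^ 2 * v) (hx : ∀ b, x * b = 0 → b = 0)
    [Algebra (A ⧸ maximalIdeal A) (B ⧸ Ideal.span {v})]
    [IsScalarTower A (A ⧸ maximalIdeal A) (B ⧸ Ideal.span {v})]
    [Algebra (A ⧸ maximalIdeal A) (B ⧸ Ideal.span {x})]
    [IsScalarTower A (A ⧸ maximalIdeal A) (B ⧸ Ideal.span {x})] :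
    finrank A B = finrank (A ⧸ maximalIdeal A) (B ⧸ Ideal.span {v}) +
      2 * finrank (A ⧸ maximalIdeal A) (B ⧸ Ideal.span {x}) := by
  have h1 : (maximalIdeal A).map (algebraMap A B) = Ideal.span {x * (x * v)} := by
    conv_lhs => rw [hm]
    rw [Ideal.map_span, Set.image_singleton, htx]
    congr 2
    ring
  have h2 : (finrank A B : ℕ∞) = Module.length A (B ⧸ Ideal.span {x * (x * v)}) := by
    rw [← h1, ← IsLocalRing.finrank_quotient_map (R := A) (S := B), length_eq_finrank_residue]
  have h3 : (finrank A B : ℕ∞) = ((finrank (A ⧸ maximalIdeal A) (B ⧸ Ideal.span {v}) +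
      2 * finrank (A ⧸ maximalIdeal A) (B ⧸ Ideal.span {x}) : ℕ) : ℕ∞) := by
    rw [h2, length_mul _ _ hx, length_mul _ _ hx]
    rw [length_eq_finrank_residue (M := B ⧸ Ideal.span {v}),
      length_eq_finrank_residue (M := B ⧸ Ideal.span {x})]
    push_cast
    ring
  exact_mod_cast h3

end Pool.Agent.Y214.RD
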