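import Mathlib
import Pool.Agent.Y214.RD.Lin

/-!
The products `x_i^2 v_i` with `x` in a linear space and `v` in its orthogonal complement are
algebraically dependent.
-/

set_option autoImplicit false

namespace Pool.Agent.Y214.RD

open Module MvPolynomial

variable {k : Type} [Field k]

theorem card_le_of_algInd {S ι : Type} [Fintype S] [Fintype ι] (q : S → MvPolynomial ι k)
    (h : AlgebraicIndependent k q) : Fintype.card S ≤ Fintype.card ι := by
  have h1 := h.cardinalMk_le_trdeg
  rw [MvPolynomial.trdeg_of_isDomain] at h1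
  simpa using h1

theorem card_le_of_algInd' {S ι : Type} [Fintype S] [Fintype ι] {κ : Type} [CommRing κ]
    [Algebra k κ] (g : ι → κ) (q : S → MvPolynomial ι k)
    (h : AlgebraicIndependent k (fun i => aeval g (q i))) : Fintype.card S ≤ Fintype.card ι :=
  card_le_of_algInd q (AlgebraicIndependent.of_comp (aeval g) h)

theorem not_algInd {S : Type} [Fintype S] [Nonempty S] (L : Submodule k (S → k)) {κ : Type}
    [Field κ] [Algebra k κ] (x v : S → κ) (hx : Rel (perp L) (algebraMap k κ) x)
    (hv : Rel L (algebraMap k κ) v) : ¬ AlgebraicIndependent k (fun i => x i ^ 2 * v i) := by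
  classical
  intro h
  obtain ⟨P⟩ := exists_param L
  obtain ⟨Q⟩ := exists_param (perp L)
  have hv' : Rel (perp (perp L)) (algebraMap k κ) v := by rwa [perp_perp]
  obtain ⟨z, hz⟩ : ∃ z : Fin (finrank k L) → κ, ∀ i, x i = ∑ j, algebraMap k κ (P.b j i) * z j :=
    ⟨_, P.eq_of_rel hx⟩
  obtain ⟨w, hw⟩ : ∃ w : Fin (finrank k (perp L)) → κ,
      ∀ i, v i = ∑ j, algebraMap k κ (Q.b j i) * w j := ⟨_, Q.eq_of_rel hv'⟩
  by_cases hz0 : ∀ j, z j = 0
  · obtain ⟨i⟩ := ‹Nonempty S›
    apply h.ne_zero i
    have : x i = 0 := by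
      rw [hz]
      simp [hz0]
    simp [this]
  · push Not at hz0
    obtain ⟨j0, hj0⟩ := hz0
    have hc := card_le_of_algInd' (k := k) (S := S)
      (ι := {j : Fin (finrank k L) // j ≠ j0} ⊕ Fin (finrank k (perp L)))
      (g := Sum.elim (fun j => z j / z j0) (fun l => z j0 ^ 2 * w l))
      (q := fun i => (C (P.b j0 i) + ∑ j : {j : Fin (finrank k L) // j ≠ j0},
        C (P.b j i) * X (Sum.inl j)) ^ 2 * ∑ l, C (Q.b l i) * X (Sum.inr l)) (by
        convert h using 2 with i
        simp only [map_mul, map_pow, map_add, map_sum, aeval_X, Sum.elim_inl, Sum.elim_inr,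
          MvPolynomial.aeval_C]
        have h1 : x i = z j0 * (algebraMap k κ (P.b j0 i) +
            ∑ j : {j : Fin (finrank k L) // j ≠ j0}, algebraMap k κ (P.b j i) * (z j / z j0)) := by
          rw [hz, ← Finset.add_sum_erase Finset.univ _ (Finset.mem_univ j0), mul_add,
            Finset.mul_sum]
          congr 1
          · ring
          · rw [Finset.sum_subtype (Finset.univ.erase j0) (p := fun j => j ≠ j0) (by simp)]
            apply Finset.sum_congr rfl
            intro j _
            field_simp
        have h2 : ∑ l, algebraMap k κ (Q.b l i) * (z j0 ^ 2 * w l) = z j0 ^ 2 * v i := by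
          rw [hw, Finset.mul_sum]
          exact Finset.sum_congr rfl fun j _ => by ring
        rw [h1, h2]
        ring)
    have h3 := finrank_perp L
    simp only [Fintype.card_sum, Fintype.card_fin] at hc
    have h4 : Fintype.card {j : Fin (finrank k L) // j ≠ j0} = finrank k L - 1 := by
      rw [Fintype.card_subtype_compl]
      simp
    have h5 : 0 < finrank k L := Fin.pos j0
    omega

end Pool.Agent.Y214.RD
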