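import Mathlib
import Pool.Agent.Y214.RD.LemR

/-!
A version of the dependence lemma on a subset of the coordinates.
-/

set_option autoImplicit false

namespace Pool.Agent.Y214.RD

open Module MvPolynomial

variable {k : Type} [Field k] {E : Type} [Fintype E]

theorem sum_subtype_eq {S : Set E} [Fintype S] {M : Type} [AddCommMonoid M] (F : E → M)
    (h : ∀ i, i ∉ S → F i = 0) : ∑ i : S, F i = ∑ i, F i :=
  Fintype.sum_of_injective (Subtype.val : S → E) Subtype.val_injective _ _
    (fun i hi => h i (by simpa using hi)) fun _ => rfl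

theorem not_algInd_restrict (L : Submodule k (E → k)) {κ : Type} [Field κ] [Algebra k κ]
    (S A : Set E) (hS : S.Nonempty) (hSA : ∀ i, i ∈ S → i ∉ A) (ξ η : E → κ)
    (hξ : ∀ i, i ∉ S → ξ i = 0) (hη : ∀ i, i ∉ S → η i = 0)
    (h1 : ∀ a ∈ perp L, (∀ i, i ∉ S → i ∉ A → a i = 0) → ∑ i, algebraMap k κ (a i) * ξ i = 0)
    (h2 : ∀ y ∈ L, (∀ i ∈ A, y i = 0) → ∑ i, algebraMap k κ (y i) * η i = 0) :
    ¬ AlgebraicIndependent k (fun i : S => ξ i ^ 2 * η i) := by
  classical
  have : Nonempty S := hS.to_subtype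
  let L' : Submodule k (S → k) := (L ⊓ van k A).map (LinearMap.funLeft k k (Subtype.val : S → E))
  refine not_algInd L' (fun i : S => ξ i) (fun i : S => η i) ?_ ?_
  · intro a ha
    let a' : E → k := fun i => if h : i ∈ S then a ⟨i, h⟩ else 0
    have ha' : ∀ i : S, a' i = a i := fun i => by simp [a']
    have ha0 : ∀ i, i ∉ S → a' i = 0 := fun i hi => by simp [a', hi]
    obtain ⟨b, hb, hab⟩ := exists_sub_mem_perp L A a' (by
      intro y hy hyA
      rw [← sum_subtype_eq (S := S) (fun i => a' i * y i) (fun i hi => by simp [ha0 i hi])]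
      have := ha (fun i : S => y i) ⟨y, ⟨hy, hyA⟩, rfl⟩
      simpa [ha'] using this)
    have h3 := h1 _ hab (by
      intro i hi hi'
      simp [ha0 i hi, hb i hi'])
    have h4 : ∀ i : S, algebraMap k κ (a i) * ξ i = algebraMap k κ ((a' - b) i) * ξ i := by
      intro i
      rw [Pi.sub_apply, ha', hb i (hSA i i.2), sub_zero]
    rw [Finset.sum_congr rfl fun i _ => h4 i,
      sum_subtype_eq (S := S) (fun i => algebraMap k κ ((a' - b) i) * ξ i)
        (fun i hi => by rw [hξ i hi, mul_zero])]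
    exact h3
  · rintro _ ⟨y, ⟨hy, hyA⟩, rfl⟩
    have := h2 y hy hyA
    rw [← sum_subtype_eq (S := S) (fun i => algebraMap k κ (y i) * η i)
        (fun i hi => by rw [hη i hi, mul_zero])] at this
    exact this

end Pool.Agent.Y214.RD
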