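import Mathlib
import Pool.Agent.Y214.RD.LemG

/-!
The valuative estimate: solutions of the system `x_i^2 v_i = τ_i` stay bounded at a place
where all parameters but one have algebraically independent residues.
-/

set_option autoImplicit false

namespace Pool.Agent.Y214.RD

open Module MvPolynomial IsLocalRing

section red

variable {K : Type} [Field K] (V : ValuationSubring K)

/-- The residue of an element of the valuation ring, and zero elsewhere. -/
noncomputable def red (a : K) : ResidueField V := by
  classical
  exact if h : a ∈ V then residue V ⟨a, h⟩ else 0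

theorem red_of_mem {a : K} (h : a ∈ V) : red V a = residue V ⟨a, h⟩ := by
  classical
  rw [red, dif_pos h]

theorem red_coe (a : V) : red V (a : K) = residue V a := by
  rw [red_of_mem V a.2]

theorem red_zero : red V (0 : K) = 0 := by
  have := red_coe V 0
  simpa using this

theorem red_one : red V (1 : K) = 1 := by
  have := red_coe V 1
  simpa using this

theorem red_mul {a b : K} (ha : a ∈ V) (hb : b ∈ V) : red V (a * b) = red V a * red V b := by
  rw [red_of_mem V ha, red_of_mem V hb, red_of_mem V (V.mul_mem _ _ ha hb), ← map_mul]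
  rfl

theorem red_add {a b : K} (ha : a ∈ V) (hb : b ∈ V) : red V (a + b) = red V a + red V b := by
  rw [red_of_mem V ha, red_of_mem V hb, red_of_mem V (V.add_mem _ _ ha hb), ← map_add]
  rfl

theorem red_sum {ι : Type} (s : Finset ι) (f : ι → K) (h : ∀ i ∈ s, f i ∈ V) :
    red V (∑ i ∈ s, f i) = ∑ i ∈ s, red V (f i) := by
  classical
  induction s using Finset.induction_on with
  | empty => simpa using red_zero V
  | insert a s ha ih =>
    have h1 : ∀ i ∈ s, f i ∈ V := fun i hi => h i (Finset.mem_insert_of_mem hi)
    have h2 : ∑ i ∈ s, f i ∈ V := sum_mem h1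
    rw [Finset.sum_insert ha, Finset.sum_insert ha, red_add V (h a (Finset.mem_insert_self _ _)) h2,
      ih h1]

theorem red_eq_zero_iff {a : K} (ha : a ∈ V) : red V a = 0 ↔ V.valuation a < 1 := by
  rw [red_of_mem V ha, IsLocalRing.residue_eq_zero_iff, V.valuation_lt_one_iff]

theorem red_ne_zero_iff {a : K} (ha : a ∈ V) : red V a ≠ 0 ↔ V.valuation a = 1 := by
  rw [Ne, red_eq_zero_iff V ha, not_lt]
  have := (V.valuation_le_one_iff a).2 ha
  constructor
  · exact fun h => le_antisymm this h
  · exact fun h => h.ge

end red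

variable {k : Type} [Field k] {E : Type} [Fintype E] {K : Type} [Field K]

/-- The structure map to the field of a valuation ring which is an algebra. -/
noncomputable abbrev cmap (k : Type) [Field k] {K : Type} [Field K] (V : ValuationSubring K)
    [Algebra k V] : k →+* K := (algebraMap V K).comp (algebraMap k V)

theorem cmap_mem (V : ValuationSubring K) [Algebra k V] (a : k) : cmap k V a ∈ V :=
  (algebraMap k V a).2

theorem red_cmap (V : ValuationSubring K) [Algebra k V] (a : k) :
    red V (cmap k V a) = algebraMap k (ResidueField V) a := by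
  have : cmap k V a = ((algebraMap k V a : V) : K) := rfl
  rw [this, red_coe]
  rfl

theorem red_rel_sum (V : ValuationSubring K) [Algebra k V] (a : E → k) (x : E → K)
    (h : ∑ i, cmap k V (a i) * x i = 0) (hx : ∀ i, a i = 0 ∨ x i ∈ V) :
    ∑ i, algebraMap k (ResidueField V) (a i) * red V (x i) = 0 := by
  have h1 := congrArg (red V) h
  rw [red_zero, red_sum] at h1
  · rw [← h1]
    apply Finset.sum_congr rfl
    intro i _
    rcases hx i with h2 | h2
    · rw [h2, map_zero, map_zero, zero_mul, zero_mul, red_zero]
    · rw [red_mul V (cmap_mem V _) h2, red_cmap]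
  · intro i _
    rcases hx i with h2 | h2
    · rw [h2, map_zero, zero_mul]
      exact V.zero_mem
    · exact V.mul_mem _ _ (cmap_mem V _) h2

theorem algInd_congr {S κ : Type} [Field κ] [Algebra k κ] {a b : S → κ} (h : ∀ i, a i = b i)
    (hb : AlgebraicIndependent k b) : AlgebraicIndependent k a := by
  rw [funext h]
  exact hb

theorem mem_of_dominated (V : ValuationSubring K) [Algebra k V] (L : Submodule k (E → k))
    (e f : E) (hnl : ∃ y ∈ L, y f ≠ 0) (hnc : ∃ a ∈ perp L, a f ≠ 0) (hfe : e ≠ f)
    (x v : E → K) (hx : Rel (perp L) (cmap k V) x) (hv : Rel L (cmap k V) v)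
    (τ : E → V) (hτe : x e = τ e) (hτ : ∀ i, i ≠ e → x i ^ 2 * v i = τ i)
    (hτf : τ f ∈ maximalIdeal V)
    (hind : AlgebraicIndependent k (fun i : {i // i ≠ f} => residue V (τ i))) :
    (∀ i, x i ∈ V) ∧ ∀ i, v i ∈ V := by
  classical
  set w := V.valuation with hw
  have hτle : ∀ i, w (τ i : K) ≤ 1 := fun i => V.valuation_le_one (τ i)
  have hτ1 : ∀ i, i ≠ f → w (τ i : K) = 1 := by
    intro i hi
    have := hind.ne_zero ⟨i, hi⟩
    rw [← red_coe, red_ne_zero_iff V (τ i).2] at this
    exact this
  have hτf1 : w (τ f : K) < 1 := (V.valuation_lt_one_iff _).1 hτf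
  have hxe1 : w (x e) = 1 := by rw [hτe]; exact hτ1 e hfe
  have : Nonempty E := ⟨e⟩
  -- first step
  have hxV : ∀ i, x i ∈ V := by
    obtain ⟨j, hj⟩ := Finite.exists_max (fun i => w (x i))
    by_contra hcon
    have hj1 : 1 < w (x j) := by
      by_contra h
      rw [not_lt] at h
      exact hcon fun i => V.mem_of_valuation_le_one _ ((hj i).trans h)
    have hwj : w (x j) ≠ 0 := (zero_lt_one.trans hj1).ne'
    have hxj : x j ≠ 0 := by
      intro h
      rw [h, map_zero] at hwj
      exact hwj rfl
    have hx'V : ∀ i, x i / x j ∈ V := by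
      intro i
      apply V.mem_of_valuation_le_one
      rw [map_div₀]
      exact div_le_one_of_le₀ (hj i) zero_le
    have hx'rel : ∀ a ∈ perp L, ∑ i, algebraMap k (ResidueField V) (a i) * red V (x i / x j) = 0 := by
      intro a ha
      apply red_rel_sum V a (fun i => x i / x j) _ (fun i => Or.inr (hx'V i))
      have h1 := (hx.smul (x j)⁻¹) a ha
      rw [← h1]
      exact Finset.sum_congr rfl fun i _ => by rw [div_eq_inv_mul]
    have he0 : red V (x e / x j) = 0 := by
      rw [red_eq_zero_iff V (hx'V e), map_div₀]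
      show w (x e) / w (x j) < 1
      rw [hxe1, div_lt_one₀ (zero_lt_one.trans hj1)]
      exact hj1
    have hj0 : red V (x j / x j) = 1 := by rw [div_self hxj, red_one]
    -- the second family
    have hvV : ∀ i, red V (x i / x j) ≠ 0 → x j ^ 2 * v i ∈ V ∧
        red V (x i / x j) ^ 2 * red V (x j ^ 2 * v i) = residue V (τ i) := by
      intro i hi
      have hie : i ≠ e := by
        rintro rfl
        exact hi he0
      have h1 : (x i / x j) ^ 2 * (x j ^ 2 * v i) = τ i := by
        rw [← hτ i hie]
        field_simp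
      have h2 := (red_ne_zero_iff V (hx'V i)).1 hi
      have h3 : x j ^ 2 * v i ∈ V := by
        apply V.mem_of_valuation_le_one
        have h4 := congrArg w h1
        rw [map_mul, map_pow] at h4
        have h5 : w (x i / x j) = 1 := h2
        rw [h5, one_pow, one_mul] at h4
        show w _ ≤ 1
        rw [h4]
        exact hτle i
      refine ⟨h3, ?_⟩
      rw [pow_two, ← red_mul V (hx'V i) (hx'V i), ← pow_two, ← red_mul V (pow_mem (hx'V i) 2) h3, h1,
        red_coe]
    let S : Set E := {i | red V (x i / x j) ≠ 0 ∧ i ≠ f}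
    let A : Set E := {i | red V (x i / x j) = 0}
    have hSmem : ∀ i, i ∈ S ↔ red V (x i / x j) ≠ 0 ∧ i ≠ f := fun i => Iff.rfl
    have hAmem : ∀ i, i ∈ A ↔ red V (x i / x j) = 0 := fun i => Iff.rfl
    have hSne : S.Nonempty := by
      by_contra hS
      rw [Set.not_nonempty_iff_eq_empty] at hS
      have h0 : ∀ i, i ≠ f → red V (x i / x j) = 0 := by
        intro i hi
        by_contra h
        have : i ∈ S := ⟨h, hi⟩
        rw [hS] at this
        exact this
      have hjf : j = f := by
        by_contra h
        have := h0 j h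
        rw [hj0] at this
        exact one_ne_zero this
      obtain ⟨a, ha, haf⟩ := hnc
      have h1 := hx'rel a ha
      rw [Finset.sum_eq_single f] at h1
      · rw [← hjf, hj0, mul_one, hjf] at h1
        exact haf ((map_eq_zero _).1 h1)
      · intro i _ hi
        rw [h0 i hi, mul_zero]
      · simp
    have key := not_algInd_restrict L S A hSne (fun i hi hi' => hi.1 hi')
      (fun i => if i ∈ S then red V (x i / x j) else 0)
      (fun i => if i ∈ S then red V (x j ^ 2 * v i) else 0)
      (fun i hi => by simp [hi]) (fun i hi => by simp [hi]) (by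
        intro a ha hsupp
        refine (Finset.sum_congr rfl ?_).trans (hx'rel a ha)
        intro i _
        by_cases hi : i ∈ S
        · simp only [hi, if_true]
        · by_cases hi' : i ∈ A
          · rw [if_neg hi, mul_zero, (hAmem i).1 hi', mul_zero]
          · rw [hsupp i hi hi', map_zero, zero_mul, zero_mul]) (by
        intro y hy hyA
        have h1 := red_rel_sum V y (fun i => x j ^ 2 * v i) ((hv.smul (x j ^ 2)) y hy) (by
          intro i
          by_cases hi : i ∈ A
          · exact Or.inl (hyA i hi)
          · exact Or.inr (hvV i hi).1)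
        refine (Finset.sum_congr rfl ?_).trans h1
        intro i _
        by_cases hi : i ∈ S
        · simp only [hi, if_true]
        · rw [if_neg hi, mul_zero]
          by_cases hi' : i ∈ A
          · rw [hyA i hi', map_zero, zero_mul]
          · have hif : i = f := by
              by_contra h
              exact hi ⟨hi', h⟩
            have h2 := (hvV i hi').2
            rw [hif, (residue_eq_zero_iff _).2 hτf, ← hif] at h2
            rw [(mul_eq_zero.1 h2).resolve_left (pow_ne_zero 2 hi'), mul_zero])
    have h1 := hind.comp (fun i : S => (⟨i, i.2.2⟩ : {i // i ≠ f})) (by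
      intro a b hab
      exact Subtype.ext (congrArg (fun z : {i // i ≠ f} => (z : E)) hab))
    refine key (algInd_congr (fun i => ?_) h1)
    simp only [i.2, if_true, Function.comp]
    exact (hvV i i.2.1).2
  refine ⟨hxV, ?_⟩
  -- second step
  obtain ⟨j, hj⟩ := Finite.exists_max (fun i => w (v i))
  by_contra hcon
  have hj1 : 1 < w (v j) := by
    by_contra h
    rw [not_lt] at h
    exact hcon fun i => V.mem_of_valuation_le_one _ ((hj i).trans h)
  have hwj : w (v j) ≠ 0 := (zero_lt_one.trans hj1).ne'
  have hvj : v j ≠ 0 := by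
    intro h
    rw [h, map_zero] at hwj
    exact hwj rfl
  have hv'V : ∀ i, v i / v j ∈ V := by
    intro i
    apply V.mem_of_valuation_le_one
    rw [map_div₀]
    exact div_le_one_of_le₀ (hj i) zero_le
  have hv'ne : ∀ i, red V (v i / v j) ≠ 0 → w (v i) = w (v j) := by
    intro i hi
    have h1 := (red_ne_zero_iff V (hv'V i)).1 hi
    rw [map_div₀] at h1
    exact (div_eq_one_iff_eq hwj).1 h1
  have hx0 : ∀ i, i ≠ e → red V (v i / v j) ≠ 0 → red V (x i) = 0 := by
    intro i hie hi
    rw [red_eq_zero_iff V (hxV i)]
    have h1 := congrArg w (hτ i hie)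
    rw [map_mul, map_pow, hv'ne i hi] at h1
    show w (x i) < 1
    by_contra h
    rw [not_lt] at h
    have h2 : 1 ≤ w (x i) ^ 2 := one_le_pow₀ h
    have h3 : 1 < w (x i) ^ 2 * w (v j) := lt_of_lt_of_le hj1 (le_mul_of_one_le_left zero_le h2)
    rw [h1] at h3
    exact absurd (hτle i) (not_le.2 h3)
  have he0 : red V (v e / v j) = 0 := by
    by_contra h
    have h1 : ∑ i, (v i / v j) * x i = 0 := by
      have h2 := pairing hx hv
      have h3 : ∑ i, (v i / v j) * x i = (v j)⁻¹ * ∑ i, v i * x i := by
        rw [Finset.mul_sum]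
        exact Finset.sum_congr rfl fun i _ => by rw [div_eq_inv_mul, mul_assoc]
      rw [h3, h2, mul_zero]
    have h4 := congrArg (red V) h1
    rw [red_zero, red_sum V _ _ fun i _ => V.mul_mem _ _ (hv'V i) (hxV i),
      Finset.sum_eq_single e] at h4
    · rw [red_mul V (hv'V e) (hxV e)] at h4
      rcases mul_eq_zero.1 h4 with h5 | h5
      · exact h h5
      · rw [red_eq_zero_iff V (hxV e)] at h5
        exact absurd hxe1 h5.ne
    · intro i _ hi
      rw [red_mul V (hv'V i) (hxV i)]
      by_cases h6 : red V (v i / v j) = 0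
      · rw [h6, zero_mul]
      · rw [hx0 i hi h6, mul_zero]
    · simp
  have hj0 : red V (v j / v j) = 1 := by rw [div_self hvj, red_one]
  let S : Set E := {i | red V (v i / v j) ≠ 0 ∧ i ≠ f}
  let A : Set E := {i | red V (v i / v j) ≠ 0 ∧ i = f}
  have hSne : S.Nonempty := by
    by_contra hS
    rw [Set.not_nonempty_iff_eq_empty] at hS
    have h0 : ∀ i, i ≠ f → red V (v i / v j) = 0 := by
      intro i hi
      by_contra h
      have : i ∈ S := ⟨h, hi⟩
      rw [hS] at this
      exact this
    have hjf : j = f := by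
      by_contra h
      have := h0 j h
      rw [hj0] at this
      exact one_ne_zero this
    obtain ⟨y, hy, hyf⟩ := hnl
    have h1 := red_rel_sum V y (fun i => v i / v j) (by
      have h1 := (hv.smul (v j)⁻¹) y hy
      rw [← h1]
      exact Finset.sum_congr rfl fun i _ => by rw [div_eq_inv_mul]) (fun i => Or.inr (hv'V i))
    rw [Finset.sum_eq_single f] at h1
    · rw [← hjf, hj0, mul_one, hjf] at h1
      exact hyf ((map_eq_zero _).1 h1)
    · intro i _ hi
      rw [h0 i hi, mul_zero]
    · simp
  obtain ⟨q, hqS⟩ := hSne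
  have hqe : q ≠ e := by
    rintro rfl
    exact hqS.1 he0
  have hq1 : w (x q) ^ 2 * w (v j) = 1 := by
    rw [← hv'ne q hqS.1, ← map_pow, ← map_mul, hτ q hqe]
    exact hτ1 q hqS.2
  have hxq0 : x q ≠ 0 := by
    intro h
    rw [h, map_zero, zero_pow two_ne_zero, zero_mul] at hq1
    exact zero_ne_one hq1
  have hwxq : w (x q) ≠ 0 := by simpa using hxq0
  have hv''V : ∀ i, x q ^ 2 * v i ∈ V := by
    intro i
    apply V.mem_of_valuation_le_one
    show w _ ≤ 1
    rw [map_mul, map_pow, ← hq1]
    exact mul_le_mul_right (hj i) _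
  have hv''0 : ∀ i, red V (v i / v j) = 0 → red V (x q ^ 2 * v i) = 0 := by
    intro i hi
    rw [red_eq_zero_iff V (hv'V i), map_div₀] at hi
    rw [red_eq_zero_iff V (hv''V i), map_mul, map_pow]
    have h1 : w (v i) < w (v j) := (div_lt_one₀ (zero_lt_one.trans hj1)).1 hi
    show w (x q) ^ 2 * w (v i) < 1
    rw [← hq1]
    exact mul_lt_mul_of_pos_left h1 (pow_pos (zero_lt_iff.2 hwxq) 2)
  have hx''V : ∀ i, red V (v i / v j) ≠ 0 → x i / x q ∈ V := by
    intro i hi
    have hie : i ≠ e := by
      rintro rfl
      exact hi he0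
    apply V.mem_of_valuation_le_one
    show w _ ≤ 1
    rw [map_div₀]
    apply div_le_one_of_le₀ _ zero_le
    have h1 := congrArg w (hτ i hie)
    rw [map_mul, map_pow, hv'ne i hi] at h1
    have h2 : w (x i) ^ 2 * w (v j) ≤ w (x q) ^ 2 * w (v j) := by
      rw [h1, hq1]
      exact hτle i
    have h3 := le_of_mul_le_mul_right h2 (zero_lt_one.trans hj1)
    exact (pow_le_pow_iff_left₀ zero_le zero_le two_ne_zero).1 h3
  have hx''f : red V (v f / v j) ≠ 0 → red V (x f / x q) = 0 := by
    intro hi
    rw [red_eq_zero_iff V (hx''V f hi), map_div₀]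
    show w (x f) / w (x q) < 1
    rw [div_lt_one₀ (zero_lt_iff.2 hwxq)]
    have h1 := congrArg w (hτ f hfe.symm)
    rw [map_mul, map_pow, hv'ne f hi] at h1
    have h2 : w (x f) ^ 2 * w (v j) < w (x q) ^ 2 * w (v j) := by
      rw [h1, hq1]
      exact hτf1
    have h3 := lt_of_mul_lt_mul_right h2 (zero_le : (0 : V.ValueGroup) ≤ w (v j))
    exact (pow_lt_pow_iff_left₀ zero_le zero_le two_ne_zero).1 h3
  have key := not_algInd_restrict L S A ⟨q, hqS⟩ (fun i hi hi' => hi.2 hi'.2)
    (fun i => if i ∈ S then red V (x i / x q) else 0)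
    (fun i => if i ∈ S then red V (x q ^ 2 * v i) else 0)
    (fun i hi => by simp [hi]) (fun i hi => by simp [hi]) (by
      intro a ha hsupp
      have h1 := red_rel_sum V a (fun i => x i / x q) (by
        have h1 := (hx.smul (x q)⁻¹) a ha
        rw [← h1]
        exact Finset.sum_congr rfl fun i _ => by rw [div_eq_inv_mul]) (by
        intro i
        by_cases hi : i ∈ S
        · exact Or.inr (hx''V i hi.1)
        · by_cases hi' : i ∈ A
          · exact Or.inr (hx''V i hi'.1)
          · exact Or.inl (hsupp i hi hi'))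
      refine (Finset.sum_congr rfl ?_).trans h1
      intro i _
      by_cases hi : i ∈ S
      · simp only [hi, if_true]
      · rw [if_neg hi, mul_zero]
        by_cases hi' : i ∈ A
        · have h2 : i = f := hi'.2
          have h3 := hx''f (h2 ▸ hi'.1)
          rw [h2, h3, mul_zero]
        · rw [hsupp i hi hi', map_zero, zero_mul]) (by
      intro y hy hyA
      have h1 := red_rel_sum V y (fun i => x q ^ 2 * v i) ((hv.smul (x q ^ 2)) y hy)
        (fun i => Or.inr (hv''V i))
      refine (Finset.sum_congr rfl ?_).trans h1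
      intro i _
      by_cases hi : i ∈ S
      · simp only [hi, if_true]
      · rw [if_neg hi, mul_zero]
        by_cases hi' : red V (v i / v j) = 0
        · rw [hv''0 i hi', mul_zero]
        · have hif : i = f := by
            by_contra h
            exact hi ⟨hi', h⟩
          rw [hyA i ⟨hi', hif⟩, map_zero, zero_mul])
  have h1 := hind.comp (fun i : S => (⟨i, i.2.2⟩ : {i // i ≠ f})) (by
    intro a b hab
    exact Subtype.ext (congrArg (fun z : {i // i ≠ f} => (z : E)) hab))
  refine key (algInd_congr (fun i => ?_) h1)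
  simp only [i.2, if_true, Function.comp]
  have hie : (i : E) ≠ e := by
    intro h
    exact i.2.1 (h ▸ he0)
  have h2 : (x i / x q) ^ 2 * (x q ^ 2 * v i) = τ i := by
    rw [← hτ i hie]
    field_simp
  rw [pow_two, ← red_mul V (hx''V i i.2.1) (hx''V i i.2.1), ← pow_two,
    ← red_mul V (pow_mem (hx''V i i.2.1) 2) (hv''V i), h2, red_coe]

end Pool.Agent.Y214.RD
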