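import Mathlib
import Pool.Agent.Y214.RD.Univ

/-!
The coordinate ring of `L × L^⊥` as a polynomial ring.
-/

set_option autoImplicit false

namespace Pool.Agent.Y214.RD

open Module MvPolynomial

variable {k : Type} [Field k] {E : Type} [Fintype E] (L : Submodule k (E → k))

/-- The index type of the variables. -/
abbrev Idx : Type := Fin (finrank k L) ⊕ Fin (finrank k (perp L))

/-- The coordinate ring of `L × L^⊥`. -/
abbrev PR : Type := MvPolynomial (Idx L) k

/-- A chosen parametrisation of `L`. -/
noncomputable def parL : Param L := Classical.choice (exists_param L)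

/-- A chosen parametrisation of `L^⊥`. -/
noncomputable def parP : Param (perp L) := Classical.choice (exists_param (perp L))

/-- The coordinates of the generic point of `L`. -/
noncomputable def xP (i : E) : PR L := ∑ j, C ((parL L).b j i) * X (Sum.inl j)

/-- The coordinates of the generic point of `L^⊥`. -/
noncomputable def vP (i : E) : PR L := ∑ j, C ((parP L).b j i) * X (Sum.inr j)

theorem rel_xP : Rel (perp L) (C : k →+* PR L) (xP L) :=
  (parL L).rel (C : k →+* PR L) fun j => X (Sum.inl j)

theorem rel_vP : Rel L (C : k →+* PR L) (vP L) :=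
  Rel.mono (le_perp_perp L) ((parP L).rel (C : k →+* PR L) fun j => X (Sum.inr j))

theorem exists_hom {T : Type} [CommRing T] (c : k →+* T) (x v : E → T) (hx : Rel (perp L) c x)
    (hv : Rel L c v) : ∃ φ : PR L →+* T, φ.comp C = c ∧ (∀ i, φ (xP L i) = x i) ∧
      ∀ i, φ (vP L i) = v i := by
  refine ⟨eval₂Hom c (Sum.elim (fun j => ∑ l, c ((parL L).p j l) * x l)
    (fun j => ∑ l, c ((parP L).p j l) * v l)), ?_, ?_, ?_⟩
  · ext a
    simp
  · intro i
    rw [(parL L).eq_of_rel hx i]
    simp [xP]
  · intro i
    have hv' : Rel (perp (perp L)) c v := by rwa [perp_perp]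
    rw [(parP L).eq_of_rel hv' i]
    simp [vP]

theorem hom_ext {T : Type} [CommRing T] (φ ψ : PR L →+* T) (hc : φ.comp C = ψ.comp C)
    (hx : ∀ i, φ (xP L i) = ψ (xP L i)) (hv : ∀ i, φ (vP L i) = ψ (vP L i)) : φ = ψ := by
  have hc' : ∀ a, φ (C a) = ψ (C a) := fun a => RingHom.congr_fun hc a
  apply MvPolynomial.ringHom_ext hc'
  rintro (j | j)
  · have h := (parL L).coord (C : k →+* PR L) (fun j => X (Sum.inl j)) j
    rw [← h]
    simp only [map_sum, map_mul, hc']
    refine Finset.sum_congr rfl fun i _ => ?_
    congr 1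
    have := hx i
    simpa only [xP, map_sum, map_mul, hc'] using this
  · have h := (parP L).coord (C : k →+* PR L) (fun j => X (Sum.inr j)) j
    rw [← h]
    simp only [map_sum, map_mul, hc']
    refine Finset.sum_congr rfl fun i _ => ?_
    congr 1
    have := hv i
    simpa only [vP, map_sum, map_mul, hc'] using this

theorem X_inl (j : Fin (finrank k L)) :
    (X (Sum.inl j) : PR L) = ∑ i, C ((parL L).p j i) * xP L i :=
  ((parL L).coord (C : k →+* PR L) (fun j => X (Sum.inl j)) j).symm

theorem X_inr (j : Fin (finrank k (perp L))) :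
    (X (Sum.inr j) : PR L) = ∑ i, C ((parP L).p j i) * vP L i :=
  ((parP L).coord (C : k →+* PR L) (fun j => X (Sum.inr j)) j).symm

theorem xP_ne_zero {f : E} (h : ∃ y ∈ L, y f ≠ 0) : xP L f ≠ 0 := by
  obtain ⟨y, hy, hyf⟩ := h
  intro h0
  obtain ⟨φ, _, hφ, _⟩ := exists_hom L (RingHom.id k) y 0 (by
    intro a ha
    exact ha y hy) (by
    intro a _
    simp)
  apply hyf
  rw [← hφ f, h0, map_zero]

theorem vP_ne_zero {f : E} (h : ∃ y ∈ perp L, y f ≠ 0) : vP L f ≠ 0 := by
  obtain ⟨y, hy, hyf⟩ := h
  intro h0
  obtain ⟨φ, _, _, hφ⟩ := exists_hom L (RingHom.id k) 0 y (by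
    intro a _
    simp) (by
    intro a ha
    have := hy a ha
    rw [← this]
    exact Finset.sum_congr rfl fun i _ => mul_comm _ _)
  apply hyf
  rw [← hφ f, h0, map_zero]

variable [DecidableEq E]

/-- The parameters as polynomials. -/
noncomputable def tP (e i : E) : PR L := if i = e then xP L e else xP L i ^ 2 * vP L i

/-- The map from the parameter ring. -/
noncomputable def rho0 (e : E) : MvPolynomial E k →+* PR L :=
  (aeval (tP L e) : MvPolynomial E k →ₐ[k] PR L).toRingHom

theorem rho0_C (e : E) (a : k) : rho0 L e (C a) = C a := by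
  simp [rho0, MvPolynomial.algebraMap_eq]

theorem rho0_X (e i : E) : rho0 L e (X i) = tP L e i := by
  simp [rho0]

theorem sol_PR (e : E) : Sol L e (C : k →+* PR L) (tP L e) (xP L) (vP L) where
  rx := rel_xP L
  rv := rel_vP L
  he := by simp [tP]
  hu i hi := by simp [tP, hi]

section loc

variable (e : E) (p : Ideal (MvPolynomial E k)) [p.IsPrime]

/-- The local base ring. -/
abbrev LA : Type := Localization.AtPrime p

/-- The corresponding localisation of the coordinate ring. -/
abbrev LB : Type := Localization (p.primeCompl.map (rho0 L e))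

/-- The structure map. -/
noncomputable def rhoB : LA p →+* LB L e p :=
  IsLocalization.lift (M := p.primeCompl) (g := (algebraMap (PR L) (LB L e p)).comp (rho0 L e))
    fun s => IsLocalization.map_units (LB L e p) (⟨rho0 L e s, s, s.2, rfl⟩ :
      p.primeCompl.map (rho0 L e))

theorem rhoB_algebraMap (a : MvPolynomial E k) :
    rhoB L e p (algebraMap _ (LA p) a) = algebraMap (PR L) (LB L e p) (rho0 L e a) := by
  simp [rhoB]

/-- The generic parameters in the local base ring. -/
noncomputable def tA (i : E) : LA p := algebraMap (MvPolynomial E k) (LA p) (X i)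

/-- The constants. -/
noncomputable def cA : k →+* LA p := (algebraMap (MvPolynomial E k) (LA p)).comp C

theorem isU_loc : IsU L e (cA p) (tA p) (rhoB L e p)
    (fun i => algebraMap (PR L) (LB L e p) (xP L i))
    (fun i => algebraMap (PR L) (LB L e p) (vP L i)) := by
  have hc : (rhoB L e p).comp (cA p) = (algebraMap (PR L) (LB L e p)).comp C := by
    ext a
    simp only [RingHom.comp_apply, cA, rhoB_algebraMap, rho0_C]
  refine ⟨?_, ?_, ?_⟩
  · have h := (sol_PR L e).map (algebraMap (PR L) (LB L e p))
    rw [hc]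
    convert h using 1
    funext i
    rw [tA, rhoB_algebraMap, rho0_X]
  · intro T' _ ρ' x' v' h'
    obtain ⟨φ0, hφc, hφx, hφv⟩ := exists_hom L _ x' v' h'.rx h'.rv
    have h1 : φ0.comp (rho0 L e) = ρ'.comp (algebraMap _ (LA p)) := by
      apply MvPolynomial.ringHom_ext
      · intro a
        rw [RingHom.comp_apply, rho0_C]
        exact RingHom.congr_fun hφc a
      · intro i
        rw [RingHom.comp_apply, rho0_X, tP]
        split_ifs with hi
        · rw [hφx, h'.he, hi]
          rfl
        · rw [map_mul, map_pow, hφx, hφv, h'.hu i hi]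
          rfl
    have h2 : ∀ s : p.primeCompl.map (rho0 L e), IsUnit (φ0 s) := by
      rintro ⟨_, s, hs, rfl⟩
      have h3 : φ0 (rho0 L e s) = ρ' (algebraMap _ (LA p) s) := RingHom.congr_fun h1 s
      show IsUnit (φ0 (rho0 L e s))
      rw [h3]
      exact (IsLocalization.map_units (LA p) (⟨s, hs⟩ : p.primeCompl)).map ρ'
    refine ⟨IsLocalization.lift (M := p.primeCompl.map (rho0 L e)) h2, ?_, ?_, ?_⟩
    · apply IsLocalization.ringHom_ext p.primeCompl
      ext a
      · simp only [RingHom.comp_apply, rhoB_algebraMap, IsLocalization.lift_eq]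
        exact RingHom.congr_fun h1 (C a)
      · simp only [RingHom.comp_apply, rhoB_algebraMap, IsLocalization.lift_eq]
        exact RingHom.congr_fun h1 _
    · intro i
      rw [IsLocalization.lift_eq, hφx]
    · intro i
      rw [IsLocalization.lift_eq, hφv]
  · intro T' _ φ ψ hρ hx hv
    apply IsLocalization.ringHom_ext (p.primeCompl.map (rho0 L e))
    apply hom_ext
    · rw [RingHom.comp_assoc, RingHom.comp_assoc, ← hc, ← RingHom.comp_assoc, hρ,
        RingHom.comp_assoc]
    · exact hx
    · exact hv

end loc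

end Pool.Agent.Y214.RD
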