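import Mathlib
import Pool.Agent.Y214.RD.Poly
import Pool.Agent.Y214.RD.Places
import Pool.Agent.Y214.RD.Dom

/-!
The localisation at the prime ideal generated by one parameter: the universal algebra is
finite and free over this discrete valuation ring.
-/

set_option autoImplicit false

namespace Pool.Agent.Y214.RD

open Module MvPolynomial IsLocalRing

variable {k : Type} [Field k] {E : Type} [Fintype E] [DecidableEq E]

/-- The prime ideal generated by a parameter. -/
noncomputable abbrev pf (k : Type) [Field k] {E : Type} (f : E) : Ideal (MvPolynomial E k) := Ideal.span {X f}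

instance pf_prime (f : E) : (pf k f).IsPrime :=
  (Ideal.span_singleton_prime (X_ne_zero f)).2 X_prime

omit [Fintype E] in
theorem rename_not_mem (f : E) (G : MvPolynomial {i // i ≠ f} k) (hG : G ≠ 0) :
    rename Subtype.val G ∉ pf k f := by
  intro h
  obtain ⟨H, hH⟩ := Ideal.mem_span_singleton.1 h
  apply hG
  have h1 := congrArg (aeval (fun i : E => if h : i ≠ f then (X ⟨i, h⟩ :
    MvPolynomial {i // i ≠ f} k) else 0)) hH
  rw [map_mul, aeval_X, dif_neg (by simp), zero_mul, aeval_rename] at h1
  have h2 : ((fun i : E => if h : i ≠ f then (X ⟨i, h⟩ :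
      MvPolynomial {i // i ≠ f} k) else 0) ∘ Subtype.val) = X := by
    funext i
    simp [i.2]
  rw [h2, aeval_X_left] at h1
  exact h1

omit [Fintype E] in
theorem isUnit_rename (f : E) (G : MvPolynomial {i // i ≠ f} k) (hG : G ≠ 0) :
    IsUnit (algebraMap _ (LA (pf k f)) (rename Subtype.val G)) :=
  IsLocalization.map_units (LA (pf k f)) (⟨_, rename_not_mem f G hG⟩ : (pf k f).primeCompl)

omit [Fintype E] in
theorem algInd_of_hom (f : E) {F : Type} [Field F] [Algebra k F] (g : LA (pf k f) →+* F)
    (hg : g.comp (cA (pf k f)) = algebraMap k F) :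
    AlgebraicIndependent k (fun i : {i // i ≠ f} => g (tA (pf k f) i)) := by
  rw [algebraicIndependent_iff]
  intro G hG
  by_contra hG0
  have h1 : aeval (fun i : {i // i ≠ f} => g (tA (pf k f) i)) G =
      g (algebraMap _ (LA (pf k f)) (rename Subtype.val G)) := by
    have h2 : ((aeval (fun i : {i // i ≠ f} => g (tA (pf k f) i)) :
        MvPolynomial {i // i ≠ f} k →ₐ[k] F) : MvPolynomial {i // i ≠ f} k →+* F) =
        (g.comp (algebraMap _ (LA (pf k f)))).comp
          ((rename Subtype.val : MvPolynomial {i // i ≠ f} k →ₐ[k] MvPolynomial E k) :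
            MvPolynomial {i // i ≠ f} k →+* MvPolynomial E k) := by
      apply MvPolynomial.ringHom_ext
      · intro a
        have := RingHom.congr_fun hg a
        simp only [RingHom.comp_apply, cA] at this
        simp [this, MvPolynomial.algebraMap_eq]
      · intro i
        simp [tA]
    exact RingHom.congr_fun h2 G
  rw [h1] at hG
  exact ((isUnit_rename f G hG0).map g).ne_zero hG

theorem noeth (f : E) : IsNoetherianRing (LA (pf k f)) :=
  IsLocalization.isNoetherianRing (pf k f).primeCompl _ inferInstance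

omit [Fintype E] in
theorem maxIdeal_eq (f : E) : maximalIdeal (LA (pf k f)) = Ideal.span {tA (pf k f) f} := by
  rw [← Localization.AtPrime.map_eq_maximalIdeal, Ideal.map_span, Set.image_singleton]
  rfl

theorem pir (f : E) : IsPrincipalIdealRing (LA (pf k f)) := by
  have := noeth (k := k) f
  apply ((tfae_of_isNoetherianRing_of_isLocalRing_of_isDomain (LA (pf k f))).out 4 0).1
  rw [maxIdeal_eq]
  exact ⟨⟨tA (pf k f) f, rfl⟩⟩

section

variable (L : Submodule k (E → k)) (e f : E)

noncomputable instance algAB : Algebra (LA (pf k f)) (LB L e (pf k f)) :=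
  (rhoB L e (pf k f)).toAlgebra

/-- The generic point in the localised algebra. -/
noncomputable def xB (i : E) : LB L e (pf k f) := algebraMap (PR L) _ (xP L i)

/-- The generic dual point in the localised algebra. -/
noncomputable def vB (i : E) : LB L e (pf k f) := algebraMap (PR L) _ (vP L i)

theorem isU_B : IsU L e (cA (pf k f)) (tA (pf k f)) (algebraMap (LA (pf k f)) (LB L e (pf k f)))
    (xB L e f) (vB L e f) := isU_loc L e (pf k f)

theorem adjoin_eq_top : Algebra.adjoin (LA (pf k f)) (Set.range (xB L e f) ∪ Set.range (vB L e f))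
    = ⊤ := by
  set W := Algebra.adjoin (LA (pf k f)) (Set.range (xB L e f) ∪ Set.range (vB L e f)) with hW
  have hC : ∀ a : k, algebraMap (PR L) (LB L e (pf k f)) (C a) ∈ W := by
    intro a
    have h1 : algebraMap (PR L) (LB L e (pf k f)) (C a) =
        algebraMap (LA (pf k f)) (LB L e (pf k f))
          (algebraMap (MvPolynomial E k) (LA (pf k f)) (C a)) := by
      rw [← rho0_C L e a]
      exact (rhoB_algebraMap L e (pf k f) (C a)).symm
    rw [h1]
    exact W.algebraMap_mem _
  have hP : ∀ q : PR L, algebraMap (PR L) (LB L e (pf k f)) q ∈ W := by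
    intro q
    induction q using MvPolynomial.induction_on with
    | C a => exact hC a
    | add a b ha hb =>
      rw [map_add]
      exact W.add_mem ha hb
    | mul_X a i ha =>
      rw [map_mul]
      apply W.mul_mem ha
      rcases i with j | j
      · rw [X_inl, map_sum]
        apply W.sum_mem
        intro i _
        rw [map_mul]
        exact W.mul_mem (hC _) (Algebra.subset_adjoin (Or.inl ⟨i, rfl⟩))
      · rw [X_inr, map_sum]
        apply W.sum_mem
        intro i _
        rw [map_mul]
        exact W.mul_mem (hC _) (Algebra.subset_adjoin (Or.inr ⟨i, rfl⟩))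
  rw [eq_top_iff]
  rintro b -
  obtain ⟨q, s, rfl⟩ := IsLocalization.exists_mk'_eq ((pf k f).primeCompl.map (rho0 L e)) b
  obtain ⟨_, s, hs, rfl⟩ := s
  have h1 := IsLocalization.map_units (LA (pf k f)) (⟨s, hs⟩ : (pf k f).primeCompl)
  obtain ⟨u, hu⟩ := h1
  have h2 : IsLocalization.mk' (LB L e (pf k f)) q (⟨rho0 L e s, s, hs, rfl⟩ :
      (pf k f).primeCompl.map (rho0 L e)) =
      algebraMap (PR L) _ q * algebraMap (LA (pf k f)) (LB L e (pf k f)) (u⁻¹ : (LA (pf k f))ˣ) := by
    rw [IsLocalization.mk'_eq_iff_eq_mul]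
    have h3 : algebraMap (PR L) (LB L e (pf k f)) (rho0 L e s) =
        algebraMap (LA (pf k f)) (LB L e (pf k f)) u := by
      rw [hu]
      exact (rhoB_algebraMap L e (pf k f) s).symm
    show _ = _ * algebraMap (PR L) (LB L e (pf k f)) (rho0 L e s)
    rw [h3, mul_assoc, ← map_mul, Units.inv_mul, map_one, mul_one]
  rw [h2]
  exact W.mul_mem (hP q) (W.algebraMap_mem _)

variable {L e f}

theorem isIntegral_B_aux (hnl : ∃ y ∈ L, y f ≠ 0) (hnc : ∃ a ∈ perp L, a f ≠ 0) (hef : e ≠ f)
    (K : Type) [Field K] (ι : LB L e (pf k f) →+* K) (hι : Function.Injective ι) :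
    (∀ i, IsIntegral (LA (pf k f)) (xB L e f i)) ∧ ∀ i, IsIntegral (LA (pf k f)) (vB L e f i) := by
  let _ : Algebra (LB L e (pf k f)) K := ι.toAlgebra
  let _ : Algebra (LA (pf k f)) K := (ι.comp (algebraMap (LA (pf k f)) (LB L e (pf k f)))).toAlgebra
  have : IsScalarTower (LA (pf k f)) (LB L e (pf k f)) K :=
    IsScalarTower.of_algebraMap_eq fun _ => rfl
  have key : ∀ V : ValuationSubring K, (∀ a : LA (pf k f), algebraMap (LA (pf k f)) K a ∈ V) →
      (∀ a ∈ maximalIdeal (LA (pf k f)), algebraMap (LA (pf k f)) K a ∈ V.nonunits) →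
      (∀ i, ι (xB L e f i) ∈ V) ∧ ∀ i, ι (vB L e f i) ∈ V := by
    intro V hV hV'
    let g : LA (pf k f) →+* V := (algebraMap (LA (pf k f)) K).codRestrict V.toSubring hV
    let _ : Algebra k V := (g.comp (cA (pf k f))).toAlgebra
    have hc : cmap k V = ι.comp ((algebraMap (LA (pf k f)) (LB L e (pf k f))).comp (cA (pf k f))) :=
      rfl
    have hsol := (isU_B L e f).sol.map ι
    have hgf : g (tA (pf k f) f) ∈ maximalIdeal V := by
      rw [← ValuationSubring.coe_mem_nonunits_iff]
      apply hV'
      rw [maxIdeal_eq]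
      exact Ideal.mem_span_singleton_self _
    exact mem_of_dominated V L e f hnl hnc hef (fun i => ι (xB L e f i)) (fun i => ι (vB L e f i))
      hsol.rx hsol.rv (fun i => g (tA (pf k f) i)) hsol.he hsol.hu hgf
      (algInd_of_hom f ((residue V).comp g) rfl)
  constructor
  · intro i
    rw [← isIntegral_algebraMap_iff (B := K) hι]
    exact isIntegral_of_dominating _ fun V h1 h2 => (key V h1 h2).1 i
  · intro i
    rw [← isIntegral_algebraMap_iff (B := K) hι]
    exact isIntegral_of_dominating _ fun V h1 h2 => (key V h1 h2).2 i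

theorem isIntegral_B (hnl : ∃ y ∈ L, y f ≠ 0) (hnc : ∃ a ∈ perp L, a f ≠ 0) (hef : e ≠ f)
    [IsDomain (LB L e (pf k f))] :
    (∀ i, IsIntegral (LA (pf k f)) (xB L e f i)) ∧ ∀ i, IsIntegral (LA (pf k f)) (vB L e f i) :=
  isIntegral_B_aux hnl hnc hef (FractionRing (LB L e (pf k f)))
    (algebraMap (LB L e (pf k f)) (FractionRing (LB L e (pf k f))))
    (IsFractionRing.injective (LB L e (pf k f)) _)

theorem zero_mem_or : Subsingleton (LB L e (pf k f)) ∨
    (pf k f).primeCompl.map (rho0 L e) ≤ nonZeroDivisors (PR L) := by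
  by_cases h : (0 : PR L) ∈ (pf k f).primeCompl.map (rho0 L e)
  · left
    exact IsLocalization.subsingleton (M := (pf k f).primeCompl.map (rho0 L e)) h
  · right
    intro s hs
    rw [mem_nonZeroDivisors_iff_ne_zero]
    rintro rfl
    exact h hs

theorem finite_free (hnl : ∃ y ∈ L, y f ≠ 0) (hnc : ∃ a ∈ perp L, a f ≠ 0) (hef : e ≠ f) :
    Module.Finite (LA (pf k f)) (LB L e (pf k f)) ∧ Module.Free (LA (pf k f)) (LB L e (pf k f)) ∧
    (∀ b : LB L e (pf k f), xB L e f f * b = 0 → b = 0) := by
  rcases zero_mem_or (L := L) (e := e) (f := f) with h | h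
  · refine ⟨inferInstance, inferInstance, fun b _ => Subsingleton.elim _ _⟩
  · have hdom : IsDomain (LB L e (pf k f)) :=
      IsLocalization.isDomain_of_le_nonZeroDivisors (LB L e (pf k f)) h
    have hinj : Function.Injective (algebraMap (PR L) (LB L e (pf k f))) :=
      IsLocalization.injective _ h
    obtain ⟨h1, h2⟩ := isIntegral_B hnl hnc hef
    have hfin : Module.Finite (LA (pf k f)) (LB L e (pf k f)) := by
      have h3 := fg_adjoin_of_finite (R := LA (pf k f))
        (s := Set.range (xB L e f) ∪ Set.range (vB L e f))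
        ((Set.finite_range _).union (Set.finite_range _)) (by
          rintro _ (⟨i, rfl⟩ | ⟨i, rfl⟩)
          · exact h1 i
          · exact h2 i)
      rw [adjoin_eq_top] at h3
      exact ⟨by simpa using h3⟩
    have hx0 : xB L e f f ≠ 0 := fun h0 => xP_ne_zero L hnl (hinj (by rw [map_zero]; exact h0))
    have hv0 : vB L e f f ≠ 0 := fun h0 => vP_ne_zero L hnc (hinj (by rw [map_zero]; exact h0))
    have hpir := pir (k := k) f
    have hker : Function.Injective (algebraMap (LA (pf k f)) (LB L e (pf k f))) := by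
      rw [RingHom.injective_iff_ker_eq_bot]
      by_contra hk
      have hprime : (RingHom.ker (algebraMap (LA (pf k f)) (LB L e (pf k f)))).IsPrime :=
        RingHom.ker_isPrime _
      have hmax := hprime.isMaximal hk
      have h4 := eq_maximalIdeal hmax
      have h5 : tA (pf k f) f ∈ RingHom.ker (algebraMap (LA (pf k f)) (LB L e (pf k f))) := by
        rw [h4, maxIdeal_eq]
        exact Ideal.mem_span_singleton_self _
      rw [RingHom.mem_ker] at h5
      have h6 := (isU_B L e f).sol.hu f hef.symm
      rw [h5] at h6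
      rcases mul_eq_zero.1 h6 with h7 | h7
      · exact hx0 (pow_eq_zero_iff two_ne_zero |>.1 h7)
      · exact hv0 h7
    have htf : Module.IsTorsionFree (LA (pf k f)) (LB L e (pf k f)) := by
      have : FaithfulSMul (LA (pf k f)) (LB L e (pf k f)) :=
        (faithfulSMul_iff_algebraMap_injective _ _).2 hker
      infer_instance
    refine ⟨hfin, ?_, ?_⟩
    · exact Module.free_of_finite_type_torsion_free'
    · intro b hb
      exact (mul_eq_zero.1 hb).resolve_left hx0

end

end Pool.Agent.Y214.RD
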