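import Mathlib
import Pool.Agent.Y214.RD.Loc
import Pool.Agent.Y214.RD.Len

/-!
The deletion contraction recursion for the dimension of the universal algebra.
-/

set_option autoImplicit false

namespace Pool.Agent.Y214.RD

open Module MvPolynomial IsLocalRing

variable {k : Type} [Field k] {E : Type} [Fintype E] [DecidableEq E]

/-- The dimension of the universal algebra over generic parameters is `N`. -/
def HasDeg (L : Submodule k (E → k)) (e : E) (N : ℕ) : Prop :=
  ∀ (K : Type) [Field K] [Algebra k K] (u : E → K), AlgebraicIndependent k u →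
    ∀ (T : Type) [CommRing T] [Algebra K T] (x v : E → T),
      IsU L e (algebraMap k K) u (algebraMap K T) x v → Module.Finite K T ∧ finrank K T = N

attribute [local instance] Ideal.Quotient.field

theorem finrank_rec (L : Submodule k (E → k)) (e f : E) (hnl : ∃ y ∈ L, y f ≠ 0)
    (hnc : ∃ a ∈ perp L, a f ≠ 0) (hef : e ≠ f) (N1 N2 : ℕ)
    (h1 : HasDeg (del L f) ⟨e, hef⟩ N1) (h2 : HasDeg (con L f) ⟨e, hef⟩ N2)
    {A B : Type} [CommRing A] [IsLocalRing A] [CommRing B] [Algebra A B] [Module.Finite A B]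
    [Module.Free A B] (c : k →+* A) (t : E → A) (x v : E → B)
    (hU : IsU L e c t (algebraMap A B) x v) (hm : maximalIdeal A = Ideal.span {t f})
    (hreg : ∀ b, x f * b = 0 → b = 0)
    (hind : ∀ (F : Type) [Field F] [Algebra k F] (g : A →+* F), g.comp c = algebraMap k F →
      AlgebraicIndependent k (fun i : {i // i ≠ f} => g (t i))) :
    finrank A B = N1 + 2 * N2 := by
  have hτf : t f ∈ maximalIdeal A := by
    rw [hm]
    exact Ideal.mem_span_singleton_self _
  have hsolf := hU.sol.hu f hef.symm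
  have hv : ∀ a ∈ maximalIdeal A, algebraMap A (B ⧸ Ideal.span {v f}) a = 0 := by
    intro a ha
    rw [hm] at ha
    obtain ⟨b, rfl⟩ := Ideal.mem_span_singleton'.1 ha
    rw [map_mul]
    have : algebraMap A (B ⧸ Ideal.span {v f}) (t f) = 0 := by
      show Ideal.Quotient.mk _ (algebraMap A B (t f)) = 0
      rw [← hsolf, Ideal.Quotient.eq_zero_iff_mem]
      exact Ideal.mem_span_singleton'.2 ⟨_, rfl⟩
    rw [this, mul_zero]
  have hx : ∀ a ∈ maximalIdeal A, algebraMap A (B ⧸ Ideal.span {x f}) a = 0 := by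
    intro a ha
    rw [hm] at ha
    obtain ⟨b, rfl⟩ := Ideal.mem_span_singleton'.1 ha
    rw [map_mul]
    have : algebraMap A (B ⧸ Ideal.span {x f}) (t f) = 0 := by
      show Ideal.Quotient.mk _ (algebraMap A B (t f)) = 0
      rw [← hsolf, Ideal.Quotient.eq_zero_iff_mem]
      exact Ideal.mem_span_singleton'.2 ⟨x f * v f, by ring⟩
    rw [this, mul_zero]
  let ρv : A ⧸ maximalIdeal A →+* B ⧸ Ideal.span {v f} := Ideal.Quotient.lift _ _ hv
  let ρx : A ⧸ maximalIdeal A →+* B ⧸ Ideal.span {x f} := Ideal.Quotient.lift _ _ hx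
  let _ : Algebra (A ⧸ maximalIdeal A) (B ⧸ Ideal.span {v f}) := ρv.toAlgebra
  let _ : Algebra (A ⧸ maximalIdeal A) (B ⧸ Ideal.span {x f}) := ρx.toAlgebra
  have : IsScalarTower A (A ⧸ maximalIdeal A) (B ⧸ Ideal.span {v f}) :=
    IsScalarTower.of_algebraMap_eq fun _ => rfl
  have : IsScalarTower A (A ⧸ maximalIdeal A) (B ⧸ Ideal.span {x f}) :=
    IsScalarTower.of_algebraMap_eq fun _ => rfl
  rw [finrank_formula (t f) hm (x f) (v f) hsolf.symm hreg]
  let _ : Algebra k (A ⧸ maximalIdeal A) :=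
    ((Ideal.Quotient.mk (maximalIdeal A)).comp c).toAlgebra
  have hind' := hind _ (Ideal.Quotient.mk (maximalIdeal A)) rfl
  have hdel := hU.del hef hnc (maximalIdeal A) hm ρv rfl
  have hcon := hU.con hef hnl (maximalIdeal A) hm ρx rfl
  have h7 := h1 (A ⧸ maximalIdeal A) _ hind' _ _ _ hdel
  have h8 := h2 (A ⧸ maximalIdeal A) _ hind' _ _ _ hcon
  rw [h7.2, h8.2]

theorem hasDeg_rec (L : Submodule k (E → k)) (e f : E) (hnl : ∃ y ∈ L, y f ≠ 0)
    (hnc : ∃ a ∈ perp L, a f ≠ 0) (hef : e ≠ f) (N1 N2 : ℕ)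
    (h1 : HasDeg (del L f) ⟨e, hef⟩ N1) (h2 : HasDeg (con L f) ⟨e, hef⟩ N2) :
    HasDeg L e (N1 + 2 * N2) := by
  intro K _ _ u hu T _ _ x v hT
  obtain ⟨hfin, hfree, hreg⟩ := finite_free (L := L) (e := e) (f := f) hnl hnc hef
  -- the map to the field
  have hinj : Function.Injective (aeval u : MvPolynomial E k →ₐ[k] K) := hu
  have hunit : ∀ s : (pf k f).primeCompl, IsUnit ((aeval u : MvPolynomial E k →ₐ[k] K) s) := by
    intro s
    rw [isUnit_iff_ne_zero]
    intro h0
    have h3 : (s : MvPolynomial E k) = 0 := hinj (by rw [h0, map_zero])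
    exact s.2 (by rw [h3]; exact Ideal.zero_mem _)
  let g : LA (pf k f) →+* K :=
    IsLocalization.lift (M := (pf k f).primeCompl) (g := (aeval u : MvPolynomial E k →ₐ[k] K).toRingHom)
      hunit
  have hg : ∀ a, g (algebraMap _ _ a) = aeval u a := fun a => IsLocalization.lift_eq _ a
  have hgc : g.comp (cA (pf k f)) = algebraMap k K := by
    ext a
    simp only [RingHom.comp_apply, cA, hg]
    simp
  have hgt : (fun i => g (tA (pf k f) i)) = u := by
    funext i
    rw [tA, hg, aeval_X]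
  let _ : Algebra (LA (pf k f)) K := g.toAlgebra
  have hbc := (isU_B L e f).baseChange (R' := K)
  have h3 : (algebraMap (LA (pf k f)) K).comp (cA (pf k f)) = algebraMap k K := hgc
  have h4 : (fun i => algebraMap (LA (pf k f)) K (tA (pf k f) i)) = u := hgt
  rw [h3, h4] at hbc
  obtain ⟨h5, h6⟩ := hbc.finrank_eq hT
  refine ⟨h6 inferInstance, ?_⟩
  rw [← h5, Module.finrank_baseChange]
  exact finrank_rec L e f hnl hnc hef N1 N2 h1 h2 _ _ _ _ (isU_B L e f) (maxIdeal_eq f) hreg
    (fun F _ _ g hg => algInd_of_hom f g hg)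

end Pool.Agent.Y214.RD
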