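import Mathlib
import Pool.Agent.Y214.RD.Rec
import Pool.Agent.Y214.RD.Beta

/-!
The dimension of the universal algebra in terms of the beta invariant.
-/

set_option autoImplicit false

namespace Pool.Agent.Y214.RD

open Module MvPolynomial

theorem sum_single_mul {E : Type} [Fintype E] [DecidableEq E] {T : Type} [CommRing T] {k : Type}
    [Field k] (c : k →+* T) (f : E) (x : E → T) :
    ∑ i, c ((Pi.single f 1 : E → k) i) * x i = x f := by
  rw [Finset.sum_eq_single f]
  · simp
  · intro i _ hi
    rw [Pi.single_apply, if_neg hi, map_zero, zero_mul]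
  · simp

variable {k : Type} [Field k]

theorem hasDeg_zero {E : Type} [Fintype E] (L : Submodule k (E → k)) (e : E)
    (h : ∀ (K : Type) [Field K] [Algebra k K] (u : E → K), AlgebraicIndependent k u →
      ∀ (T : Type) [CommRing T] [Algebra K T] (x v : E → T),
      IsU L e (algebraMap k K) u (algebraMap K T) x v → ∃ i, algebraMap K T (u i) = 0) :
    HasDeg L e 0 := by
  intro K _ _ u hu T _ _ x v hT
  obtain ⟨i, hi⟩ := h K u hu T x v hT
  have h1 : (1 : T) = 0 := by
    have h2 : algebraMap K T ((u i)⁻¹ * u i) = 0 := by rw [map_mul, hi, mul_zero]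
    rwa [inv_mul_cancel₀ (hu.ne_zero i), map_one] at h2
  have h3 : Subsingleton T := subsingleton_of_zero_eq_one h1.symm
  exact ⟨inferInstance, Module.finrank_zero_of_subsingleton⟩

theorem hasDeg_loop {E : Type} [Fintype E] [DecidableEq E] (L : Submodule k (E → k)) (e f : E)
    (hl : ∀ y ∈ L, y f = 0) : HasDeg L e 0 := by
  apply hasDeg_zero
  intro K _ _ u hu T _ _ x v hT
  have h1 : (Pi.single f 1 : E → k) ∈ perp L := by
    intro y hy
    have := sum_single_mul (RingHom.id k) f y
    simp only [RingHom.id_apply] at this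
    rw [this, hl y hy]
  have h2 := hT.sol.rx _ h1
  rw [sum_single_mul] at h2
  by_cases hfe : f = e
  · refine ⟨e, ?_⟩
    rw [← hT.sol.he, ← hfe, h2]
  · refine ⟨f, ?_⟩
    rw [← hT.sol.hu f hfe, h2]
    ring

theorem hasDeg_coloop {E : Type} [Fintype E] [DecidableEq E] (L : Submodule k (E → k)) (e f : E)
    (hfe : f ≠ e) (hc : Pi.single f 1 ∈ L) : HasDeg L e 0 := by
  apply hasDeg_zero
  intro K _ _ u hu T _ _ x v hT
  have h2 := hT.sol.rv _ hc
  rw [sum_single_mul] at h2
  refine ⟨f, ?_⟩
  rw [← hT.sol.hu f hfe, h2, mul_zero]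

theorem hasDeg_one {E : Type} [Fintype E] [DecidableEq E] (L : Submodule k (E → k)) (e : E)
    (hE : ∀ i, i = e) (hl : ∃ y ∈ L, y e ≠ 0) : HasDeg L e 1 := by
  intro K _ _ u hu T _ _ x v hT
  obtain ⟨y, hy, hye⟩ := hl
  have hsum : ∀ {M : Type} [AddCommMonoid M] (F : E → M), ∑ i, F i = F e := by
    intro M _ F
    apply Finset.sum_eq_single e
    · intro i _ hi
      exact absurd (hE i) hi
    · simp
  have hK : IsU L e (algebraMap k K) u (algebraMap K K) (fun _ => u e) (fun _ => 0) := by
    refine ⟨⟨?_, ?_, ?_, ?_⟩, ?_, ?_⟩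
    · intro a ha
      have h1 := ha y hy
      rw [hsum] at h1
      rw [hsum, (mul_eq_zero.1 h1).resolve_right hye, map_zero, zero_mul]
    · intro a _
      simp
    · rfl
    · intro i hi
      exact absurd (hE i) hi
    · intro T' _ ρ' x' v' h'
      refine ⟨ρ', rfl, ?_, ?_⟩
      · intro i
        rw [hE i]
        exact h'.he.symm
      · intro i
        have h1 := h'.rv y hy
        rw [hsum] at h1
        have h2 : (ρ'.comp (algebraMap k K)) (y e)⁻¹ * (ρ'.comp (algebraMap k K)) (y e) = 1 := by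
          rw [← map_mul, inv_mul_cancel₀ hye, map_one]
        rw [map_zero, hE i]
        have h3 : v' e = (ρ'.comp (algebraMap k K)) (y e)⁻¹ *
            ((ρ'.comp (algebraMap k K)) (y e) * v' e) := by
          rw [← mul_assoc, h2, one_mul]
        rw [h3, h1, mul_zero]
    · intro T' _ φ ψ h _ _
      exact h
  obtain ⟨h1, h2⟩ := hK.finrank_eq hT
  exact ⟨h2 inferInstance, by rw [← h1, Module.finrank_self]⟩

theorem bInv_one {E : Type} [Fintype E] [DecidableEq E] (L : Submodule k (E → k)) (e : E)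
    (hE : ∀ i, i = e) (hl : ∃ y ∈ L, y e ≠ 0) : finrank k L = 1 ∧ bInv L = 1 := by
  have h1 := finrank_inf_van L e hl
  have h2 : L ⊓ van k {e} = ⊥ := by
    rw [eq_bot_iff]
    intro y hy
    rw [Submodule.mem_bot]
    funext i
    rw [hE i]
    exact hy.2 e rfl
  rw [h2, finrank_bot] at h1
  have hemp : IsEmpty {i // i ≠ e} := ⟨fun i => i.2 (hE i)⟩
  refine ⟨by omega, ?_⟩
  have h3 : zr L (∅ : Finset E) = 1 := by
    rw [zr]
    have : L ⊓ van k ((∅ : Finset E) : Set E) = L := by
      rw [inf_eq_left]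
      intro y _ i hi
      simp at hi
    rw [this]
    omega
  have h4 : zr L ({e} : Finset E) = 0 := by
    rw [zr, Finset.coe_singleton, h2, finrank_bot]
  rw [bInv, sum_finset_split e, Fintype.sum_eq_single (∅ : Finset {i // i ≠ e})]
  · simp [h3, h4]
  · intro S hS
    exact absurd (Finset.eq_empty_of_isEmpty S) hS

theorem exists_hasDeg : ∀ (n : ℕ) (E : Type) [Fintype E] [DecidableEq E], Fintype.card E = n →
    ∀ (L : Submodule k (E → k)) (e : E), ∃ N : ℕ, HasDeg L e N ∧
      2 * (N : ℤ) = - (-2) ^ (finrank k L) * bInv L := by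
  intro n
  induction n with
  | zero =>
    intro E _ _ hn L e
    rw [Fintype.card_eq_zero_iff] at hn
    exact hn.elim e
  | succ n ih =>
    intro E _ _ hn L e
    by_cases hE : ∀ i, i = e
    · by_cases hl : ∀ y ∈ L, y e = 0
      · exact ⟨0, hasDeg_loop L e e hl, by rw [bInv_loop hl]; simp⟩
      · push Not at hl
        obtain ⟨h1, h2⟩ := bInv_one L e hE hl
        refine ⟨1, hasDeg_one L e hE hl, ?_⟩
        rw [h1, h2]
        norm_num
    · push Not at hE
      obtain ⟨f, hfe⟩ := hE
      by_cases hl : ∀ y ∈ L, y f = 0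
      · exact ⟨0, hasDeg_loop L e f hl, by rw [bInv_loop hl]; simp⟩
      by_cases hc : ∀ a ∈ perp L, a f = 0
      · have hc' : Pi.single f 1 ∈ L := by
          rw [← perp_perp L]
          intro a ha
          have := sum_single_mul (RingHom.id k) f a
          simp only [RingHom.id_apply] at this
          rw [this, hc a ha]
        exact ⟨0, hasDeg_coloop L e f hfe hc', by rw [bInv_coloop hfe.symm hc']; simp⟩
      push Not at hl hc
      have hcard : Fintype.card {i // i ≠ f} = n := by
        rw [Fintype.card_subtype_compl]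
        simp [hn]
      obtain ⟨N1, h1, h1'⟩ := ih {i // i ≠ f} hcard (del L f) ⟨e, hfe.symm⟩
      obtain ⟨N2, h2, h2'⟩ := ih {i // i ≠ f} hcard (con L f) ⟨e, hfe.symm⟩
      refine ⟨N1 + 2 * N2, hasDeg_rec L e f hl hc hfe.symm N1 N2 h1 h2, ?_⟩
      have h3 := finrank_con hl
      rw [finrank_del hc] at h1'
      rw [bInv_rec hc]
      push_cast
      rw [mul_add, h1', ← h3, pow_succ]
      linear_combination 2 * h2'

end Pool.Agent.Y214.RD
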