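import Mathlib
import Pool.Agent.Y214.RD.Deg

/-!
Connected matroids: the alternating sum does not vanish.
-/

set_option autoImplicit false

namespace Pool.Agent.Y214.RD

open Module

variable {k : Type} [Field k] {E : Type} [Fintype E] [DecidableEq E]

/-- Connectedness in terms of the vanishing dimensions. -/
def Conn (L : Submodule k (E → k)) : Prop :=
  ∀ S : Finset E, S.Nonempty → Sᶜ.Nonempty → zr L S + zr L Sᶜ < finrank k L

theorem zr_super (L : Submodule k (E → k)) (S T : Finset E) :
    zr L S + zr L T ≤ zr L (S ∩ T) + zr L (S ∪ T) := by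
  have h1 := Submodule.finrank_sup_add_finrank_inf_eq (L ⊓ van k (S : Set E))
    (L ⊓ van k (T : Set E))
  have h2 : (L ⊓ van k (S : Set E)) ⊓ (L ⊓ van k (T : Set E)) =
      L ⊓ van k ((S ∪ T : Finset E) : Set E) := by
    ext y
    simp only [Submodule.mem_inf, mem_van, Finset.coe_union, Set.mem_union]
    constructor
    · rintro ⟨⟨h, h3⟩, _, h4⟩
      refine ⟨h, fun i hi => ?_⟩
      rcases hi with hi | hi
      · exact h3 i hi
      · exact h4 i hi
    · rintro ⟨h, h3⟩
      exact ⟨⟨h, fun i hi => h3 i (Or.inl hi)⟩, h, fun i hi => h3 i (Or.inr hi)⟩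
  have h3 : (L ⊓ van k (S : Set E)) ⊔ (L ⊓ van k (T : Set E)) ≤
      L ⊓ van k ((S ∩ T : Finset E) : Set E) := by
    apply sup_le
    · rintro y ⟨hy, hy'⟩
      refine ⟨hy, fun i hi => hy' i ?_⟩
      simp only [Finset.coe_inter, Set.mem_inter_iff] at hi
      exact hi.1
    · rintro y ⟨hy, hy'⟩
      refine ⟨hy, fun i hi => hy' i ?_⟩
      simp only [Finset.coe_inter, Set.mem_inter_iff] at hi
      exact hi.2
  have h4 := Submodule.finrank_mono h3
  rw [h2] at h1
  simp only [zr]
  omega

theorem zr_mono (L : Submodule k (E → k)) {S T : Finset E} (h : S ⊆ T) : zr L T ≤ zr L S := by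
  apply Submodule.finrank_mono
  rintro y ⟨hy, hy'⟩
  exact ⟨hy, fun i hi => hy' i (h hi)⟩

/-- Complements in the subtype. -/
theorem map_compl (f : E) (S : Finset {i // i ≠ f}) :
    (S.map (Function.Embedding.subtype _) : Finset E)ᶜ =
      insert f (Sᶜ.map (Function.Embedding.subtype _)) := by
  ext i
  simp only [Finset.mem_compl, Finset.mem_map, Function.Embedding.subtype_apply, Finset.mem_insert]
  constructor
  · intro h
    by_cases hi : i = f
    · exact Or.inl hi
    · right
      refine ⟨⟨i, hi⟩, ?_, rfl⟩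
      intro h'
      exact h ⟨⟨i, hi⟩, h', rfl⟩
  · rintro (rfl | ⟨j, hj, rfl⟩)
    · rintro ⟨j, _, hj⟩
      exact j.2 hj
    · rintro ⟨l, hl, hlj⟩
      rw [Subtype.ext hlj] at hl
      exact hj hl

theorem conn_noncoloop {L : Submodule k (E → k)} (hL : Conn L) (hE : 1 < Fintype.card E) (f : E) :
    (∃ y ∈ L, y f ≠ 0) ∧ ∃ a ∈ perp L, a f ≠ 0 := by
  have hne : ({f} : Finset E)ᶜ.Nonempty := by
    rw [← Finset.card_pos, Finset.card_compl, Finset.card_singleton]
    omega
  have h := hL {f} ⟨f, Finset.mem_singleton_self _⟩ hne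
  constructor
  · by_contra hl
    push Not at hl
    have : zr L {f} = finrank k L := by
      rw [zr]
      have h2 : L ⊓ van k (({f} : Finset E) : Set E) = L := by
        rw [inf_eq_left]
        intro y hy i hi
        simp only [Finset.coe_singleton, Set.mem_singleton_iff] at hi
        rw [hi]
        exact hl y hy
      rw [h2]
    omega
  · by_contra hc
    push Not at hc
    have hc' : (Pi.single f 1 : E → k) ∈ L := by
      rw [← perp_perp L]
      intro a ha
      have := sum_single_mul (RingHom.id k) f a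
      simp only [RingHom.id_apply] at this
      rw [this, hc a ha]
    have h1 : zr L {f} + 1 = finrank k L := by
      rw [zr, Finset.coe_singleton]
      exact finrank_inf_van L f ⟨_, hc', by simp⟩
    have h2 := zr_insert_coloop hc' ({f} : Finset E)ᶜ (by simp)
    omega

theorem tutte {L : Submodule k (E → k)} (hL : Conn L) (hE : 1 < Fintype.card E) (f : E) :
    Conn (del L f) ∨ Conn (con L f) := by
  obtain ⟨hnl, hnc⟩ := conn_noncoloop hL hE f
  by_contra hcon
  rw [not_or] at hcon
  obtain ⟨h1, h2⟩ := hcon
  rw [Conn] at h1 h2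
  push Not at h1 h2
  obtain ⟨A, hA, hB, h1⟩ := h1
  obtain ⟨C, hC, hD, h2⟩ := h2
  rw [finrank_del hnc, zr_del hnc, zr_del hnc] at h1
  have h3 := finrank_con hnl
  rw [zr_con, zr_con] at h2
  set m : Finset {i // i ≠ f} → Finset E := fun S => S.map (Function.Embedding.subtype _) with hm
  have key : ∀ A C : Finset {i // i ≠ f},
      finrank k L ≤ zr L (m A) + zr L (m Aᶜ) →
      finrank k (con L f) ≤ zr L (insert f (m C)) + zr L (insert f (m Cᶜ)) →
      A ∩ C = ∅ ∨ Aᶜ ∩ Cᶜ = ∅ := by
    intro A C h1 h2
    by_contra hcon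
    rw [not_or] at hcon
    obtain ⟨h4, h5⟩ := hcon
    have h6 : ∀ A C : Finset {i // i ≠ f}, A ∩ C ≠ ∅ →
        zr L (m A) + zr L (insert f (m C)) + 1 ≤ finrank k L + zr L (m A ∪ insert f (m C)) -
          zr L (insert f (m (A ∩ C)ᶜ)) := by
      intro A C hAC
      have h7 := zr_super L (m A) (insert f (m C))
      have h8 : m A ∩ insert f (m C) = m (A ∩ C) := by
        ext i
        simp only [hm, Finset.mem_inter, Finset.mem_insert, Finset.mem_map,
          Function.Embedding.subtype_apply]
        constructor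
        · rintro ⟨⟨j, hj, rfl⟩, h | ⟨l, hl, hlj⟩⟩
          · exact absurd h j.2
          · rw [Subtype.ext hlj] at hl
            exact ⟨j, ⟨hj, hl⟩, rfl⟩
        · rintro ⟨j, ⟨hj, hj'⟩, rfl⟩
          exact ⟨⟨j, hj, rfl⟩, Or.inr ⟨j, hj', rfl⟩⟩
      have h9 := hL (m (A ∩ C)) (by
        rw [Finset.map_nonempty]
        exact Finset.nonempty_iff_ne_empty.2 hAC) (by
        rw [map_compl]
        exact ⟨f, Finset.mem_insert_self _ _⟩)
      rw [map_compl] at h9
      rw [h8] at h7
      have h10 : zr L (insert f (m (A ∩ C)ᶜ)) + zr L (m (A ∩ C)) < finrank k L := by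
        rw [add_comm]
        exact h9
      omega
    have h7 := h6 A C h4
    have h8 := h6 Aᶜ Cᶜ h5
    have h9 : m A ∪ insert f (m C) = insert f (m (Aᶜ ∩ Cᶜ)ᶜ) := by
      ext i
      simp only [hm, Finset.mem_union, Finset.mem_insert, Finset.mem_map,
        Function.Embedding.subtype_apply, Finset.mem_compl, Finset.mem_inter]
      constructor
      · rintro (⟨j, hj, rfl⟩ | h | ⟨j, hj, rfl⟩)
        · exact Or.inr ⟨j, fun h => h.1 hj, rfl⟩
        · exact Or.inl h
        · exact Or.inr ⟨j, fun h => h.2 hj, rfl⟩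
      · rintro (h | ⟨j, hj, rfl⟩)
        · exact Or.inr (Or.inl h)
        · by_cases h : j ∈ A
          · exact Or.inl ⟨j, h, rfl⟩
          · right
            right
            refine ⟨j, ?_, rfl⟩
            by_contra h'
            exact hj ⟨h, h'⟩
    have h10 : m Aᶜ ∪ insert f (m Cᶜ) = insert f (m (A ∩ C)ᶜ) := by
      ext i
      simp only [hm, Finset.mem_union, Finset.mem_insert, Finset.mem_map,
        Function.Embedding.subtype_apply, Finset.mem_compl, Finset.mem_inter]
      constructor
      · rintro (⟨j, hj, rfl⟩ | h | ⟨j, hj, rfl⟩)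
        · exact Or.inr ⟨j, fun h => hj h.1, rfl⟩
        · exact Or.inl h
        · exact Or.inr ⟨j, fun h => hj h.2, rfl⟩
      · rintro (h | ⟨j, hj, rfl⟩)
        · exact Or.inr (Or.inl h)
        · by_cases h : j ∈ A
          · right
            right
            exact ⟨j, fun h' => hj ⟨h, h'⟩, rfl⟩
          · exact Or.inl ⟨j, h, rfl⟩
    rw [h9] at h7
    rw [h10] at h8
    omega
  have k1 := key A C h1 h2
  have k2 := key A Cᶜ h1 (by rw [compl_compl, add_comm]; exact h2)
  rw [compl_compl] at k2
  have eA : ∀ A C : Finset {i // i ≠ f}, A ∩ C = ∅ → A ∩ Cᶜ = ∅ → A = ∅ := by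
    intro A C h h'
    ext i
    constructor
    · intro hi
      by_cases hc : i ∈ C
      · rw [← h]
        exact Finset.mem_inter.2 ⟨hi, hc⟩
      · rw [← h']
        exact Finset.mem_inter.2 ⟨hi, Finset.mem_compl.2 hc⟩
    · intro hi
      simp at hi
  rcases k1 with h4 | h4 <;> rcases k2 with h5 | h5
  · exact hA.ne_empty (eA A C h4 h5)
  · exact hC.ne_empty (eA C A (by rwa [Finset.inter_comm]) (by rwa [Finset.inter_comm]))
  · exact hD.ne_empty (eA Cᶜ A (by rwa [Finset.inter_comm]) (by rwa [Finset.inter_comm]))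
  · exact hB.ne_empty (eA Aᶜ C h5 h4)

/-- The beta invariant up to the usual sign. -/
noncomputable def beta (L : Submodule k (E → k)) : ℤ := -(-1) ^ finrank k L * bInv L

theorem beta_nonneg (L : Submodule k (E → k)) (e : E) : 0 ≤ beta L := by
  obtain ⟨N, _, hN⟩ := exists_hasDeg (Fintype.card E) E rfl L e
  have h1 : 2 * (N : ℤ) = 2 ^ finrank k L * beta L := by
    rw [hN, beta, neg_pow (2 : ℤ)]
    ring
  by_contra h
  push Not at h
  have h2 : (2 : ℤ) ^ finrank k L * beta L < 0 := mul_neg_of_pos_of_neg (by positivity) h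
  omega

theorem beta_rec {L : Submodule k (E → k)} {f : E} (hnl : ∃ y ∈ L, y f ≠ 0)
    (hnc : ∃ a ∈ perp L, a f ≠ 0) : beta L = beta (del L f) + beta (con L f) := by
  rw [beta, beta, beta, bInv_rec hnc, finrank_del hnc, ← finrank_con hnl, pow_succ]
  ring

theorem beta_pos : ∀ (n : ℕ) (E : Type) [Fintype E] [DecidableEq E], Fintype.card E = n →
    ∀ (L : Submodule k (E → k)), Nonempty E → Conn L → 0 < finrank k L → 0 < beta L := by
  intro n
  induction n with
  | zero =>
    intro E _ _ hn L hne
    rw [Fintype.card_eq_zero_iff] at hn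
    exact hn.elim hne.some
  | succ n ih =>
    intro E _ _ hn L hne hconn hL
    obtain ⟨e⟩ := hne
    by_cases hE : ∀ i, i = e
    · have hl : ∃ y ∈ L, y e ≠ 0 := by
        by_contra hl
        push Not at hl
        have : L = ⊥ := by
          rw [eq_bot_iff]
          intro y hy
          rw [Submodule.mem_bot]
          funext i
          rw [hE i]
          exact hl y hy
        rw [this, finrank_bot] at hL
        exact absurd hL (lt_irrefl 0)
      obtain ⟨h1, h2⟩ := bInv_one L e hE hl
      rw [beta, h1, h2]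
      norm_num
    · push Not at hE
      obtain ⟨f, hfe⟩ := hE
      have hcard : 1 < Fintype.card E := Fintype.one_lt_card_iff.2 ⟨f, e, hfe⟩
      obtain ⟨hnl, hnc⟩ := conn_noncoloop hconn hcard f
      have hcard' : Fintype.card {i // i ≠ f} = n := by
        rw [Fintype.card_subtype_compl]
        simp [hn]
      have hne' : Nonempty {i // i ≠ f} := ⟨⟨e, hfe.symm⟩⟩
      rw [beta_rec hnl hnc]
      have n1 := beta_nonneg (del L f) ⟨e, hfe.symm⟩
      have n2 := beta_nonneg (con L f) ⟨e, hfe.symm⟩
      by_cases hn1 : n = 1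
      · have hdc : Conn (del L f) := by
          intro S hS hS'
          have h3 := Finset.card_compl S
          have h4 := hS.card_pos
          have h5 := hS'.card_pos
          omega
        have := ih _ hcard' (del L f) hne' hdc (by rw [finrank_del hnc]; exact hL)
        omega
      · rcases tutte hconn hcard f with h | h
        · have := ih _ hcard' (del L f) hne' h (by rw [finrank_del hnc]; exact hL)
          omega
        · have hn2 : 1 < Fintype.card {i // i ≠ f} := by
            have : 0 < Fintype.card {i // i ≠ f} := Fintype.card_pos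
            omega
          have hpos : 0 < finrank k (con L f) := by
            have h3 := h {⟨e, hfe.symm⟩} ⟨_, Finset.mem_singleton_self _⟩ (by
              rw [← Finset.card_pos, Finset.card_compl, Finset.card_singleton]
              omega)
            omega
          have := ih _ hcard' (con L f) hne' h hpos
          omega

end Pool.Agent.Y214.RD
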