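import Mathlib
import Pool.Agent.Y214.RD.Conn

/-!
The generic fibre: a finite field extension of the rational function field.
-/

set_option autoImplicit false

namespace Pool.Agent.Y214.RD

open Module MvPolynomial

variable {k : Type} [Field k] {E : Type} [Fintype E] [DecidableEq E]
  (L : Submodule k (E → k)) (e : E)

/-- The localisation of the coordinate ring at the nonzero parameters. -/
abbrev RT : Type := Localization ((nonZeroDivisors (MvPolynomial E k)).map (rho0 L e))

/-- The rational function field in the parameters. -/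
abbrev K0 (k : Type) [Field k] (E : Type) : Type := FractionRing (MvPolynomial E k)

/-- The structure map. -/
noncomputable def rhoT : K0 k E →+* RT L e :=
  IsLocalization.lift (M := nonZeroDivisors (MvPolynomial E k))
    (g := (algebraMap (PR L) (RT L e)).comp (rho0 L e))
    fun s => IsLocalization.map_units (RT L e) (⟨rho0 L e s, s, s.2, rfl⟩ :
      (nonZeroDivisors (MvPolynomial E k)).map (rho0 L e))

theorem rhoT_algebraMap (a : MvPolynomial E k) :
    rhoT L e (algebraMap _ (K0 k E) a) = algebraMap (PR L) (RT L e) (rho0 L e a) := by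
  rw [rhoT, IsLocalization.lift_eq]
  rfl

theorem isU_T : IsU L e (algebraMap k (K0 k E))
    (fun i => algebraMap (MvPolynomial E k) (K0 k E) (X i)) (rhoT L e)
    (fun i => algebraMap (PR L) (RT L e) (xP L i))
    (fun i => algebraMap (PR L) (RT L e) (vP L i)) := by
  have hk : algebraMap k (K0 k E) = (algebraMap (MvPolynomial E k) (K0 k E)).comp C := by
    ext a
    rw [IsScalarTower.algebraMap_apply k (MvPolynomial E k) (K0 k E)]
    rfl
  have hc : (rhoT L e).comp (algebraMap k (K0 k E)) = (algebraMap (PR L) (RT L e)).comp C := by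
    rw [hk]
    ext a
    simp only [RingHom.comp_apply, rhoT_algebraMap, rho0_C]
  refine ⟨?_, ?_, ?_⟩
  · have h := (sol_PR L e).map (algebraMap (PR L) (RT L e))
    rw [hc]
    convert h using 1
    funext i
    rw [rhoT_algebraMap, rho0_X]
  · intro T' _ ρ' x' v' h'
    obtain ⟨φ0, hφc, hφx, hφv⟩ := exists_hom L _ x' v' h'.rx h'.rv
    have h1 : φ0.comp (rho0 L e) = ρ'.comp (algebraMap _ (K0 k E)) := by
      apply MvPolynomial.ringHom_ext
      · intro a
        rw [RingHom.comp_apply, rho0_C]
        have := RingHom.congr_fun hφc a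
        rw [hk] at this
        exact this
      · intro i
        rw [RingHom.comp_apply, rho0_X, tP]
        split_ifs with hi
        · rw [hφx, h'.he, hi]
          rfl
        · rw [map_mul, map_pow, hφx, hφv, h'.hu i hi]
          rfl
    have h2 : ∀ s : (nonZeroDivisors (MvPolynomial E k)).map (rho0 L e), IsUnit (φ0 s) := by
      rintro ⟨_, s, hs, rfl⟩
      have h3 : φ0 (rho0 L e s) = ρ' (algebraMap _ (K0 k E) s) := RingHom.congr_fun h1 s
      show IsUnit (φ0 (rho0 L e s))
      rw [h3]
      exact (IsLocalization.map_units (K0 k E)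
        (⟨s, hs⟩ : nonZeroDivisors (MvPolynomial E k))).map ρ'
    refine ⟨IsLocalization.lift (M := (nonZeroDivisors (MvPolynomial E k)).map (rho0 L e)) h2,
      ?_, ?_, ?_⟩
    · apply IsLocalization.ringHom_ext (nonZeroDivisors (MvPolynomial E k))
      ext a
      · simp only [RingHom.comp_apply, rhoT_algebraMap, IsLocalization.lift_eq]
        exact RingHom.congr_fun h1 (C a)
      · simp only [RingHom.comp_apply, rhoT_algebraMap, IsLocalization.lift_eq]
        exact RingHom.congr_fun h1 _
    · intro i
      rw [IsLocalization.lift_eq, hφx]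
    · intro i
      rw [IsLocalization.lift_eq, hφv]
  · intro T' _ φ ψ hρ hx hv
    apply IsLocalization.ringHom_ext ((nonZeroDivisors (MvPolynomial E k)).map (rho0 L e))
    apply hom_ext
    · rw [RingHom.comp_assoc, RingHom.comp_assoc, ← hc, ← RingHom.comp_assoc, hρ,
        RingHom.comp_assoc]
    · exact hx
    · exact hv

theorem algInd_K0 : AlgebraicIndependent k
    (fun i => algebraMap (MvPolynomial E k) (K0 k E) (X i)) := by
  have h1 : AlgebraicIndependent k (X : E → MvPolynomial E k) :=
    MvPolynomial.algebraicIndependent_X E k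
  exact h1.map' (f := IsScalarTower.toAlgHom k (MvPolynomial E k) (K0 k E))
    (IsFractionRing.injective (MvPolynomial E k) (K0 k E))

/-- A finite field extension containing the coordinate ring. -/
structure GenField (N : ℕ) (T : Type) [Field T] [Algebra (K0 k E) T] (π : PR L →+* T) : Prop where
  inj : Function.Injective π
  comp : ∀ r, π (rho0 L e r) = algebraMap (K0 k E) T (algebraMap _ _ r)
  fin : Module.Finite (K0 k E) T
  rank : finrank (K0 k E) T = N
  gen : Algebra.adjoin (K0 k E) (Set.range (fun i => π (xP L i)) ∪
    Set.range (fun i => π (vP L i))) = ⊤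

theorem exists_genField (N : ℕ) (hN : 0 < N) (h : HasDeg L e N) :
    ∃ (T : Type) (_ : Field T) (_ : Algebra (K0 k E) T) (π : PR L →+* T), GenField L e N T π := by
  let alg : Algebra (K0 k E) (RT L e) := (rhoT L e).toAlgebra
  obtain ⟨hfin, hrank⟩ := h (K0 k E) _ algInd_K0 (RT L e) _ _ (isU_T L e)
  have hnt : Nontrivial (RT L e) := by
    by_contra hnt
    rw [not_nontrivial_iff_subsingleton] at hnt
    have := Module.finrank_zero_of_subsingleton (R := K0 k E) (M := RT L e)
    omega
  have hM : (nonZeroDivisors (MvPolynomial E k)).map (rho0 L e) ≤ nonZeroDivisors (PR L) := by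
    intro s hs
    rw [mem_nonZeroDivisors_iff_ne_zero]
    rintro rfl
    have hsub := IsLocalization.subsingleton (S := RT L e)
      (M := (nonZeroDivisors (MvPolynomial E k)).map (rho0 L e)) hs
    exact not_subsingleton _ hsub
  have hdom : IsDomain (RT L e) := IsLocalization.isDomain_of_le_nonZeroDivisors (RT L e) hM
  have hinj : Function.Injective (algebraMap (PR L) (RT L e)) := IsLocalization.injective _ hM
  have hint : Algebra.IsIntegral (K0 k E) (RT L e) := Algebra.IsIntegral.of_finite _ _
  have hfield : IsField (RT L e) :=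
    isField_of_isIntegral_of_isField' (R := K0 k E) (Field.toIsField (K0 k E))
  let fT : Field (RT L e) := hfield.toField
  refine ⟨RT L e, fT, alg, algebraMap (PR L) (RT L e), ⟨hinj, ?_, hfin, hrank, ?_⟩⟩
  · intro r
    exact (rhoT_algebraMap L e r).symm
  · set W := Algebra.adjoin (K0 k E) (Set.range (fun i => algebraMap (PR L) (RT L e) (xP L i)) ∪
      Set.range (fun i => algebraMap (PR L) (RT L e) (vP L i))) with hW
    have hC : ∀ a : k, algebraMap (PR L) (RT L e) (C a) ∈ W := by
      intro a
      have h1 : algebraMap (PR L) (RT L e) (C a) =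
          algebraMap (K0 k E) (RT L e) (algebraMap (MvPolynomial E k) (K0 k E) (C a)) := by
        rw [← rho0_C L e a]
        exact (rhoT_algebraMap L e (C a)).symm
      rw [h1]
      exact W.algebraMap_mem _
    have hP : ∀ q : PR L, algebraMap (PR L) (RT L e) q ∈ W := by
      intro q
      induction q using MvPolynomial.induction_on with
      | C a => exact hC a
      | add a b ha hb =>
        rw [map_add]
        exact W.add_mem ha hb
      | mul_X a i ha =>
        rw [map_mul]
        apply W.mul_mem ha
        rcases i with j | j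
        · rw [X_inl, map_sum]
          apply W.sum_mem
          intro i _
          rw [map_mul]
          exact W.mul_mem (hC _) (Algebra.subset_adjoin (Or.inl ⟨i, rfl⟩))
        · rw [X_inr, map_sum]
          apply W.sum_mem
          intro i _
          rw [map_mul]
          exact W.mul_mem (hC _) (Algebra.subset_adjoin (Or.inr ⟨i, rfl⟩))
    rw [eq_top_iff]
    rintro b -
    obtain ⟨q, s, rfl⟩ := IsLocalization.exists_mk'_eq
      ((nonZeroDivisors (MvPolynomial E k)).map (rho0 L e)) b
    obtain ⟨_, s, hs, rfl⟩ := s
    obtain ⟨u, hu⟩ := IsLocalization.map_units (K0 k E)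
      (⟨s, hs⟩ : nonZeroDivisors (MvPolynomial E k))
    have h2 : IsLocalization.mk' (RT L e) q (⟨rho0 L e s, s, hs, rfl⟩ :
        (nonZeroDivisors (MvPolynomial E k)).map (rho0 L e)) =
        algebraMap (PR L) _ q * algebraMap (K0 k E) (RT L e) (u⁻¹ : (K0 k E)ˣ) := by
      rw [IsLocalization.mk'_eq_iff_eq_mul]
      have h3 : algebraMap (PR L) (RT L e) (rho0 L e s) =
          algebraMap (K0 k E) (RT L e) u := by
        rw [hu]
        exact (rhoT_algebraMap L e s).symm
      show _ = _ * algebraMap (PR L) (RT L e) (rho0 L e s)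
      rw [h3, mul_assoc, ← map_mul, Units.inv_mul, map_one, mul_one]
    rw [h2]
    exact W.mul_mem (hP q) (W.algebraMap_mem _)

end Pool.Agent.Y214.RD
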