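import Mathlib
import Pool.Agent.Y214.RD.Gen
import Pool.Agent.Y214.RD.Dom

/-!
The last coordinate `x_e^2 v_e` is integral over the ring of the other parameters.
-/

set_option autoImplicit false

namespace Pool.Agent.Y214.RD

open Module MvPolynomial

variable {k : Type} [Field k] {E : Type} [Fintype E] [DecidableEq E]

theorem valuation_ue {T : Type} [Field T] (V : ValuationSubring T) (L : Submodule k (E → k))
    (e : E) (c : k →+* T) (hc : ∀ a, c a ∈ V) (x v : E → T) (hx : Rel (perp L) c x)
    (hv : Rel L c v) (hu : ∀ i, i ≠ e → x i ^ 2 * v i ∈ V) (hxe : x e ≠ 0) :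
    x e ^ 2 * v e ∈ V := by
  set w := V.valuation with hw
  have hc1 : ∀ a, w (c a) ≤ 1 := fun a => (V.valuation_le_one_iff _).2 (hc a)
  have hc2 : ∀ a, a ≠ 0 → w (c a) = 1 := by
    intro a ha
    apply le_antisymm (hc1 a)
    have h1 : w (c a⁻¹) * w (c a) = 1 := by
      rw [← map_mul, ← map_mul, inv_mul_cancel₀ ha, map_one, map_one]
    rw [← h1]
    exact mul_le_of_le_one_left zero_le (hc1 _)
  have hwe : w (x e) ≠ 0 := by simpa using hxe
  have hwe0 : 0 < w (x e) := zero_lt_iff.2 hwe
  have hu1 : ∀ i, i ≠ e → w (x i) ^ 2 * w (v i) ≤ 1 := by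
    intro i hi
    rw [← map_pow, ← map_mul]
    exact (V.valuation_le_one_iff _).2 (hu i hi)
  by_cases hs : ∃ s ∈ L, (∀ i ∈ {i | w (x i) < w (x e)}, s i = 0) ∧ s e ≠ 0
  · obtain ⟨s, hsL, hs0, hse⟩ := hs
    apply V.mem_of_valuation_le_one
    show w _ ≤ 1
    have h1 : c (s e) * v e = -∑ i ∈ Finset.univ.erase e, c (s i) * v i := by
      have h2 := hv s hsL
      rw [← Finset.add_sum_erase _ _ (Finset.mem_univ e)] at h2
      linear_combination h2
    have h2 : w (v e) = w (∑ i ∈ Finset.univ.erase e, c (s i) * v i) := by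
      have h3 := congrArg w h1
      rw [map_mul, hc2 _ hse, one_mul, Valuation.map_neg] at h3
      exact h3
    have h3 : w (v e) ≤ (w (x e) ^ 2)⁻¹ := by
      rw [h2]
      apply Valuation.map_sum_le
      intro i hi
      have hie := Finset.ne_of_mem_erase hi
      by_cases h4 : w (x i) < w (x e)
      · rw [hs0 i h4, map_zero, zero_mul, map_zero]
        exact zero_le
      · rw [not_lt] at h4
        rw [map_mul]
        have h5 : w (v i) ≤ (w (x e) ^ 2)⁻¹ := by
          have h6 : w (x e) ^ 2 * w (v i) ≤ 1 :=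
            (mul_le_mul' (pow_le_pow_left₀ zero_le h4 2) le_rfl).trans (hu1 i hie)
          have h7 : w (v i) = (w (x e) ^ 2)⁻¹ * (w (x e) ^ 2 * w (v i)) := by
            rw [← mul_assoc, inv_mul_cancel₀ (pow_ne_zero 2 hwe), one_mul]
          rw [h7]
          conv_rhs => rw [← mul_one (w (x e) ^ 2)⁻¹]
          exact mul_le_mul' le_rfl h6
        exact (mul_le_of_le_one_left zero_le (hc1 _)).trans h5
    rw [map_mul, map_pow]
    refine (mul_le_mul' le_rfl h3).trans ?_
    rw [mul_inv_cancel₀ (pow_ne_zero 2 hwe)]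
  · push Not at hs
    obtain ⟨b, hb, hab⟩ := exists_sub_mem_perp L {i | w (x i) < w (x e)} (Pi.single e 1) (by
      intro y hy hyA
      have := sum_single_mul (RingHom.id k) e y
      simp only [RingHom.id_apply] at this
      rw [this]
      exact hs y hy hyA)
    exfalso
    have h1 := hx _ hab
    have h2 : x e = ∑ i, c (b i) * x i := by
      have h3 := sum_single_mul c e x
      rw [← h3, ← sub_eq_zero, ← Finset.sum_sub_distrib, ← h1]
      apply Finset.sum_congr rfl
      intro i _
      rw [Pi.sub_apply, map_sub]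
      ring
    have h3 : w (∑ i, c (b i) * x i) < w (x e) := by
      apply Valuation.map_sum_lt _ hwe
      intro i _
      by_cases h4 : w (x i) < w (x e)
      · rw [map_mul]
        exact lt_of_le_of_lt (mul_le_of_le_one_left zero_le (hc1 _)) h4
      · rw [hb i h4, map_zero, zero_mul, map_zero]
        exact hwe0
    rw [← h2] at h3
    exact lt_irrefl _ h3

theorem isIntegralElem_aux {T : Type} [Field T] (L : Submodule k (E → k)) (e : E)
    (π : PR L →+* T) (hπ : Function.Injective π) (hnl : ∃ y ∈ L, y e ≠ 0) :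
    (π.comp (rho0 L e)).IsIntegralElem (π (xP L e ^ 2 * vP L e)) := by
  let _ : Algebra (MvPolynomial E k) T := (π.comp (rho0 L e)).toAlgebra
  refine isIntegral_of_valuationSubring (A := MvPolynomial E k)
    (π (xP L e ^ 2 * vP L e)) fun V hV => ?_
  have hV' : ∀ a, π (rho0 L e a) ∈ V := hV
  rw [map_mul, map_pow]
  have hsol := (sol_PR L e).map π
  refine valuation_ue V L e (π.comp C) (fun a => ?_) (fun i => π (xP L i)) (fun i => π (vP L i))
    hsol.rx hsol.rv (fun i hi => ?_) ?_
  · have := hV' (C a)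
    rwa [rho0_C] at this
  · have := hV' (X i)
    rw [rho0_X, tP, if_neg hi, map_mul, map_pow] at this
    exact this
  · intro h
    exact xP_ne_zero L hnl (hπ (by rw [map_zero]; exact h))

theorem isIntegralElem_ue (L : Submodule k (E → k)) (e : E) (hnl : ∃ y ∈ L, y e ≠ 0) :
    (rho0 L e).IsIntegralElem (xP L e ^ 2 * vP L e) := by
  have hπ : Function.Injective (algebraMap (PR L) (FractionRing (PR L))) :=
    IsFractionRing.injective (PR L) _
  obtain ⟨p, hp, hp'⟩ := isIntegralElem_aux L e (algebraMap (PR L) (FractionRing (PR L))) hπ hnl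
  refine ⟨p, hp, hπ ?_⟩
  rw [map_zero, ← hp', Polynomial.hom_eval₂]

end Pool.Agent.Y214.RD
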