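import Mathlib
import Pool.Agent.Y214.RD.Integ

/-!
The minimal polynomial of the last coordinate is homogeneous and does not involve the parameter
`x_e`.
-/

set_option autoImplicit false

namespace Pool.Agent.Y214.RD

open Module MvPolynomial

variable {k : Type} [Field k] {E : Type} [Fintype E] [DecidableEq E]

omit [DecidableEq E] in
theorem coeff_scale (a : E → k) (q : MvPolynomial E k) (m : E →₀ ℕ) :
    coeff m (aeval (fun i => C (a i) * X i : E → MvPolynomial E k) q) =
      (∏ i, a i ^ m i) * coeff m q := by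
  classical
  induction q using MvPolynomial.induction_on' with
  | monomial n b =>
    have h1 : aeval (fun i => C (a i) * X i : E → MvPolynomial E k) (monomial n b) =
        monomial n ((∏ i, a i ^ n i) * b) := by
      rw [aeval_monomial, Finsupp.prod_fintype _ _ (fun i => pow_zero _)]
      simp only [mul_pow, Finset.prod_mul_distrib, ← map_pow, ← map_prod]
      rw [MvPolynomial.algebraMap_eq, ← mul_assoc, ← map_mul, mul_comm b,
        monomial_eq, Finsupp.prod_fintype _ _ (fun i => pow_zero _)]
    rw [h1, coeff_monomial, coeff_monomial]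
    split_ifs with h
    · rw [h]
    · rw [mul_zero]
  | add p q hp hq => rw [map_add, coeff_add, coeff_add, hp, hq, mul_add]

variable (L : Submodule k (E → k)) (e : E)

/-- The torus action on the coordinate ring. -/
noncomputable def sig (l m : k) : PR L →+* PR L :=
  eval₂Hom C (Sum.elim (fun j => C l * X (Sum.inl j)) (fun j => C m * X (Sum.inr j)))

theorem sig_C (l m a : k) : sig L l m (C a) = C a := by simp [sig]

theorem sig_xP (l m : k) (i : E) : sig L l m (xP L i) = C l * xP L i := by
  simp only [xP, map_sum, map_mul, sig_C, Finset.mul_sum]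
  apply Finset.sum_congr rfl
  intro j _
  simp [sig]
  ring

theorem sig_vP (l m : k) (i : E) : sig L l m (vP L i) = C m * vP L i := by
  simp only [vP, map_sum, map_mul, sig_C, Finset.mul_sum]
  apply Finset.sum_congr rfl
  intro j _
  simp [sig]
  ring

/-- The scalars by which the parameters are multiplied. -/
def wt (l m : k) : E → k := fun i => if i = e then l else l ^ 2 * m

/-- The torus action on the parameter ring. -/
noncomputable def the (l m : k) : MvPolynomial E k →+* MvPolynomial E k :=
  (aeval (fun i => C (wt e l m i) * X i) : MvPolynomial E k →ₐ[k] MvPolynomial E k).toRingHom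

theorem sig_rho0 (l m : k) (q : MvPolynomial E k) :
    sig L l m (rho0 L e q) = rho0 L e (the e l m q) := by
  have h : (sig L l m).comp (rho0 L e) = (rho0 L e).comp (the e l m) := by
    apply MvPolynomial.ringHom_ext
    · intro a
      simp only [RingHom.comp_apply, rho0_C, sig_C]
      have : the e l m (C a) = C a := by simp [the, MvPolynomial.algebraMap_eq]
      rw [this, rho0_C]
    · intro i
      have : the e l m (X i) = C (wt e l m i) * X i := by simp [the]
      simp only [RingHom.comp_apply, this, map_mul, rho0_C, rho0_X, tP, wt]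
      split_ifs with hi
      · rw [sig_xP]
      · rw [map_mul, map_pow, sig_xP, sig_vP]
        simp only [map_mul, map_pow]
        ring
  exact RingHom.congr_fun h q


/-- The last coordinate. -/
noncomputable def uP (i : E) : PR L := xP L i ^ 2 * vP L i

theorem sig_uP (l m : k) (i : E) : sig L l m (uP L i) = C (l ^ 2 * m) * uP L i := by
  rw [uP, map_mul, map_pow, sig_xP, sig_vP]
  simp only [map_mul, map_pow]
  ring

theorem exists_G (hnl : ∃ y ∈ L, y e ≠ 0) (hinj : Function.Injective (rho0 L e)) :
    ∃ G : Polynomial (MvPolynomial E k), G.Monic ∧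
      Polynomial.eval₂ (rho0 L e) (uP L e) G = 0 ∧
      ∀ p, Polynomial.eval₂ (rho0 L e) (uP L e) p = 0 → G ∣ p := by
  let _ : Algebra (MvPolynomial E k) (PR L) := (rho0 L e).toAlgebra
  have h1 : IsIntegral (MvPolynomial E k) (uP L e) := isIntegralElem_ue L e hnl
  have : FaithfulSMul (MvPolynomial E k) (PR L) :=
    (faithfulSMul_iff_algebraMap_injective _ _).2 hinj
  have : Module.IsTorsionFree (MvPolynomial E k) (PR L) := inferInstance
  refine ⟨minpoly (MvPolynomial E k) (uP L e), minpoly.monic h1, minpoly.aeval _ _, ?_⟩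
  intro p hp
  exact minpoly.isIntegrallyClosed_dvd h1 hp

theorem G_scale {G : Polynomial (MvPolynomial E k)} (hG : G.Monic)
    (hG0 : Polynomial.eval₂ (rho0 L e) (uP L e) G = 0)
    (hGd : ∀ p, Polynomial.eval₂ (rho0 L e) (uP L e) p = 0 → G ∣ p) (l m : k) (j : ℕ) :
    the e l m (G.coeff j) * C (l ^ 2 * m) ^ j = C (l ^ 2 * m) ^ G.natDegree * G.coeff j := by
  set s := l ^ 2 * m with hs
  set G' := (G.map (the e l m)).comp (Polynomial.C (C s) * Polynomial.X) with hG'
  have h1 : Polynomial.eval₂ (rho0 L e) (uP L e) G' = 0 := by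
    rw [hG', Polynomial.eval₂_comp, Polynomial.eval₂_map, Polynomial.eval₂_mul,
      Polynomial.eval₂_C, Polynomial.eval₂_X, rho0_C, ← sig_uP]
    have h2 : (rho0 L e).comp (the e l m) = (sig L l m).comp (rho0 L e) :=
      RingHom.ext fun q => (sig_rho0 L e l m q).symm
    rw [h2, ← Polynomial.hom_eval₂, hG0, map_zero]
  have hc : ∀ n, G'.coeff n = the e l m (G.coeff n) * C s ^ n := by
    intro n
    rw [hG', Polynomial.comp_C_mul_X_coeff, Polynomial.coeff_map]
  set D0 := G' - Polynomial.C (C s ^ G.natDegree) * G with hD0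
  have h2 : Polynomial.eval₂ (rho0 L e) (uP L e) D0 = 0 := by
    rw [hD0, Polynomial.eval₂_sub, h1, Polynomial.eval₂_mul, hG0, mul_zero, sub_zero]
  have h3 : D0.degree < G.degree := by
    rw [Polynomial.degree_eq_natDegree hG.ne_zero, Polynomial.degree_lt_iff_coeff_zero]
    intro n hn
    rw [hD0, Polynomial.coeff_sub, Polynomial.coeff_C_mul, hc]
    rcases hn.lt_or_eq with h | h
    · rw [Polynomial.coeff_eq_zero_of_natDegree_lt h, map_zero, zero_mul, mul_zero, sub_zero]
    · rw [← h, hG.coeff_natDegree, map_one, one_mul, mul_one, sub_self]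
  have h4 : D0 = 0 := Polynomial.eq_zero_of_dvd_of_degree_lt (hGd _ h2) h3
  have h5 := congrArg (fun p => Polynomial.coeff p j) h4
  simp only [hD0, Polynomial.coeff_sub, Polynomial.coeff_C_mul, hc, Polynomial.coeff_zero] at h5
  exact sub_eq_zero.1 h5

theorem G_coeff [CharZero k] {G : Polynomial (MvPolynomial E k)} (hG : G.Monic)
    (hG0 : Polynomial.eval₂ (rho0 L e) (uP L e) G = 0)
    (hGd : ∀ p, Polynomial.eval₂ (rho0 L e) (uP L e) p = 0 → G ∣ p) (j : ℕ) (n : E →₀ ℕ)
    (hn : coeff n (G.coeff j) ≠ 0) : n e = 0 ∧ ∑ i, n i + j = G.natDegree := by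
  have key : ∀ l m : k, (∏ i, wt e l m i ^ n i) * (l ^ 2 * m) ^ j =
      (l ^ 2 * m) ^ G.natDegree := by
    intro l m
    have h1 := congrArg (coeff n) (G_scale L e hG hG0 hGd l m j)
    rw [← map_pow, ← map_pow, mul_comm _ (C _), coeff_C_mul, coeff_C_mul] at h1
    have h2 : coeff n (the e l m (G.coeff j)) = (∏ i, wt e l m i ^ n i) * coeff n (G.coeff j) :=
      coeff_scale _ _ _
    rw [h2] at h1
    have h3 : ((∏ i, wt e l m i ^ n i) * (l ^ 2 * m) ^ j - (l ^ 2 * m) ^ G.natDegree) *
        coeff n (G.coeff j) = 0 := by linear_combination h1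
    exact sub_eq_zero.1 ((mul_eq_zero.1 h3).resolve_right hn)
  have hpow : ∀ a b : ℕ, (2 : k) ^ a = 2 ^ b → a = b := by
    intro a b h
    have h1 : ((2 ^ a : ℕ) : k) = ((2 ^ b : ℕ) : k) := by
      push_cast
      exact h
    exact Nat.pow_right_injective le_rfl (Nat.cast_injective h1)
  have he : n e = 0 := by
    have h1 := key 2 (1 / 4)
    have h2 : (2 : k) ^ 2 * (1 / 4) = 1 := by norm_num
    rw [h2, one_pow, one_pow, mul_one] at h1
    have h3 : ∏ i, wt e (2 : k) (1 / 4) i ^ n i = 2 ^ n e := by
      rw [Finset.prod_eq_single e]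
      · simp [wt]
      · intro i _ hi
        rw [wt, if_neg hi, h2, one_pow]
      · simp
    rw [h3] at h1
    exact hpow _ 0 (by rw [h1, pow_zero])
  refine ⟨he, ?_⟩
  have h1 := key 1 2
  have h2 : (1 : k) ^ 2 * 2 = 2 := by norm_num
  rw [h2] at h1
  have h3 : ∏ i, wt e (1 : k) 2 i ^ n i = 2 ^ ∑ i, n i := by
    rw [← Finset.prod_pow_eq_pow_sum]
    apply Finset.prod_congr rfl
    intro i _
    by_cases hi : i = e
    · rw [hi, he, pow_zero, pow_zero]
    · rw [wt, if_neg hi, h2]
  rw [h3, ← pow_add] at h1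
  exact hpow _ _ h1

end Pool.Agent.Y214.RD
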