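import Mathlib
import Pool.Agent.Y214.RD.Scale

/-!
The equation of the hypersurface parametrised by `x_i^2 v_i`.
-/

set_option autoImplicit false

namespace Pool.Agent.Y214.RD

open Module MvPolynomial

variable {k : Type} [Field k] {E : Type} [Fintype E] [DecidableEq E]
  (L : Submodule k (E → k)) (e : E)

/-- The parametrisation. -/
noncomputable def phi : MvPolynomial E k →+* PR L :=
  (aeval (uP L) : MvPolynomial E k →ₐ[k] PR L).toRingHom

theorem phi_C (a : k) : phi L (C a) = C a := by simp [phi, MvPolynomial.algebraMap_eq]

theorem phi_X (i : E) : phi L (X i) = uP L i := by simp [phi]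

/-- Substitution of the new variable for the last coordinate. -/
noncomputable def sharp : MvPolynomial E k →+* Polynomial (MvPolynomial E k) :=
  eval₂Hom (Polynomial.C.comp C) (fun i => if i = e then Polynomial.X else Polynomial.C (X i))

theorem eval_sharp (H : MvPolynomial E k) : Polynomial.eval (X e) (sharp e H) = H := by
  have h : (Polynomial.evalRingHom (X e)).comp (sharp e) = RingHom.id (MvPolynomial E k) := by
    apply MvPolynomial.ringHom_ext
    · intro a
      simp [sharp]
    · intro i
      by_cases hi : i = e <;> simp [sharp, hi]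
  exact RingHom.congr_fun h H

theorem eval₂_sharp (H : MvPolynomial E k) :
    Polynomial.eval₂ (rho0 L e) (uP L e) (sharp e H) = phi L H := by
  have h : (Polynomial.eval₂RingHom (rho0 L e) (uP L e)).comp (sharp e) = phi L := by
    apply MvPolynomial.ringHom_ext
    · intro a
      simp [sharp, phi_C, rho0_C]
    · intro i
      by_cases hi : i = e
      · simp [sharp, hi, phi_X]
      · simp [sharp, hi, phi_X, rho0_X, tP, uP]
  exact RingHom.congr_fun h H

theorem not_injective_phi [Nonempty E] : ¬ Function.Injective (phi L) := by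
  intro h
  let T := FractionRing (PR L)
  have hT : Function.Injective (algebraMap (PR L) T) := IsFractionRing.injective _ _
  have hk : algebraMap k T = (algebraMap (PR L) T).comp C := by
    ext a
    rw [IsScalarTower.algebraMap_apply k (PR L) T]
    rfl
  apply not_algInd L (fun i => algebraMap (PR L) T (xP L i)) (fun i => algebraMap (PR L) T (vP L i))
  · rw [hk]
    exact (rel_xP L).map _
  · rw [hk]
    exact (rel_vP L).map _
  · have h1 : AlgebraicIndependent k (uP L) := h
    have h2 := h1.map' (f := IsScalarTower.toAlgHom k (PR L) T) hT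
    refine algInd_congr (fun i => ?_) h2
    simp [uP]

theorem exists_F [CharZero k] {G : Polynomial (MvPolynomial E k)} (hG : G.Monic)
    (hG0 : Polynomial.eval₂ (rho0 L e) (uP L e) G = 0)
    (hGd : ∀ p, Polynomial.eval₂ (rho0 L e) (uP L e) p = 0 → G ∣ p) :
    (Polynomial.eval (X e) G).IsHomogeneous G.natDegree ∧
    Irreducible (Polynomial.eval (X e) G) ∧ ∀ H, phi L H = 0 ↔ Polynomial.eval (X e) G ∣ H := by
  have hhom : (Polynomial.eval (X e) G).IsHomogeneous G.natDegree := by
    rw [Polynomial.eval_eq_sum_range]
    apply MvPolynomial.IsHomogeneous.sum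
    intro j _
    by_cases hj : G.coeff j = 0
    · rw [hj, zero_mul]
      exact isHomogeneous_zero _ _ _
    · obtain ⟨n0, hn0⟩ := ne_zero_iff.1 hj
      have h1 : (G.coeff j).IsHomogeneous (G.natDegree - j) := by
        intro n hn
        have h2 := (G_coeff L e hG hG0 hGd j n hn).2
        rw [Finsupp.weight_apply, Finsupp.sum_fintype _ _ (by simp)]
        simp only [Pi.one_apply, smul_eq_mul, mul_one]
        omega
      have h3 := (G_coeff L e hG hG0 hGd j n0 hn0).2
      have h4 : G.natDegree = G.natDegree - j + 1 * j := by omega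
      rw [h4]
      refine h1.mul ?_
      have := (isHomogeneous_X k e).pow j
      simpa using this
  have hphi : ∀ j, phi L (G.coeff j) = rho0 L e (G.coeff j) := by
    intro j
    apply MvPolynomial.hom_congr_vars
    · ext a
      simp [phi_C, rho0_C]
    · intro i hi _
      rw [phi_X, rho0_X, tP, uP]
      rw [if_neg]
      rintro rfl
      obtain ⟨n, hn, hn'⟩ := (mem_vars_iff_mem_support _).1 hi
      rw [MvPolynomial.mem_support_iff] at hn
      rw [Finsupp.mem_support_iff] at hn'
      exact hn' (G_coeff L i hG hG0 hGd j n hn).1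
    · rfl
  have hF0 : phi L (Polynomial.eval (X e) G) = 0 := by
    rw [← hG0, Polynomial.eval_eq_sum_range, Polynomial.eval₂_eq_sum_range, map_sum]
    apply Finset.sum_congr rfl
    intro j _
    rw [map_mul, map_pow, phi_X, hphi]
  have hiff : ∀ H, phi L H = 0 ↔ Polynomial.eval (X e) G ∣ H := by
    intro H
    constructor
    · intro hH
      rw [← eval₂_sharp L e] at hH
      obtain ⟨Q, hQ⟩ := hGd _ hH
      refine ⟨Polynomial.eval (X e) Q, ?_⟩
      rw [← Polynomial.eval_mul, ← hQ, eval_sharp]
    · rintro ⟨Q, rfl⟩
      rw [map_mul, hF0, zero_mul]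
  refine ⟨hhom, ?_, hiff⟩
  have hne : Polynomial.eval (X e) G ≠ 0 := by
    intro h
    have : Nonempty E := ⟨e⟩
    apply not_injective_phi L
    rw [injective_iff_map_eq_zero]
    intro H hH
    rw [hiff, h, zero_dvd_iff] at hH
    exact hH
  have hprime : (Ideal.span {Polynomial.eval (X e) G}).IsPrime := by
    have h1 : Ideal.span {Polynomial.eval (X e) G} = RingHom.ker (phi L) := by
      ext H
      rw [Ideal.mem_span_singleton, RingHom.mem_ker, hiff]
    rw [h1]
    exact RingHom.ker_isPrime _
  exact ((Ideal.span_singleton_prime hne).1 hprime).irreducible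

end Pool.Agent.Y214.RD
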