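import Mathlib
import Pool.Agent.Y214.RD.Hyp

/-!
The parametrisation is birational: the degree of the hypersurface is the degree of the generic
fibre.
-/

set_option autoImplicit false

namespace Pool.Agent.Y214.RD

open Module MvPolynomial

variable {k : Type} [Field k] {E : Type} [Fintype E] [DecidableEq E]
  (L : Submodule k (E → k)) (e : E)

theorem pderiv_aeval' {σ ρ : Type} [Fintype σ] (u : σ → MvPolynomial ρ k)
    (F : MvPolynomial σ k) (l : ρ) :
    pderiv l (aeval u F) = ∑ i, aeval u (pderiv i F) * pderiv l (u i) := by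
  classical
  induction F using MvPolynomial.induction_on with
  | C a =>
    simp [MvPolynomial.algebraMap_eq]
  | add p q hp hq =>
    simp only [map_add, hp, hq, add_mul, Finset.sum_add_distrib]
  | mul_X p i hp =>
    rw [map_mul, aeval_X, Derivation.leibniz, hp]
    have : ∀ j, aeval u (pderiv j (p * X i)) * pderiv l (u j) =
        (u i) * (aeval u (pderiv j p) * pderiv l (u j)) +
        (if j = i then aeval u p * pderiv l (u j) else 0) := by
      intro j
      rw [Derivation.leibniz, pderiv_X]
      by_cases h : j = i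
      · subst h
        simp
        ring
      · simp [h, Ne.symm h]
        ring
    rw [Finset.sum_congr rfl fun j _ => this j, Finset.sum_add_distrib]
    simp only [smul_eq_mul, ← Finset.mul_sum, Finset.sum_ite_eq', Finset.mem_univ, if_true]
    ring

section deriv

variable {T : Type} [Field T] (π : PR L →+* T) (δ : Idx L → T)

/-- The derivation with prescribed values on the variables. -/
noncomputable def DD (q : PR L) : T := ∑ l, δ l * π (pderiv l q)

theorem DD_add (p q : PR L) : DD L π δ (p + q) = DD L π δ p + DD L π δ q := by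
  simp only [DD, map_add, mul_add, Finset.sum_add_distrib]

theorem DD_mul (p q : PR L) : DD L π δ (p * q) = π p * DD L π δ q + π q * DD L π δ p := by
  simp only [DD, Derivation.leibniz, smul_eq_mul, map_add, map_mul, mul_add, Finset.mul_sum,
    ← Finset.sum_add_distrib]
  exact Finset.sum_congr rfl fun l _ => by ring

theorem DD_C (a : k) : DD L π δ (C a) = 0 := by
  simp [DD]

theorem DD_zero : DD L π δ 0 = 0 := by
  simp [DD]

theorem DD_X (l : Idx L) : DD L π δ (X l) = δ l := by
  classical
  rw [DD, Finset.sum_eq_single l]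
  · simp
  · intro j _ hj
    rw [pderiv_X_of_ne hj.symm, map_zero, mul_zero]
  · simp

theorem DD_sum {ι : Type} (s : Finset ι) (F : ι → PR L) :
    DD L π δ (∑ i ∈ s, F i) = ∑ i ∈ s, DD L π δ (F i) := by
  classical
  induction s using Finset.induction_on with
  | empty => simp [DD_zero]
  | insert a s ha ih => rw [Finset.sum_insert ha, Finset.sum_insert ha, DD_add, ih]

theorem DD_pow (q : PR L) (n : ℕ) : DD L π δ (q ^ n) = n * π q ^ (n - 1) * DD L π δ q := by
  induction n with
  | zero =>
    have : (q ^ 0 : PR L) = C 1 := by simp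
    rw [this, DD_C]
    simp
  | succ n ih =>
    rw [pow_succ, DD_mul, ih, map_pow]
    rcases n with _ | n
    · simp
    · have h1 : n + 1 - 1 = n := rfl
      have h2 : n + 1 + 1 - 1 = n + 1 := rfl
      rw [h1, h2]
      push_cast
      ring

theorem DD_rho0 (h : ∀ i, DD L π δ (tP L e i) = 0) (q : MvPolynomial E k) :
    DD L π δ (rho0 L e q) = 0 := by
  induction q using MvPolynomial.induction_on with
  | C a => rw [rho0_C, DD_C]
  | add p q hp hq => rw [map_add, DD_add, hp, hq, add_zero]
  | mul_X p i hp => rw [map_mul, DD_mul, hp, rho0_X, h, mul_zero, mul_zero, add_zero]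

theorem DD_eval₂ (h : ∀ i, DD L π δ (tP L e i) = 0) (g : Polynomial (MvPolynomial E k))
    (b : PR L) : DD L π δ (Polynomial.eval₂ (rho0 L e) b g) =
      π (Polynomial.eval₂ (rho0 L e) b (Polynomial.derivative g)) * DD L π δ b := by
  induction g using Polynomial.induction_on' with
  | add p q hp hq =>
    rw [Polynomial.eval₂_add, DD_add, hp, hq, Polynomial.derivative_add, Polynomial.eval₂_add,
      map_add, add_mul]
  | monomial n a =>
    rw [Polynomial.eval₂_monomial, DD_mul, DD_rho0 L e π δ h, mul_zero, add_zero, DD_pow,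
      Polynomial.derivative_monomial, Polynomial.eval₂_monomial]
    simp only [map_mul, map_pow, map_natCast]
    ring

theorem delta_eq_zero [CharZero k] {N : ℕ} [Algebra (K0 k E) T] (hT : GenField L e N T π)
    (h : ∀ i, DD L π δ (tP L e i) = 0) : δ = 0 := by
  funext l
  let _ : Algebra (MvPolynomial E k) T :=
    ((algebraMap (K0 k E) T).comp (algebraMap (MvPolynomial E k) (K0 k E))).toAlgebra
  have : IsScalarTower (MvPolynomial E k) (K0 k E) T := IsScalarTower.of_algebraMap_eq fun _ => rfl
  have hfin := hT.fin
  have halg : IsAlgebraic (K0 k E) (π (X l)) := Algebra.IsAlgebraic.isAlgebraic _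
  have halg2 : IsAlgebraic (MvPolynomial E k) (π (X l)) :=
    (IsFractionRing.isAlgebraic_iff (MvPolynomial E k) (K0 k E) T).2 halg
  have hex : ∃ n, ∃ g : Polynomial (MvPolynomial E k), g ≠ 0 ∧ g.natDegree = n ∧
      Polynomial.eval₂ (rho0 L e) (X l) g = 0 := by
    obtain ⟨g, hg, hg'⟩ := halg2
    refine ⟨_, g, hg, rfl, hT.inj ?_⟩
    rw [map_zero, ← hg', Polynomial.hom_eval₂]
    rw [Polynomial.aeval_def]
    have h1 : π.comp (rho0 L e) = algebraMap (MvPolynomial E k) T :=
      RingHom.ext fun a => hT.comp _
    rw [h1]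
  classical
  obtain ⟨g, hg, hgn, hg0⟩ := Nat.find_spec hex
  have hmin := fun m (hm : m < Nat.find hex) => Nat.find_min hex hm
  have hdeg : g.natDegree ≠ 0 := by
    intro h0
    rw [Polynomial.eq_C_of_natDegree_eq_zero h0, Polynomial.eval₂_C] at hg0
    apply hg
    rw [Polynomial.eq_C_of_natDegree_eq_zero h0]
    have h1 : algebraMap (K0 k E) T (algebraMap _ _ (g.coeff 0)) = 0 := by
      rw [← hT.comp, hg0, map_zero]
    rw [map_eq_zero] at h1
    have h2 := (IsFractionRing.injective (MvPolynomial E k) (K0 k E)) (h1.trans (map_zero _).symm)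
    rw [h2, Polynomial.C_0]
  have hd : Polynomial.eval₂ (rho0 L e) (X l) (Polynomial.derivative g) ≠ 0 := by
    intro h0
    have h1 : (Polynomial.derivative g).natDegree < g.natDegree :=
      Polynomial.natDegree_derivative_lt hdeg
    apply hmin _ (by rw [← hgn]; exact h1)
    refine ⟨_, ?_, rfl, h0⟩
    intro h2
    apply hdeg
    exact Polynomial.derivative_eq_zero.1 h2
  have h1 := DD_eval₂ L e π δ h g (X l)
  rw [hg0, DD_zero, DD_X] at h1
  have h2 : π (Polynomial.eval₂ (rho0 L e) (X l) (Polynomial.derivative g)) ≠ 0 := by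
    intro h0
    exact hd (hT.inj (by rw [h0, map_zero]))
  exact (mul_eq_zero.1 h1.symm).resolve_left h2

theorem card_Idx : Fintype.card (Idx L) = Fintype.card E := by
  rw [Fintype.card_sum, Fintype.card_fin, Fintype.card_fin]
  exact finrank_perp L

theorem left_kernel [CharZero k] {N : ℕ} [Algebra (K0 k E) T] (hT : GenField L e N T π)
    (y : E → T) (h : ∀ l, ∑ i, y i * π (pderiv l (tP L e i)) = 0) : y = 0 := by
  let f : (Idx L → T) →ₗ[T] (E → T) :=
    { toFun := fun δ i => DD L π δ (tP L e i)
      map_add' := by
        intro δ δ'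
        funext i
        simp only [DD, Pi.add_apply, add_mul, Finset.sum_add_distrib]
      map_smul' := by
        intro c δ
        funext i
        simp only [DD, Pi.smul_apply, smul_eq_mul, RingHom.id_apply, Finset.mul_sum, mul_assoc] }
  have hf : Function.Injective f := by
    rw [← LinearMap.ker_eq_bot, LinearMap.ker_eq_bot']
    intro δ hδ
    exact delta_eq_zero L e π δ hT fun i => congrFun hδ i
  have hf' : Function.Surjective f := by
    rw [← LinearMap.injective_iff_surjective_of_finrank_eq_finrank]
    · exact hf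
    · rw [Module.finrank_fintype_fun_eq_card, Module.finrank_fintype_fun_eq_card, card_Idx]
  have h1 : ∀ z : E → T, ∑ i, y i * z i = 0 := by
    intro z
    obtain ⟨δ, rfl⟩ := hf' z
    show ∑ i, y i * DD L π δ (tP L e i) = 0
    have h2 : ∑ i, y i * DD L π δ (tP L e i) =
        ∑ l, δ l * ∑ i, y i * π (pderiv l (tP L e i)) := by
      simp only [DD, Finset.mul_sum]
      rw [Finset.sum_comm]
      exact Finset.sum_congr rfl fun l _ => Finset.sum_congr rfl fun i _ => by ring
    rw [h2]
    apply Finset.sum_eq_zero
    intro l _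
    rw [h, mul_zero]
  funext i
  have := h1 (Pi.single i 1)
  rw [Finset.sum_eq_single i] at this
  · simpa using this
  · intro j _ hj
    rw [Pi.single_apply, if_neg hj, mul_zero]
  · simp

end deriv

end Pool.Agent.Y214.RD
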