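import Mathlib
import Pool.Agent.Y214.RD.Birat

/-!
The degree of the hypersurface is the degree of the generic fibre.
-/

set_option autoImplicit false

namespace Pool.Agent.Y214.RD

open Module MvPolynomial

variable {k : Type} [Field k] {E : Type} [Fintype E] [DecidableEq E]
  (L : Submodule k (E → k)) (e : E)

theorem rel_pderiv (l : Idx L) : Rel (perp L) (C : k →+* PR L) (fun i => pderiv l (xP L i)) := by
  intro a ha
  have h1 := congrArg (pderiv l) (rel_xP L a ha)
  rw [map_sum, map_zero] at h1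
  rw [← h1]
  apply Finset.sum_congr rfl
  intro i _
  rw [pderiv_C_mul]

theorem sum_v_pderiv (l : Idx L) : ∑ i, vP L i * pderiv l (xP L i) = 0 :=
  pairing (rel_pderiv L l) (rel_vP L)

theorem sum_euler (l : Idx L) :
    ∑ i, (2 * vP L i * pderiv l (xP L i) + xP L i * pderiv l (vP L i)) = 0 := by
  have h1 : ∑ i, vP L i * xP L i = 0 := pairing (rel_xP L) (rel_vP L)
  have h2 := congrArg (pderiv l) h1
  rw [map_sum, map_zero] at h2
  simp only [Derivation.leibniz, smul_eq_mul, Finset.sum_add_distrib] at h2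
  have h3 := sum_v_pderiv L l
  have h4 : ∑ i, (2 * vP L i * pderiv l (xP L i) + xP L i * pderiv l (vP L i)) =
      2 * ∑ i, vP L i * pderiv l (xP L i) + ∑ i, xP L i * pderiv l (vP L i) := by
    rw [Finset.sum_add_distrib, Finset.mul_sum]
    congr 1
    exact Finset.sum_congr rfl fun i _ => by ring
  rw [h4, h3]
  linear_combination h2 - h3

theorem pderiv_uP (l : Idx L) (i : E) : pderiv l (uP L i) =
    xP L i * (2 * vP L i * pderiv l (xP L i) + xP L i * pderiv l (vP L i)) := by
  rw [uP, Derivation.leibniz, Derivation.leibniz_pow]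
  simp only [smul_eq_mul, nsmul_eq_mul]
  push_cast
  ring

variable {L e}

theorem gradient [CharZero k] {N : ℕ} {T : Type} [Field T] [Algebra (K0 k E) T] {π : PR L →+* T}
    (hT : GenField L e N T π) (hnl : ∀ i, ∃ y ∈ L, y i ≠ 0) {F : MvPolynomial E k}
    (hF : phi L F = 0) (i : E) :
    phi L (pderiv i F) * xP L i = phi L (pderiv e F) * xP L e := by
  have hx : ∀ i, π (xP L i) ≠ 0 := by
    intro i h
    exact xP_ne_zero L (hnl i) (hT.inj (by rw [h, map_zero]))
  set z : E → T := fun i => π (phi L (pderiv i F)) with hz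
  have h1 : ∀ l, ∑ i, z i * π (pderiv l (uP L i)) = 0 := by
    intro l
    have h2 := pderiv_aeval' (uP L) F l
    have h3 : aeval (uP L) F = 0 := hF
    rw [h3, map_zero] at h2
    have h4 := congrArg π h2.symm
    rw [map_sum, map_zero] at h4
    rw [← h4]
    apply Finset.sum_congr rfl
    intro i _
    rw [map_mul]
    rfl
  have h2 : ∀ l, ∑ i, (π (xP L i))⁻¹ * π (pderiv l (uP L i)) = 0 := by
    intro l
    have h3 := congrArg π (sum_euler L l)
    rw [map_sum, map_zero] at h3
    rw [← h3]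
    apply Finset.sum_congr rfl
    intro i _
    rw [pderiv_uP, map_mul, ← mul_assoc, inv_mul_cancel₀ (hx i), one_mul]
  set y : E → T := fun i => z i - z e * π (xP L e) * (π (xP L i))⁻¹ with hy
  have hye : y e = 0 := by
    simp only [hy]
    rw [mul_assoc, mul_inv_cancel₀ (hx e), mul_one, sub_self]
  have h3 : y = 0 := by
    apply left_kernel L e π hT
    intro l
    have h4 : ∀ i, y i * π (pderiv l (tP L e i)) = z i * π (pderiv l (uP L i)) -
        z e * π (xP L e) * ((π (xP L i))⁻¹ * π (pderiv l (uP L i))) := by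
      intro i
      by_cases hi : i = e
      · rw [hi, hye, zero_mul, ← mul_assoc, mul_assoc (z e), mul_inv_cancel₀ (hx e), mul_one,
          sub_self]
      · have h5 : tP L e i = uP L i := by rw [tP, if_neg hi, uP]
        rw [h5]
        simp only [hy]
        ring
    rw [Finset.sum_congr rfl fun i _ => h4 i, Finset.sum_sub_distrib, ← Finset.mul_sum, h1, h2,
      mul_zero, sub_zero]
  apply hT.inj
  have h4 := congrFun h3 i
  simp only [hy, hz, Pi.zero_apply] at h4
  rw [map_mul, map_mul, sub_eq_zero.1 h4, mul_assoc, inv_mul_cancel₀ (hx i), mul_one]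

theorem pderiv_e_ne_zero [CharZero k] {N : ℕ} {T : Type} [Field T] [Algebra (K0 k E) T]
    {π : PR L →+* T} (hT : GenField L e N T π) (hnl : ∀ i, ∃ y ∈ L, y i ≠ 0)
    {F : MvPolynomial E k} {D : ℕ} (hD : D ≠ 0) (hhom : F.IsHomogeneous D) (hF0 : F ≠ 0)
    (hF : ∀ H, phi L H = 0 ↔ F ∣ H) : phi L (pderiv e F) ≠ 0 := by
  intro h0
  have hphi : phi L F = 0 := (hF F).2 dvd_rfl
  have h1 : ∀ i, pderiv i F = 0 := by
    intro i
    by_contra hne
    have h2 := gradient hT hnl hphi i
    rw [h0, zero_mul] at h2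
    have h3 : phi L (pderiv i F) = 0 := (mul_eq_zero.1 h2).resolve_right (xP_ne_zero L (hnl i))
    rw [hF] at h3
    obtain ⟨Q, hQ⟩ := h3
    have hQ0 : Q ≠ 0 := by
      rintro rfl
      rw [mul_zero] at hQ
      exact hne hQ
    have h4 : (pderiv i F).totalDegree = F.totalDegree + Q.totalDegree := by
      rw [hQ, totalDegree_mul_of_isDomain hF0 hQ0]
    have h5 : F.totalDegree = D := hhom.totalDegree hF0
    have h6 : (pderiv i F).totalDegree = D - 1 := (hhom.pderiv (i := i)).totalDegree hne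
    omega
  have h2 := hhom.sum_X_mul_pderiv
  rw [Finset.sum_eq_zero (fun i _ => by rw [h1 i, mul_zero])] at h2
  rw [nsmul_eq_mul] at h2
  have h3 := mul_eq_zero.1 h2.symm
  rcases h3 with h3 | h3
  · exact hD (by exact_mod_cast h3)
  · exact hF0 h3

theorem adjoin_top [CharZero k] {N : ℕ} {T : Type} [Field T] [Algebra (K0 k E) T]
    {π : PR L →+* T} (hT : GenField L e N T π) (hnl : ∀ i, ∃ y ∈ L, y i ≠ 0)
    {F : MvPolynomial E k} {D : ℕ} (hD : D ≠ 0) (hhom : F.IsHomogeneous D) (hF0 : F ≠ 0)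
    (hF : ∀ H, phi L H = 0 ↔ F ∣ H) : Algebra.adjoin (K0 k E) {π (uP L e)} = ⊤ := by
  set W := Algebra.adjoin (K0 k E) {π (uP L e)} with hW
  have hfin := hT.fin
  have hinv : ∀ w ∈ W, w⁻¹ ∈ W := by
    intro w hw
    exact W.inv_mem_of_algebraic (x := ⟨w, hw⟩) (Algebra.IsAlgebraic.isAlgebraic _)
  have hx : ∀ i, π (xP L i) ≠ 0 := by
    intro i h
    exact xP_ne_zero L (hnl i) (hT.inj (by rw [h, map_zero]))
  have hphi : ∀ q : MvPolynomial E k, π (phi L q) ∈ W := by
    intro q
    induction q using MvPolynomial.induction_on with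
    | C a =>
      rw [phi_C, ← rho0_C L e, hT.comp]
      exact W.algebraMap_mem _
    | add p q hp hq =>
      rw [map_add, map_add]
      exact W.add_mem hp hq
    | mul_X p i hp =>
      rw [map_mul, map_mul]
      apply W.mul_mem hp
      rw [phi_X]
      by_cases hi : i = e
      · rw [hi]
        exact Algebra.subset_adjoin rfl
      · have h5 : uP L i = rho0 L e (X i) := by rw [rho0_X, tP, if_neg hi, uP]
        rw [h5, hT.comp]
        exact W.algebraMap_mem _
  have hxe : π (xP L e) ∈ W := by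
    have h5 : xP L e = rho0 L e (X e) := by rw [rho0_X, tP, if_pos rfl]
    rw [h5, hT.comp]
    exact W.algebraMap_mem _
  have hze := pderiv_e_ne_zero hT hnl hD hhom hF0 hF
  have hF' : phi L F = 0 := (hF F).2 dvd_rfl
  have hxi : ∀ i, π (xP L i) ∈ W := by
    intro i
    have h1 := congrArg π (gradient hT hnl hF' i)
    rw [map_mul, map_mul] at h1
    have h2 : π (phi L (pderiv i F)) ≠ 0 := by
      intro h3
      rw [h3, zero_mul] at h1
      rcases mul_eq_zero.1 h1.symm with h4 | h4
      · exact hze (hT.inj (by rw [h4, map_zero]))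
      · exact hx e h4
    have h3 : π (xP L i) = (π (phi L (pderiv i F)))⁻¹ * (π (phi L (pderiv e F)) * π (xP L e)) := by
      rw [← h1, ← mul_assoc, inv_mul_cancel₀ h2, one_mul]
    rw [h3]
    exact W.mul_mem (hinv _ (hphi _)) (W.mul_mem (hphi _) hxe)
  have hvi : ∀ i, π (vP L i) ∈ W := by
    intro i
    have h3 : π (vP L i) = ((π (xP L i))⁻¹) ^ 2 * π (phi L (X i)) := by
      rw [phi_X, uP, map_mul, map_pow, inv_pow, ← mul_assoc,
        inv_mul_cancel₀ (pow_ne_zero 2 (hx i)), one_mul]
    rw [h3]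
    exact W.mul_mem (W.pow_mem (hinv _ (hxi i)) 2) (hphi _)
  rw [eq_top_iff, ← hT.gen]
  apply Algebra.adjoin_le
  rintro _ (⟨i, rfl⟩ | ⟨i, rfl⟩)
  · exact hxi i
  · exact hvi i

theorem natDegree_eq {N : ℕ} {T : Type} [Field T] [Algebra (K0 k E) T]
    {π : PR L →+* T} (hT : GenField L e N T π) {G : Polynomial (MvPolynomial E k)} (hG : G.Monic)
    (hG0 : Polynomial.eval₂ (rho0 L e) (uP L e) G = 0)
    (hGd : ∀ p, Polynomial.eval₂ (rho0 L e) (uP L e) p = 0 → G ∣ p)
    (htop : Algebra.adjoin (K0 k E) {π (uP L e)} = ⊤) : G.natDegree = N := by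
  have hfin := hT.fin
  have hint : IsIntegral (K0 k E) (π (uP L e)) := Algebra.IsIntegral.isIntegral _
  have h1 : finrank (K0 k E) T = (minpoly (K0 k E) (π (uP L e))).natDegree := by
    rw [(PowerBasis.ofAdjoinEqTop hint htop).finrank]
    rfl
  let _ : Algebra (MvPolynomial E k) T :=
    ((algebraMap (K0 k E) T).comp (algebraMap (MvPolynomial E k) (K0 k E))).toAlgebra
  have : IsScalarTower (MvPolynomial E k) (K0 k E) T := IsScalarTower.of_algebraMap_eq fun _ => rfl
  have hcomp : π.comp (rho0 L e) = algebraMap (MvPolynomial E k) T :=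
    RingHom.ext fun a => hT.comp _
  have haeval : ∀ p : Polynomial (MvPolynomial E k), Polynomial.aeval (π (uP L e)) p =
      π (Polynomial.eval₂ (rho0 L e) (uP L e) p) := by
    intro p
    rw [Polynomial.hom_eval₂, hcomp, Polynomial.aeval_def]
  have hint2 : IsIntegral (MvPolynomial E k) (π (uP L e)) := by
    refine ⟨G, hG, ?_⟩
    rw [← Polynomial.aeval_def, haeval, hG0, map_zero]
  have hinjT : Function.Injective (algebraMap (MvPolynomial E k) T) := by
    have h2 : Function.Injective (algebraMap (K0 k E) T) := (algebraMap (K0 k E) T).injective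
    exact h2.comp (IsFractionRing.injective (MvPolynomial E k) (K0 k E))
  have : FaithfulSMul (MvPolynomial E k) T := (faithfulSMul_iff_algebraMap_injective _ _).2 hinjT
  have : Module.IsTorsionFree (MvPolynomial E k) T := inferInstance
  have h2 : minpoly (K0 k E) (π (uP L e)) = (minpoly (MvPolynomial E k) (π (uP L e))).map
      (algebraMap (MvPolynomial E k) (K0 k E)) :=
    minpoly.isIntegrallyClosed_eq_field_fractions' (K0 k E) hint2
  have h3 : (minpoly (K0 k E) (π (uP L e))).natDegree =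
      (minpoly (MvPolynomial E k) (π (uP L e))).natDegree := by
    rw [h2]
    exact (minpoly.monic hint2).natDegree_map _
  have h4 : G ∣ minpoly (MvPolynomial E k) (π (uP L e)) := by
    apply hGd
    apply hT.inj
    rw [← haeval, minpoly.aeval, map_zero]
  have h5 : minpoly (MvPolynomial E k) (π (uP L e)) ∣ G := by
    apply minpoly.isIntegrallyClosed_dvd hint2
    rw [haeval, hG0, map_zero]
  have h6 := Polynomial.natDegree_le_of_dvd h4 (minpoly.ne_zero hint2)
  have h7 := Polynomial.natDegree_le_of_dvd h5 hG.ne_zero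
  rw [← hT.rank, h1, h3]
  omega

/-- The equation of the hypersurface parametrised by `x_i^2 v_i`. -/
theorem exists_equation [CharZero k] (L : Submodule k (E → k)) [Nonempty E]
    (hnl : ∀ i, ∃ y ∈ L, y i ≠ 0) (hbeta : 0 < beta L) :
    ∃ (F : MvPolynomial E k) (N : ℕ), Irreducible F ∧ F.IsHomogeneous N ∧
      2 * (N : ℤ) = 2 ^ finrank k L * beta L ∧ ∀ H, phi L H = 0 ↔ F ∣ H := by
  obtain ⟨e⟩ := ‹Nonempty E›
  obtain ⟨N, hN, hN'⟩ := exists_hasDeg (Fintype.card E) E rfl L e
  have h1 : 2 * (N : ℤ) = 2 ^ finrank k L * beta L := by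
    rw [hN', beta, neg_pow (2 : ℤ)]
    ring
  have hNpos : 0 < N := by
    have : 0 < 2 * (N : ℤ) := by
      rw [h1]
      positivity
    omega
  obtain ⟨T, _, _, π, hT⟩ := exists_genField L e N hNpos hN
  have hinj : Function.Injective (rho0 L e) := by
    intro a b hab
    have h2 : algebraMap (K0 k E) T (algebraMap _ _ a) =
        algebraMap (K0 k E) T (algebraMap _ _ b) := by
      rw [← hT.comp, ← hT.comp, hab]
    exact IsFractionRing.injective (MvPolynomial E k) (K0 k E) ((algebraMap (K0 k E) T).injective h2)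
  obtain ⟨G, hG, hG0, hGd⟩ := exists_G L e (hnl e) hinj
  obtain ⟨h3, h4, h5⟩ := exists_F L e hG hG0 hGd
  have hD : G.natDegree ≠ 0 := by
    intro h6
    have h7 : G = 1 := hG.natDegree_eq_zero.1 h6
    rw [h7] at hG0
    simp at hG0
  have htop := adjoin_top hT hnl hD h3 h4.ne_zero h5
  have hdeg := natDegree_eq hT hG hG0 hGd htop
  exact ⟨_, N, h4, hdeg ▸ h3, h1, h5⟩

end Pool.Agent.Y214.RD
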