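import Mathlib
import Pool.Agent.Y214.RD.Defs
import Pool.Agent.Y214.RD.Birat2

/-!
Polynomials vanishing on a cone; derivatives; the tangent spaces of a reciprocal linear space at
the points of the torus.
-/

set_option autoImplicit false

namespace Pool.Agent.Y214.RDual

open MvPolynomial Module Pool.Agent.Y214.RD

variable {n : ℕ}

theorem eval_scale {F : MvPolynomial (Fin (n + 1)) ℂ} {m : ℕ} (hF : F.IsHomogeneous m) (c : ℂ)
    (y : Fin (n + 1) → ℂ) : eval (fun i => c * y i) F = c ^ m * eval y F := by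
  rw [eval_eq', eval_eq', Finset.mul_sum]
  apply Finset.sum_congr rfl
  intro d hd
  have h1 : ∑ i, d i = m := by
    have h2 := hF (mem_support_iff.1 hd)
    rw [Finsupp.weight_apply, Finsupp.sum_fintype _ _ (by simp)] at h2
    simpa using h2
  simp only [mul_pow, Finset.prod_mul_distrib, Finset.prod_pow_eq_pow_sum, h1]
  ring

theorem eval_eq_zero_of_cone {Y : Set (Fin (n + 1) → ℂ)}
    (hY : ∀ y ∈ Y, ∀ c : ℂ, c ≠ 0 → (fun i => c * y i) ∈ Y) {p : Fin (n + 1) → ℂ}
    (hp : p ∈ zcl Y) (H : MvPolynomial (Fin (n + 1)) ℂ) (hH : ∀ y ∈ Y, eval y H = 0) :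
    eval p H = 0 := by
  have key : ∀ m, ∀ y ∈ Y, eval y (homogeneousComponent m H) = 0 := by
    intro m y hy
    let Q : Polynomial ℂ := ∑ j ∈ Finset.range (H.totalDegree + 1),
      Polynomial.C (eval y (homogeneousComponent j H)) * Polynomial.X ^ j
    have hQ : ∀ c : ℂ, c ≠ 0 → Polynomial.eval c Q = 0 := by
      intro c hc
      have h1 := hH _ (hY y hy c hc)
      rw [← sum_homogeneousComponent H, map_sum] at h1
      rw [Polynomial.eval_finsetSum, ← h1]
      apply Finset.sum_congr rfl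
      intro j _
      rw [eval_scale (homogeneousComponent_isHomogeneous j H), Polynomial.eval_mul,
        Polynomial.eval_C, Polynomial.eval_pow, Polynomial.eval_X, mul_comm]
    have hQ0 : Q = 0 := by
      apply Polynomial.eq_zero_of_infinite_isRoot
      apply Set.Infinite.mono (s := {c : ℂ | c ≠ 0}) (fun c hc => hQ c hc)
      exact Set.Infinite.mono (s := ({0}ᶜ : Set ℂ)) (fun c hc => hc)
        (Set.finite_singleton (0 : ℂ)).infinite_compl
    by_cases hm : m ∈ Finset.range (H.totalDegree + 1)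
    · have h2 := congrArg (fun q => Polynomial.coeff q m) hQ0
      simp only [Q, Polynomial.finsetSum_coeff, Polynomial.coeff_C_mul, Polynomial.coeff_X_pow,
        Polynomial.coeff_zero] at h2
      rw [Finset.sum_eq_single m] at h2
      · simpa using h2
      · intro j _ hj
        rw [if_neg (Ne.symm hj), mul_zero]
      · intro h
        exact absurd hm h
    · rw [Finset.mem_range, not_lt] at hm
      rw [homogeneousComponent_eq_zero _ _ (by omega), map_zero]
  rw [← sum_homogeneousComponent H, map_sum]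
  apply Finset.sum_eq_zero
  intro m _
  exact hp.2 m _ (homogeneousComponent_isHomogeneous m H) (key m)

theorem hasDerivAt_eval (F : MvPolynomial (Fin (n + 1)) ℂ) (a : ℂ → Fin (n + 1) → ℂ)
    (a' : Fin (n + 1) → ℂ) (t0 : ℂ) (h : ∀ i, HasDerivAt (fun t => a t i) (a' i) t0) :
    HasDerivAt (fun t => eval (a t) F) (∑ i, eval (a t0) (pderiv i F) * a' i) t0 := by
  induction F using MvPolynomial.induction_on with
  | C c =>
    simp only [eval_C, pderiv_C, map_zero, zero_mul, Finset.sum_const_zero]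
    exact hasDerivAt_const _ _
  | add p q hp hq =>
    simp only [map_add, add_mul, Finset.sum_add_distrib]
    exact hp.add hq
  | mul_X p j hp =>
    have h1 := hp.mul (h j)
    have h2 : ∑ i, eval (a t0) (pderiv i (p * X j)) * a' i =
        (∑ i, eval (a t0) (pderiv i p) * a' i) * a t0 j + eval (a t0) p * a' j := by
      have h3 : ∀ i, eval (a t0) (pderiv i (p * X j)) * a' i =
          (eval (a t0) (pderiv i p) * a' i) * a t0 j +
          (if i = j then eval (a t0) p * a' j else 0) := by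
        intro i
        rw [Derivation.leibniz, pderiv_X]
        by_cases hij : i = j
        · subst hij
          simp
          ring
        · simp [hij, Ne.symm hij]
          ring
      rw [Finset.sum_congr rfl fun i _ => h3 i, Finset.sum_add_distrib, Finset.sum_mul]
      simp
    have h4 : (fun t => eval (a t) (p * X j)) = fun t => eval (a t) p * a t j := by
      funext t
      simp
    rw [h2, h4]
    exact h1

/-- Points of the torus part of the reciprocal space. -/
def YL (L : Submodule ℂ (Fin (n + 1) → ℂ)) : Set (Fin (n + 1) → ℂ) :=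
  {p | ∃ x ∈ L, (∀ i, x i ≠ 0) ∧ p = fun i => (x i)⁻¹}

variable (L : Submodule ℂ (Fin (n + 1) → ℂ))

theorem YL_cone : ∀ y ∈ YL L, ∀ c : ℂ, c ≠ 0 → (fun i => c * y i) ∈ YL L := by
  rintro _ ⟨x, hx, hx0, rfl⟩ c hc
  refine ⟨c⁻¹ • x, L.smul_mem _ hx, fun i => ?_, ?_⟩
  · simp [hc, hx0 i]
  · funext i
    simp [mul_comm]

theorem YL_sub : YL L ⊆ zcl (YL L) := by
  intro p hp
  refine ⟨?_, fun m F _ h => h p hp⟩
  obtain ⟨x, _, hx0, rfl⟩ := hp
  intro h
  have := congrFun h 0
  simp [hx0 0] at this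

/-- Multiplication by the squares of the coordinates. -/
noncomputable def sc (x : Fin (n + 1) → ℂ) (hx : ∀ i, x i ≠ 0) :
    (Fin (n + 1) → ℂ) ≃ₗ[ℂ] (Fin (n + 1) → ℂ) where
  toFun w i := w i * x i ^ 2
  invFun w i := w i * (x i ^ 2)⁻¹
  left_inv w := by
    funext i
    show w i * x i ^ 2 * (x i ^ 2)⁻¹ = w i
    rw [mul_assoc, mul_inv_cancel₀ (pow_ne_zero 2 (hx i)), mul_one]
  right_inv w := by
    funext i
    show w i * (x i ^ 2)⁻¹ * x i ^ 2 = w i
    rw [mul_assoc, inv_mul_cancel₀ (pow_ne_zero 2 (hx i)), mul_one]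
  map_add' a b := by
    funext i
    exact add_mul _ _ _
  map_smul' c a := by
    funext i
    exact mul_assoc _ _ _

/-- The equations of the reciprocal space. -/
noncomputable def eqn (v : Fin (n + 1) → ℂ) : MvPolynomial (Fin (n + 1)) ℂ :=
  ∑ i, C (v i) * ∏ j ∈ Finset.univ.erase i, X j

theorem eqn_hom (v : Fin (n + 1) → ℂ) : (eqn v).IsHomogeneous n := by
  apply MvPolynomial.IsHomogeneous.sum
  intro i _
  have h1 : (∏ j ∈ Finset.univ.erase i, (X j : MvPolynomial (Fin (n + 1)) ℂ)).IsHomogeneous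
      (∑ j ∈ Finset.univ.erase i, 1) :=
    MvPolynomial.IsHomogeneous.prod _ _ _ fun j _ => isHomogeneous_X _ _
  have h2 : ∑ j ∈ Finset.univ.erase i, 1 = n := by simp
  rw [h2] at h1
  exact h1.C_mul _

theorem eval_prod_erase {p : Fin (n + 1) → ℂ} (i : Fin (n + 1)) (hp : p i ≠ 0) :
    ∏ j ∈ Finset.univ.erase i, p j = (∏ j, p j) * (p i)⁻¹ := by
  rw [← Finset.mul_prod_erase Finset.univ p (Finset.mem_univ i)]
  field_simp

theorem eqn_vanish {v : Fin (n + 1) → ℂ} (hv : v ∈ perp L) : ∀ y ∈ YL L, eval y (eqn v) = 0 := by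
  rintro _ ⟨x, hx, hx0, rfl⟩
  rw [eqn, map_sum]
  have h1 : ∀ i, eval (fun i => (x i)⁻¹) (C (v i) * ∏ j ∈ Finset.univ.erase i, X j) =
      (∏ j, (x j)⁻¹) * (v i * x i) := by
    intro i
    rw [map_mul, eval_C, map_prod]
    simp only [eval_X]
    rw [eval_prod_erase i (inv_ne_zero (hx0 i)), inv_inv]
    ring
  rw [Finset.sum_congr rfl fun i _ => h1 i, ← Finset.mul_sum, hv x hx, mul_zero]

theorem eqn_gradient {v x : Fin (n + 1) → ℂ} (hv : v ∈ perp L) (hx : x ∈ L)
    (hx0 : ∀ i, x i ≠ 0) (l : Fin (n + 1)) :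
    eval (fun i => (x i)⁻¹) (pderiv l (eqn v)) = -(∏ j, (x j)⁻¹) * (v l * x l ^ 2) := by
  set p : Fin (n + 1) → ℂ := fun i => (x i)⁻¹ with hp
  have h1 : ∀ i, (if i = l then eval p (∏ j ∈ Finset.univ.erase i, X j) else 0) +
      p i * eval p (pderiv l (∏ j ∈ Finset.univ.erase i, X j)) =
      eval p (pderiv l (∏ j, X j)) := by
    intro i
    rw [← Finset.mul_prod_erase Finset.univ (fun j => (X j : MvPolynomial (Fin (n + 1)) ℂ))
      (Finset.mem_univ i), Derivation.leibniz, pderiv_X]
    by_cases hil : i = l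
    · subst hil
      simp
      ring
    · simp [hil, Ne.symm hil]
  have h2 : ∀ i, eval p (pderiv l (∏ j ∈ Finset.univ.erase i, X j)) =
      x i * (eval p (pderiv l (∏ j, X j)) -
        (if i = l then eval p (∏ j ∈ Finset.univ.erase i, X j) else 0)) := by
    intro i
    rw [← h1 i]
    have : x i * p i = 1 := mul_inv_cancel₀ (hx0 i)
    linear_combination (-eval p (pderiv l (∏ j ∈ Finset.univ.erase i, X j))) * this
  rw [eqn, map_sum, map_sum]
  have h3 : ∀ i, eval p (pderiv l (C (v i) * ∏ j ∈ Finset.univ.erase i, X j)) =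
      (v i * x i) * eval p (pderiv l (∏ j, X j)) -
      (if i = l then (v i * x i) * eval p (∏ j ∈ Finset.univ.erase i, X j) else 0) := by
    intro i
    rw [pderiv_C_mul, map_mul, eval_C, h2]
    split_ifs <;> ring
  rw [Finset.sum_congr rfl fun i _ => h3 i, Finset.sum_sub_distrib, ← Finset.sum_mul, hv x hx,
    zero_mul, Finset.sum_ite_eq' Finset.univ l, if_pos (Finset.mem_univ l), map_prod]
  simp only [eval_X]
  rw [eval_prod_erase l (inv_ne_zero (hx0 l)), hp]
  simp only [inv_inv]
  ring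

theorem vanish_zcl {Y : Set (Fin (n + 1) → ℂ)} {m : ℕ} {F : MvPolynomial (Fin (n + 1)) ℂ}
    (hF : F.IsHomogeneous m) (h : ∀ y ∈ Y, eval y F = 0) : ∀ y ∈ zcl Y, eval y F = 0 :=
  fun _ hy => hy.2 m F hF h

theorem tan_torus {x : Fin (n + 1) → ℂ} (hx : x ∈ L) (hx0 : ∀ i, x i ≠ 0) :
    tanSp (zcl (YL L)) (fun i => (x i)⁻¹) = L.comap (sc x hx0).toLinearMap := by
  ext w
  constructor
  · intro hw
    show (fun i => w i * x i ^ 2) ∈ L
    rw [← perp_perp L]
    intro v hv
    have h1 := hw n (eqn v) (eqn_hom v) (vanish_zcl (eqn_hom v) (eqn_vanish L hv))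
    simp only [eqn_gradient L hv hx hx0] at h1
    have h2 : ∑ i, -(∏ j, (x j)⁻¹) * (v i * x i ^ 2) * w i =
        -(∏ j, (x j)⁻¹) * ∑ i, (w i * x i ^ 2) * v i := by
      rw [Finset.mul_sum]
      exact Finset.sum_congr rfl fun i _ => by ring
    rw [h2] at h1
    have h3 : -(∏ j, (x j)⁻¹) ≠ 0 :=
      neg_ne_zero.2 (Finset.prod_ne_zero_iff.2 fun i _ => inv_ne_zero (hx0 i))
    exact (mul_eq_zero.1 h1).resolve_left h3
  · intro hw m F hF hX
    have hw' : (fun i => w i * x i ^ 2) ∈ L := hw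
    set y : Fin (n + 1) → ℂ := fun i => w i * x i ^ 2 with hy
    have h1 := hasDerivAt_eval F (fun t i => (x i + t * y i)⁻¹) (fun i => -w i) 0 (by
      intro i
      have h2 : HasDerivAt (fun t : ℂ => x i + t * y i) (y i) 0 := by
        have h3 := ((hasDerivAt_id (0 : ℂ)).mul_const (y i)).const_add (x i)
        simpa using h3
      have h3 := h2.inv (by simpa using hx0 i)
      have h4 : -y i / (x i + 0 * y i) ^ 2 = -w i := by
        rw [zero_mul, add_zero, hy]
        field_simp [hx0 i]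
      rw [h4] at h3
      exact h3)
    have h2 : (fun t : ℂ => eval (fun i => (x i + t * y i)⁻¹) F) =ᶠ[nhds 0] fun _ => (0 : ℂ) := by
      have h3 : ∀ᶠ t : ℂ in nhds 0, ∀ i, x i + t * y i ≠ 0 := by
        rw [Filter.eventually_all]
        intro i
        have h4 : ContinuousAt (fun t : ℂ => x i + t * y i) 0 := by fun_prop
        apply h4.eventually_ne
        simpa using hx0 i
      filter_upwards [h3] with t ht
      apply hX
      apply YL_sub
      refine ⟨x + t • y, L.add_mem hx (L.smul_mem t hw'), fun i => ?_, ?_⟩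
      · simpa using ht i
      · funext i
        simp
    have h3 := (h1.congr_of_eventuallyEq h2.symm).unique (hasDerivAt_const (0 : ℂ) (0 : ℂ))
    simp only [zero_mul, add_zero, mul_neg, Finset.sum_neg_distrib, neg_eq_zero] at h3
    exact h3

theorem finrank_tan_torus {x : Fin (n + 1) → ℂ} (hx : x ∈ L) (hx0 : ∀ i, x i ≠ 0) :
    finrank ℂ (tanSp (zcl (YL L)) (fun i => (x i)⁻¹)) = finrank ℂ L := by
  rw [tan_torus L hx hx0, ← LinearEquiv.finrank_map_eq (sc x hx0)
    (L.comap (sc x hx0).toLinearMap)]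
  have h : (L.comap (sc x hx0).toLinearMap).map (sc x hx0).toLinearMap = L :=
    Submodule.map_comap_eq_of_surjective (sc x hx0).surjective L
  rw [h]

end Pool.Agent.Y214.RDual
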