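import Mathlib
import Pool.Agent.Y214.RD.Cone

/-!
The torus points of a reciprocal linear space are smooth; conormal vectors at arbitrary points are
limits of conormal vectors at torus points.
-/

set_option autoImplicit false

namespace Pool.Agent.Y214.RDual

open MvPolynomial Module Pool.Agent.Y214.RD

variable {n : ℕ}

/-- The gradients at `q` of the homogeneous equations of `X`. -/
def grads (X : Set (Fin (n + 1) → ℂ)) (q : Fin (n + 1) → ℂ) : Set (Fin (n + 1) → ℂ) :=
  {g | ∃ (m : ℕ) (F : MvPolynomial (Fin (n + 1)) ℂ), F.IsHomogeneous m ∧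
    (∀ y ∈ X, eval y F = 0) ∧ g = fun i => eval q (pderiv i F)}

theorem span_grads (X : Set (Fin (n + 1) → ℂ)) (q : Fin (n + 1) → ℂ) :
    Submodule.span ℂ (grads X q) = perp (tanSp X q) := by
  apply le_antisymm
  · rw [Submodule.span_le]
    rintro _ ⟨m, F, hF, hX, rfl⟩
    intro w hw
    exact hw m F hF hX
  · have h1 : perp (Submodule.span ℂ (grads X q)) ≤ tanSp X q := by
      intro w hw m F hF hX
      have h2 := hw _ (Submodule.subset_span ⟨m, F, hF, hX, rfl⟩)
      rw [← h2]
      exact Finset.sum_congr rfl fun i _ => mul_comm _ _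
    rw [← perp_perp (Submodule.span ℂ (grads X q))]
    intro a ha y hy
    exact ha y (h1 hy)

variable (L : Submodule ℂ (Fin (n + 1) → ℂ))

theorem finrank_span_grads (X : Set (Fin (n + 1) → ℂ)) (q : Fin (n + 1) → ℂ) :
    finrank ℂ (tanSp X q) + finrank ℂ (Submodule.span ℂ (grads X q)) = n + 1 := by
  rw [span_grads, finrank_perp, Fintype.card_fin]

theorem le_finrank_tan {q : Fin (n + 1) → ℂ} (hq : q ∈ zcl (YL L)) :
    finrank ℂ L ≤ finrank ℂ (tanSp (zcl (YL L)) q) := by
  by_contra hlt
  rw [not_le] at hlt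
  obtain ⟨r, f, hrdef, hf, hind⟩ : ∃ (r : ℕ) (f : Fin r → Fin (n + 1) → ℂ),
      r = finrank ℂ (Submodule.span ℂ (grads (zcl (YL L)) q)) ∧
      (∀ a, f a ∈ grads (zcl (YL L)) q) ∧ LinearIndependent ℂ f := by
    obtain ⟨f, hf, -, hind⟩ := Submodule.exists_fun_fin_finrank_span_eq ℂ (grads (zcl (YL L)) q)
    exact ⟨_, f, rfl, hf, hind⟩
  have hr := finrank_span_grads (zcl (YL L)) q
  rw [← hrdef] at hr
  choose m F hF hX hfF using hf
  obtain ⟨S, hS⟩ := LinearMap.exists_leftInverse_of_injective
    (Fintype.linearCombination ℂ f) (LinearMap.ker_eq_bot.2 (by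
      intro c c' hcc
      have h1 := Fintype.linearIndependent_iff.1 hind (fun a => c a - c' a) (by
        simp only [sub_smul, Finset.sum_sub_distrib]
        simp only [Fintype.linearCombination_apply] at hcc
        rw [hcc, sub_self])
      funext a
      exact sub_eq_zero.1 (h1 a)))
  have hSf : ∀ a b, ∑ i, f a i * S (Pi.single i 1) b = if a = b then 1 else 0 := by
    intro a b
    have h1 : Fintype.linearCombination ℂ f (Pi.single a 1) = f a := by
      rw [Fintype.linearCombination_apply_single, one_smul]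
    have h2 : S (f a) = Pi.single a 1 := by
      rw [← h1]
      exact LinearMap.congr_fun hS _
    have h3 : f a = ∑ i, f a i • (Pi.single i (1 : ℂ) : Fin (n + 1) → ℂ) := by
      funext j
      rw [Finset.sum_apply]
      simp [Pi.single_apply]
    have h4 : S (f a) b = ∑ i, f a i * S (Pi.single i 1) b := by
      conv_lhs => rw [h3]
      rw [map_sum, Finset.sum_apply]
      simp
    rw [← h4, h2, Pi.single_apply]
    simp only [eq_comm]
  let M : Matrix (Fin r) (Fin r) (MvPolynomial (Fin (n + 1)) ℂ) :=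
    Matrix.of fun a b => ∑ i, pderiv i (F a) * C (S (Pi.single i 1) b)
  have hM : ∀ y, eval y M.det =
      (Matrix.of fun a b => ∑ i, eval y (pderiv i (F a)) * S (Pi.single i 1) b).det := by
    intro y
    rw [RingHom.map_det]
    congr 1
    ext a b
    simp [M]
  have hq1 : eval q M.det = 1 := by
    rw [hM]
    have h1 : (Matrix.of fun a b => ∑ i, eval q (pderiv i (F a)) * S (Pi.single i 1) b) =
        (1 : Matrix (Fin r) (Fin r) ℂ) := by
      ext a b
      rw [Matrix.of_apply, Matrix.one_apply, ← hSf a b]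
      apply Finset.sum_congr rfl
      intro i _
      rw [hfF a]
    rw [h1, Matrix.det_one]
  have hy0 : ∀ y ∈ YL L, eval y M.det = 0 := by
    intro y hy
    have hy' := hy
    rw [hM, ← Matrix.exists_vecMul_eq_zero_iff]
    obtain ⟨x, hx, hx0, rfl⟩ := hy
    have h1 := finrank_tan_torus L hx hx0
    have h2 := finrank_span_grads (zcl (YL L)) (fun i => (x i)⁻¹)
    have h3 : ¬ LinearIndependent ℂ (fun a i => eval (fun i => (x i)⁻¹) (pderiv i (F a)) :
        Fin r → Fin (n + 1) → ℂ) := by
      intro h4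
      have h5 := finrank_span_eq_card h4
      have h6 : Submodule.span ℂ (Set.range (fun a i => eval (fun i => (x i)⁻¹) (pderiv i (F a)) :
          Fin r → Fin (n + 1) → ℂ)) ≤
          Submodule.span ℂ (grads (zcl (YL L)) (fun i => (x i)⁻¹)) := by
        apply Submodule.span_mono
        rintro _ ⟨a, rfl⟩
        exact ⟨m a, F a, hF a, hX a, rfl⟩
      have h7 := Submodule.finrank_mono h6
      rw [h5, Fintype.card_fin] at h7
      omega
    rw [Fintype.not_linearIndependent_iff] at h3
    obtain ⟨c, hc, a0, ha0⟩ := h3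
    refine ⟨c, fun h => ha0 (congrFun h a0), ?_⟩
    funext b
    simp only [Matrix.vecMul, dotProduct, Matrix.of_apply, Pi.zero_apply, Finset.mul_sum]
    rw [Finset.sum_comm]
    apply Finset.sum_eq_zero
    intro i _
    have h4 := congrFun hc i
    rw [Finset.sum_apply] at h4
    simp only [Pi.smul_apply, smul_eq_mul, Pi.zero_apply] at h4
    rw [← mul_zero (S (Pi.single i 1) b), ← h4, Finset.mul_sum]
    apply Finset.sum_congr rfl
    intro a _
    ring
  have := eval_eq_zero_of_cone (YL_cone L) hq M.det hy0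
  rw [hq1] at this
  exact one_ne_zero this

theorem smooth_torus {x : Fin (n + 1) → ℂ} (hx : x ∈ L) (hx0 : ∀ i, x i ≠ 0) :
    IsSmooth (zcl (YL L)) (fun i => (x i)⁻¹) := by
  refine ⟨YL_sub L ⟨x, hx, hx0, rfl⟩, fun q hq => ?_⟩
  rw [finrank_tan_torus L hx hx0]
  exact le_finrank_tan L hq

theorem phi_spec {G : MvPolynomial (Fin (n + 1)) ℂ} (hG : phi L G = 0)
    {x v : Fin (n + 1) → ℂ} (hx : x ∈ L) (hv : v ∈ perp L) :
    eval (fun i => x i ^ 2 * v i) G = 0 := by
  obtain ⟨φ, hc, hφx, hφv⟩ := exists_hom L (RingHom.id ℂ) x v (by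
    intro a ha
    exact ha x hx) (by
    intro a ha
    rw [← hv a ha]
    exact Finset.sum_congr rfl fun i _ => mul_comm _ _)
  have h1 : φ.comp (phi L) = eval (fun i => x i ^ 2 * v i) := by
    apply MvPolynomial.ringHom_ext
    · intro a
      rw [RingHom.comp_apply, phi_C, eval_C]
      exact RingHom.congr_fun hc a
    · intro i
      rw [RingHom.comp_apply, phi_X, eval_X, uP, map_mul, map_pow, hφx, hφv]
  rw [← h1, RingHom.comp_apply, hG, map_zero]

theorem phi_of_spec (hnl : ∀ i, ∃ y ∈ L, y i ≠ 0) {G : MvPolynomial (Fin (n + 1)) ℂ}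
    (h : ∀ x ∈ L, (∀ i, x i ≠ 0) → ∀ v ∈ perp L, eval (fun i => x i ^ 2 * v i) G = 0) :
    phi L G = 0 := by
  have hprod : ∏ i, xP L i ≠ 0 :=
    Finset.prod_ne_zero_iff.2 fun i _ => xP_ne_zero L (hnl i)
  have h1 : phi L G * ∏ i, xP L i = 0 := by
    apply MvPolynomial.funext
    intro z
    rw [map_mul, map_prod, map_zero]
    by_cases h0 : ∀ i, eval z (xP L i) ≠ 0
    · have hx : (fun i => eval z (xP L i)) ∈ L := by
        have hpp : (fun i => eval z (xP L i)) ∈ perp (perp L) → (fun i => eval z (xP L i)) ∈ L :=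
          fun h => (perp_perp L).le h
        apply hpp
        intro a ha
        have h2 := (rel_xP L).map (eval z) a ha
        rw [← h2]
        apply Finset.sum_congr rfl
        intro i _
        simp [mul_comm]
      have hv : (fun i => eval z (vP L i)) ∈ perp L := by
        intro a ha
        have h2 := (rel_vP L).map (eval z) a ha
        rw [← h2]
        apply Finset.sum_congr rfl
        intro i _
        simp [mul_comm]
      have h3 := h _ hx h0 _ hv
      have h4 : eval (fun i => eval z (xP L i) ^ 2 * eval z (vP L i)) = (eval z).comp (phi L) := by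
        apply MvPolynomial.ringHom_ext
        · intro a
          rw [RingHom.comp_apply, phi_C, eval_C, eval_C]
        · intro i
          rw [RingHom.comp_apply, phi_X, eval_X, uP, map_mul, map_pow]
      rw [h4, RingHom.comp_apply] at h3
      rw [h3, zero_mul]
    · push Not at h0
      obtain ⟨i, hi⟩ := h0
      rw [Finset.prod_eq_zero (Finset.mem_univ i) hi, mul_zero]
  exact (mul_eq_zero.1 h1).resolve_right hprod

theorem exists_torus (hnl : ∀ i, ∃ y ∈ L, y i ≠ 0) : ∃ x ∈ L, ∀ i, x i ≠ 0 := by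
  by_contra hne
  push Not at hne
  have h1 : phi L (1 : MvPolynomial (Fin (n + 1)) ℂ) = 0 := by
    apply phi_of_spec L hnl
    intro x hx hx0
    obtain ⟨i, hi⟩ := hne x hx
    exact absurd hi (hx0 i)
  rw [map_one] at h1
  exact one_ne_zero h1

/-- Vectors conormal to the reciprocal space at a torus point. -/
theorem conormal_torus {x : Fin (n + 1) → ℂ} (hx : x ∈ L) (hx0 : ∀ i, x i ≠ 0)
    {u : Fin (n + 1) → ℂ} :
    u ∈ perp (tanSp (zcl (YL L)) (fun i => (x i)⁻¹)) ↔
      ∃ v ∈ perp L, u = fun i => x i ^ 2 * v i := by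
  rw [tan_torus L hx hx0]
  constructor
  · intro hu
    refine ⟨fun i => u i * (x i ^ 2)⁻¹, ?_, ?_⟩
    · intro y hy
      have h1 := hu (fun i => y i * (x i ^ 2)⁻¹) (by
        show (fun i => y i * (x i ^ 2)⁻¹ * x i ^ 2) ∈ L
        have h2 : (fun i => y i * (x i ^ 2)⁻¹ * x i ^ 2) = y := by
          funext i
          rw [mul_assoc, inv_mul_cancel₀ (pow_ne_zero 2 (hx0 i)), mul_one]
        rw [h2]
        exact hy)
      rw [← h1]
      exact Finset.sum_congr rfl fun i _ => by ring
    · funext i
      have := mul_inv_cancel₀ (pow_ne_zero 2 (hx0 i))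
      linear_combination (-u i) * this
  · rintro ⟨v, hv, rfl⟩ w hw
    have h1 := hv _ hw
    rw [← h1]
    apply Finset.sum_congr rfl
    intro i _
    show x i ^ 2 * v i * w i = v i * (w i * x i ^ 2)
    ring

/-- Equations of the torus conormal vectors hold for all conormal vectors. -/
theorem conormal_eval {G : MvPolynomial (Fin (n + 1)) ℂ} (hG : phi L G = 0)
    {q : Fin (n + 1) → ℂ} (hq : q ∈ zcl (YL L)) {u : Fin (n + 1) → ℂ}
    (hu : u ∈ perp (tanSp (zcl (YL L)) q)) : eval u G = 0 := by
  obtain ⟨f, hf, hspan, -⟩ := Submodule.exists_fun_fin_finrank_span_eq ℂ (grads (zcl (YL L)) q)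
  choose m F hF hX hfF using hf
  rw [← span_grads, ← hspan] at hu
  obtain ⟨c, hc⟩ := (Submodule.mem_span_range_iff_exists_fun ℂ).1 hu
  let H : MvPolynomial (Fin (n + 1)) ℂ := aeval (fun l => ∑ a, C (c a) * pderiv l (F a)) G
  have hH : ∀ y, eval y H = eval (fun l => ∑ a, c a * eval y (pderiv l (F a))) G := by
    intro y
    have h1 : ∀ G : MvPolynomial (Fin (n + 1)) ℂ,
        eval y (aeval (fun l => ∑ a, C (c a) * pderiv l (F a)) G) =
        eval (fun l => ∑ a, c a * eval y (pderiv l (F a))) G := by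
      intro G
      induction G using MvPolynomial.induction_on with
      | C a => simp [MvPolynomial.algebraMap_eq]
      | add p q hp hq => rw [map_add, map_add, hp, hq, map_add]
      | mul_X p j hp =>
        rw [map_mul, map_mul, hp, map_mul, aeval_X, eval_X, map_sum]
        simp
    exact h1 G
  have h1 : eval q H = eval u G := by
    rw [hH]
    congr 1
    congr 1
    funext l
    rw [← hc, Finset.sum_apply]
    apply Finset.sum_congr rfl
    intro a _
    rw [Pi.smul_apply, smul_eq_mul, hfF a]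
  rw [← h1]
  apply eval_eq_zero_of_cone (YL_cone L) hq
  rintro _ ⟨x, hx, hx0, rfl⟩
  rw [hH]
  obtain ⟨v, hv, huv⟩ := (conormal_torus L hx hx0).1 (show
    (fun l => ∑ a, c a * eval (fun i => (x i)⁻¹) (pderiv l (F a))) ∈
      perp (tanSp (zcl (YL L)) (fun i => (x i)⁻¹)) by
    rw [← span_grads]
    have h2 : (fun l => ∑ a, c a * eval (fun i => (x i)⁻¹) (pderiv l (F a))) =
        ∑ a, c a • (fun l => eval (fun i => (x i)⁻¹) (pderiv l (F a))) := by
      funext l
      rw [Finset.sum_apply]
      rfl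
    rw [h2]
    apply Submodule.sum_mem
    intro a _
    exact Submodule.smul_mem _ _ (Submodule.subset_span ⟨m a, F a, hF a, hX a, rfl⟩))
  rw [huv]
  exact phi_spec L hG hx hv

end Pool.Agent.Y214.RDual
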