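import Mathlib
import Pool.Agent.Y214.RD.Tang

/-!
The dual variety of a reciprocal linear space with connected matroid.
-/

set_option autoImplicit false

namespace Pool.Agent.Y214.RDual

open MvPolynomial Module Pool.Agent.Y214.RD

variable {n : ℕ}

section

variable (L : Submodule ℂ (Fin (n + 1) → ℂ))

theorem conormal_iff (X : Set (Fin (n + 1) → ℂ)) (p u : Fin (n + 1) → ℂ) :
    (∀ w ∈ tanSp X p, ∑ i, u i * w i = 0) ↔ u ∈ perp (tanSp X p) := Iff.rfl

/-- A homogeneous polynomial of positive degree vanishing on the conormal vectors. -/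
theorem phi_of_vanish (hnl : ∀ i, ∃ y ∈ L, y i ≠ 0) {m : ℕ} (hm : m ≠ 0)
    {G : MvPolynomial (Fin (n + 1)) ℂ} (hG : G.IsHomogeneous m)
    (h : ∀ u, u ≠ 0 → (∃ p, IsSmooth (zcl (YL L)) p ∧
      ∀ w ∈ tanSp (zcl (YL L)) p, ∑ i, u i * w i = 0) → eval u G = 0) :
    phi L G = 0 := by
  apply phi_of_spec L hnl
  intro x hx hx0 v hv
  by_cases hu : (fun i => x i ^ 2 * v i) = 0
  · have h1 := eval_scale hG 0 (fun i => x i ^ 2 * v i)
    rw [zero_pow hm, zero_mul] at h1
    rw [← h1]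
    congr 1
    congr 1
    funext i
    rw [zero_mul]
    exact congrFun hu i
  · apply h _ hu
    refine ⟨_, smooth_torus L hx hx0, ?_⟩
    rw [conormal_iff, conormal_torus L hx hx0]
    exact ⟨v, hv, rfl⟩

theorem dualVar_eq (hnl : ∀ i, ∃ y ∈ L, y i ≠ 0) {F : MvPolynomial (Fin (n + 1)) ℂ} {N : ℕ}
    (hF : F.IsHomogeneous N) (hFG : ∀ H, phi L H = 0 ↔ F ∣ H) :
    dualVar (zcl (YL L)) = {u | u ≠ 0 ∧ eval u F = 0} := by
  ext u
  constructor
  · rintro ⟨hu, h⟩
    refine ⟨hu, h N F hF ?_⟩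
    rintro y ⟨_, p, hp, hy⟩
    exact conormal_eval L ((hFG F).2 dvd_rfl) hp.1 ((conormal_iff _ _ _).1 hy)
  · rintro ⟨hu, h⟩
    refine ⟨hu, fun m G hG hv => ?_⟩
    by_cases hm : m = 0
    · subst hm
      obtain ⟨c, rfl⟩ : ∃ c, G = C c := ⟨coeff 0 G, by
        rw [← totalDegree_eq_zero_iff_eq_C]
        exact Nat.le_zero.1 hG.totalDegree_le⟩
      by_contra hc
      rw [eval_C] at hc
      obtain ⟨x, hx, hx0⟩ := exists_torus L hnl
      have h1 : ∀ v ∈ perp L, ∀ i, v i = 0 := by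
        intro v hv' i
        by_contra hvi
        have h2 : (fun i => x i ^ 2 * v i) ≠ 0 := by
          intro h3
          have h4 := congrFun h3 i
          exact mul_ne_zero (pow_ne_zero 2 (hx0 i)) hvi h4
        have h3 := hv _ ⟨h2, _, smooth_torus L hx hx0, (conormal_iff _ _ _).2
          ((conormal_torus L hx hx0).2 ⟨v, hv', rfl⟩)⟩
        rw [eval_C] at h3
        exact hc h3
      apply hu
      funext i
      have h2 : phi L (X i) = 0 := by
        apply phi_of_spec L hnl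
        intro y _ _ v hv'
        rw [eval_X, h1 v hv' i, mul_zero]
      obtain ⟨A, hA⟩ := (hFG _).1 h2
      have h3 : eval u (X i) = eval u (F * A) := by rw [← hA]
      rw [eval_X, map_mul, h, zero_mul] at h3
      exact h3
    · have h1 : phi L G = 0 := phi_of_vanish L hnl hm hG fun u hu hp => hv u ⟨hu, hp⟩
      obtain ⟨A, rfl⟩ := (hFG G).1 h1
      rw [map_mul, h, zero_mul]

theorem dvd_of_vanish (hnl : ∀ i, ∃ y ∈ L, y i ≠ 0) {F : MvPolynomial (Fin (n + 1)) ℂ}
    (hFG : ∀ H, phi L H = 0 ↔ F ∣ H) {m : ℕ} (hm : m ≠ 0)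
    {G : MvPolynomial (Fin (n + 1)) ℂ} (hG : G.IsHomogeneous m)
    (h : ∀ u ∈ dualVar (zcl (YL L)), eval u G = 0) : F ∣ G := by
  rw [← hFG]
  apply phi_of_vanish L hnl hm hG
  intro u hu hp
  exact h u ⟨hu, fun m' G' _ hG' => hG' u ⟨hu, hp⟩⟩

end

section

variable {d : ℕ} (ℓ : Fin (n + 1) → Module.Dual ℂ (Fin (d + 1) → ℂ))

/-- The linear space parametrised by the forms. -/
noncomputable def LS : Submodule ℂ (Fin (n + 1) → ℂ) := LinearMap.range (LinearMap.pi ℓ)

theorem mem_LS {x : Fin (n + 1) → ℂ} : x ∈ LS ℓ ↔ ∃ t, x = fun i => ℓ i t := by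
  constructor
  · rintro ⟨t, rfl⟩
    exact ⟨t, rfl⟩
  · rintro ⟨t, rfl⟩
    exact ⟨t, rfl⟩

theorem recip_eq : recip ℓ = zcl (YL (LS ℓ)) := by
  unfold recip
  congr 1
  ext p
  constructor
  · rintro ⟨t, ht, rfl⟩
    exact ⟨_, (mem_LS ℓ).2 ⟨t, rfl⟩, ht, rfl⟩
  · rintro ⟨x, hx, hx0, rfl⟩
    obtain ⟨t, rfl⟩ := (mem_LS ℓ).1 hx
    exact ⟨t, hx0, rfl⟩

variable {ℓ} (hspan : Submodule.span ℂ (Set.range ℓ) = ⊤)

include hspan

theorem pi_injective : Function.Injective (LinearMap.pi ℓ) := by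
  rw [← LinearMap.ker_eq_bot, eq_bot_iff]
  intro t ht
  have h1 : ∀ i, ℓ i t = 0 := fun i => congrFun ht i
  have h2 : ∀ f ∈ Submodule.span ℂ (Set.range ℓ), f t = 0 := by
    intro f hf
    induction hf using Submodule.span_induction with
    | mem x hx =>
      obtain ⟨i, rfl⟩ := hx
      exact h1 i
    | zero => rfl
    | add x y _ _ hx hy => rw [LinearMap.add_apply, hx, hy, add_zero]
    | smul a x _ hx => rw [LinearMap.smul_apply, hx, smul_zero]
  rw [Submodule.mem_bot]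
  funext j
  exact h2 (LinearMap.proj j) (by rw [hspan]; trivial)

theorem finrank_LS : finrank ℂ (LS ℓ) = d + 1 := by
  unfold LS
  rw [LinearMap.finrank_range_of_inj (pi_injective hspan)]
  simp

theorem zr_LS (S : Finset (Fin (n + 1))) : zr (LS ℓ) S + rk ℓ S = d + 1 := by
  have h1 := Subspace.finrank_add_finrank_dualCoannihilator_eq
    (Submodule.span ℂ (ℓ '' (S : Set (Fin (n + 1)))))
  have h2 : LS ℓ ⊓ van ℂ (S : Set (Fin (n + 1))) =
      (Submodule.span ℂ (ℓ '' (S : Set (Fin (n + 1))))).dualCoannihilator.map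
        (LinearMap.pi ℓ) := by
    ext x
    constructor
    · rintro ⟨⟨t, rfl⟩, hx⟩
      refine ⟨t, ?_, rfl⟩
      rw [SetLike.mem_coe, Submodule.mem_dualCoannihilator]
      intro f hf
      induction hf using Submodule.span_induction with
      | mem x hx' =>
        obtain ⟨i, hi, rfl⟩ := hx'
        exact hx i hi
      | zero => rfl
      | add x y _ _ hx hy => rw [LinearMap.add_apply, hx, hy, add_zero]
      | smul a x _ hx => rw [LinearMap.smul_apply, hx, smul_zero]
    · rintro ⟨t, ht, rfl⟩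
      rw [SetLike.mem_coe, Submodule.mem_dualCoannihilator] at ht
      refine ⟨⟨t, rfl⟩, fun i hi => ?_⟩
      exact ht _ (Submodule.subset_span ⟨i, hi, rfl⟩)
  have h3 : finrank ℂ ((Submodule.span ℂ (ℓ '' (S : Set (Fin (n + 1))))).dualCoannihilator.map
      (LinearMap.pi ℓ)) = finrank ℂ
      (Submodule.span ℂ (ℓ '' (S : Set (Fin (n + 1))))).dualCoannihilator :=
    (LinearEquiv.finrank_eq (Submodule.equivMapOfInjective _ (pi_injective hspan) _)).symm
  rw [zr, h2, h3, rk]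
  simp only [Module.finrank_fintype_fun_eq_card, Fintype.card_fin] at h1
  omega

theorem rk_univ : rk ℓ Finset.univ = d + 1 := by
  unfold rk
  rw [Finset.coe_univ, Set.image_univ, hspan, finrank_top, Subspace.dual_finrank_eq]
  simp

theorem conn_LS (hconn : IsConn ℓ) : Conn (LS ℓ) := by
  intro S hS hS'
  have h1 := hconn S hS hS'
  have h2 := zr_LS hspan S
  have h3 := zr_LS hspan Sᶜ
  rw [rk_univ hspan] at h1
  rw [finrank_LS hspan]
  omega

theorem beta_LS : beta (LS ℓ) = betaInv ℓ := by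
  have h1 : ∀ S, (zr (LS ℓ) S : ℤ) = (d + 1 : ℤ) - rk ℓ S := by
    intro S
    have h2 : (zr (LS ℓ) S : ℤ) + rk ℓ S = d + 1 := by
      exact_mod_cast zr_LS hspan S
    linarith
  unfold beta bInv betaInv
  rw [finrank_LS hspan, rk_univ hspan]
  simp only [h1, mul_sub, Finset.sum_sub_distrib, ← Finset.sum_mul]
  rw [sum_neg_one_pow_card]
  ring

theorem nonloop_LS (hconn : IsConn ℓ) : ∀ i, ∃ y ∈ LS ℓ, y i ≠ 0 := by
  intro i
  by_cases hn : n = 0
  · subst hn
    by_contra h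
    push Not at h
    have h1 : LS ℓ = ⊥ := by
      rw [eq_bot_iff]
      intro y hy
      rw [Submodule.mem_bot]
      funext j
      have hji : j = i := by
        apply Fin.ext
        omega
      rw [hji]
      exact h y hy
    have h2 := finrank_LS hspan
    rw [h1, finrank_bot] at h2
    omega
  · exact (conn_noncoloop (conn_LS hspan hconn) (by rw [Fintype.card_fin]; omega) i).1

/-- The dual variety of the reciprocal linear space of a connected matroid is a hypersurface of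
degree `2 ^ d * β`. -/
theorem dual_recip (hconn : IsConn ℓ) :
    ∃ (F : MvPolynomial (Fin (n + 1)) ℂ) (N : ℕ), Irreducible F ∧ F.IsHomogeneous N ∧
      (N : ℤ) = 2 ^ d * betaInv ℓ ∧
      dualVar (recip ℓ) = {u | u ≠ 0 ∧ eval u F = 0} ∧
      ∀ (m : ℕ) (G : MvPolynomial (Fin (n + 1)) ℂ), m ≠ 0 → G.IsHomogeneous m →
        (∀ u ∈ dualVar (recip ℓ), eval u G = 0) → F ∣ G := by
  have hnl := nonloop_LS hspan hconn
  have hb := beta_pos (Fintype.card (Fin (n + 1))) (Fin (n + 1)) rfl (LS ℓ) inferInstance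
    (conn_LS hspan hconn) (by rw [finrank_LS hspan]; omega)
  obtain ⟨F, N, hirr, hhom, hN, hFG⟩ := exists_equation (LS ℓ) hnl hb
  refine ⟨F, N, hirr, hhom, ?_, ?_, ?_⟩
  · rw [finrank_LS hspan, beta_LS hspan, pow_succ] at hN
    linarith
  · rw [recip_eq]
    exact dualVar_eq (LS ℓ) hnl hhom hFG
  · intro m G hm hG h
    rw [recip_eq] at h
    exact dvd_of_vanish (LS ℓ) hnl hFG hm hG h

end

end Pool.Agent.Y214.RDual
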